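import Pool.Agent.Y242.CK.NecP

set_option autoImplicit false

/-!
# The choice of the levels
-/

namespace Pool.Agent.Y242.CK

open Finset Filter Topology MeasureTheory
open Pool.Agent.Results.MP_459ac8_an.ZeroDensity (IsRepresenting)
open scoped ENNReal

/-- The levels for a given sequence. -/
lemma exists_levels (ε : ℕ → ℝ) (hε : Antitone ε) (h0 : ∀ n, 0 < ε n) (hd : ¬ Summable ε) :
    ∃ ρ : ℕ → ℝ, StrictAnti ρ ∧ (∀ k, 0 < ρ k) ∧ (∀ k, (2 : ℝ) ^ k * ρ k ≤ 1 / 2) ∧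
      (¬ Summable fun k => (2 : ℝ) ^ k * ρ k) ∧ ∀ n, ρ (Nat.log 2 (n + 1)) ≤ ε n := by
  set s : ℕ → ℝ := fun k => ((k : ℝ) + 2) / (4 * ((k : ℝ) + 1)) with hs
  set b : ℕ → ℝ := fun k => min (ε (2 ^ (k + 1))) (1 / 2 ^ k) with hb
  set ρ : ℕ → ℝ := fun k => b k * s k with hρ
  have hs0 : ∀ k, 1 / 4 < s k := by
    intro k
    rw [hs]
    simp only
    rw [lt_div_iff₀ (by positivity)]
    linarith
  have hs1 : ∀ k, s k ≤ 1 / 2 := by
    intro k
    rw [hs]
    simp only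
    rw [div_le_iff₀ (by positivity)]
    have : (0 : ℝ) ≤ k := Nat.cast_nonneg k
    linarith
  have hsa : StrictAnti s := strictAnti_nat_of_succ_lt fun k => by
    rw [hs]
    simp only
    rw [div_lt_div_iff₀ (by positivity) (by positivity)]
    push_cast
    nlinarith [(Nat.cast_nonneg k : (0 : ℝ) ≤ k)]
  have hb0 : ∀ k, 0 < b k := fun k => lt_min (h0 _) (by positivity)
  have hba : Antitone b := by
    intro k k' hkk
    refine min_le_min (hε (Nat.pow_le_pow_right (by norm_num) (by omega))) ?_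
    exact one_div_le_one_div_of_le (by positivity) (pow_le_pow_right₀ (by norm_num) hkk)
  have hρ0 : ∀ k, 0 < ρ k := fun k => mul_pos (hb0 k) (by linarith [hs0 k])
  have hρa : StrictAnti ρ := by
    intro k k' hkk
    calc ρ k' = b k' * s k' := rfl
      _ ≤ b k * s k' := mul_le_mul_of_nonneg_right (hba hkk.le) (by linarith [hs0 k'])
      _ < b k * s k := mul_lt_mul_of_pos_left (hsa hkk) (hb0 k)
  have hρ1 : ∀ k, (2 : ℝ) ^ k * ρ k ≤ 1 / 2 := by
    intro k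
    have h2 : (2 : ℝ) ^ k * b k ≤ 1 := by
      calc (2 : ℝ) ^ k * b k ≤ 2 ^ k * (1 / 2 ^ k) :=
            mul_le_mul_of_nonneg_left (min_le_right _ _) (by positivity)
        _ = 1 := by field_simp
    have h3 : 0 ≤ (2 : ℝ) ^ k * b k := by
      have := hb0 k
      positivity
    calc (2 : ℝ) ^ k * ρ k = (2 ^ k * b k) * s k := by rw [hρ]; ring
      _ ≤ 1 * (1 / 2) := mul_le_mul h2 (hs1 k) (by linarith [hs0 k]) (by norm_num)
      _ = 1 / 2 := by ring
  have hlt : ∀ k, ρ k < 1 := by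
    intro k
    have h2 : (1 : ℝ) ≤ 2 ^ k := one_le_pow₀ (by norm_num)
    have h3 := hρ0 k
    have h4 := hρ1 k
    nlinarith
  have hdiv : ¬ Summable fun k => (2 : ℝ) ^ k * ρ k := by
    intro hsum
    apply hd
    have h2 : Summable fun k => (2 : ℝ) ^ k * b k := by
      refine Summable.of_nonneg_of_le (fun k => ?_) (fun k => ?_) (hsum.mul_left 4)
      · have := hb0 k
        positivity
      · have h3 : 0 ≤ (2 : ℝ) ^ k * b k := by
          have := hb0 k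
          positivity
        have h4 := hs0 k
        calc (2 : ℝ) ^ k * b k ≤ (2 ^ k * b k) * (4 * s k) :=
              le_mul_of_one_le_right h3 (by linarith)
          _ = 4 * (2 ^ k * ρ k) := by rw [hρ]; ring
    have h3 := h2.tendsto_atTop_zero
    have h4 : ∀ᶠ k in atTop, (2 : ℝ) ^ k * b k < 1 := (tendsto_order.1 h3).2 1 one_pos
    have h5 : ∀ᶠ k in atTop, (2 : ℝ) ^ k * b k = 2 ^ k * ε (2 ^ (k + 1)) := by
      filter_upwards [h4] with k hk
      congr 1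
      rw [hb]
      simp only
      apply min_eq_left
      by_contra hcon
      have h6 : b k = 1 / 2 ^ k := min_eq_right (not_le.1 hcon).le
      rw [h6] at hk
      have : (2 : ℝ) ^ k * (1 / 2 ^ k) = 1 := by field_simp
      linarith
    have h6 : Summable fun k => (2 : ℝ) ^ k * ε (2 ^ (k + 1)) :=
      (summable_congr_atTop h5).1 h2
    have h7 : Summable fun k => (fun k => (2 : ℝ) ^ k * ε (2 ^ k)) (k + 1) := by
      refine (h6.mul_left 2).congr fun k => ?_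
      simp only
      rw [pow_succ (2 : ℝ)]
      ring
    have h8 : Summable fun k => (2 : ℝ) ^ k * ε (2 ^ k) := (summable_nat_add_iff 1).1 h7
    exact (summable_condensed_iff_of_nonneg (fun n => (h0 n).le) fun m n _ hmn => hε hmn).1 h8
  refine ⟨ρ, hρa, hρ0, hρ1, hdiv, fun n => ?_⟩
  set k := Nat.log 2 (n + 1) with hk
  have hk2 : n + 1 < 2 ^ (k + 1) := Nat.lt_pow_succ_log_self (by norm_num) _
  have h2 : ρ k ≤ b k := by
    have := hb0 k
    calc ρ k = b k * s k := rfl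
      _ ≤ b k * 1 := mul_le_mul_of_nonneg_left (by linarith [hs1 k]) this.le
      _ = b k := mul_one _
  have h3 : b k ≤ ε (2 ^ (k + 1)) := min_le_left _ _
  have h4 : ε (2 ^ (k + 1)) ≤ ε n := hε (by omega)
  linarith

lemma lt_one_of {ρ : ℕ → ℝ} (h0 : ∀ k, 0 < ρ k) (h1 : ∀ k, (2 : ℝ) ^ k * ρ k ≤ 1 / 2) (k : ℕ) :
    ρ k < 1 := by
  have h2 : (1 : ℝ) ≤ 2 ^ k := one_le_pow₀ (by norm_num)
  have h3 := h0 k
  have h4 := h1 k
  nlinarith

/-- **Sufficiency, for all exponents at once.** -/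
theorem sparse_all (ε : ℕ → ℝ) (hε : Antitone ε) (h0 : ∀ n, 0 < ε n) (hd : ¬ Summable ε) :
    ∃ Λ : ℕ → ℂ, Function.Injective Λ ∧ (∀ n, ‖Λ n‖ < 1) ∧ (Monotone fun n => ‖Λ n‖) ∧
      (∀ n, 1 - ‖Λ n‖ ≤ ε n) ∧ ∀ p : ℝ≥0∞, 1 ≤ p → p ≠ ∞ → IsRepresenting p Λ := by
  obtain ⟨ρ, ha, h2, h3, h4, h5⟩ := exists_levels ε hε h0 hd
  have hlt := lt_one_of h2 h3
  refine ⟨netv ρ, netv_inj hlt ha, netv_lt h2 hlt, netv_mono hlt ha, fun n => ?_,
    fun p hp hpt => netv_rep h2 h3 h4 hp hpt⟩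
  rw [norm_netv hlt]
  linarith [h5 n]

/-- **Necessity.** -/
theorem sparse_nec (ε : ℕ → ℝ) {Λ : ℕ → ℂ} (hΛ : ∀ n, ‖Λ n‖ < 1) (hle : ∀ n, 1 - ‖Λ n‖ ≤ ε n)
    {p : ℝ≥0∞} (hp : 1 ≤ p) (hr : IsRepresenting p Λ) : ¬ Summable ε := by
  intro hs
  refine necessityP hp Λ hΛ hr ?_
  exact Summable.of_nonneg_of_le (fun n => by linarith [hΛ n]) hle hs

/-- The criterion for the net in the van der Corput order. -/
theorem netv_iff {ρ : ℕ → ℝ} (h0 : ∀ k, 0 < ρ k) (h1 : ∀ k, (2 : ℝ) ^ k * ρ k ≤ 1 / 2)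
    {p : ℝ≥0∞} (hp : 1 ≤ p) (hpt : p ≠ ∞) :
    IsRepresenting p (netv ρ) ↔ ¬ Summable fun k => (2 : ℝ) ^ k * ρ k := by
  have hlt := lt_one_of h0 h1
  refine ⟨fun hr => ?_, fun hd => netv_rep h0 h1 hd hp hpt⟩
  rw [← summable_netv h0 hlt]
  exact necessityP hp _ (netv_lt h0 hlt) hr

end Pool.Agent.Y242.CK
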