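import Pool.Agent.Y242.CK.Mom2

set_option autoImplicit false

/-!
# Even moments of the analytic sums
-/

namespace Pool.Agent.Y242.CK

open Finset Filter Topology MeasureTheory AddCircle ComplexConjugate

lemma integC (F : C(Ci, ℂ)) : Integrable F haarAddCircle :=
  F.continuous.integrable_of_hasCompactSupport (HasCompactSupport.of_compactSpace _)

lemma circ_int (f : ℂ → ℂ) :
    ∫ t : Ci, f (ez t) ∂haarAddCircle = Real.circleAverage f 0 1 := by
  rw [integral_haarAddCircle, inv_one, one_smul, ← UnitAddCircle.intervalIntegral_preimage 0,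
    Real.circleAverage_def]
  have e1 : ∀ x : ℝ, f (ez (x : Ci)) = (fun θ : ℝ => f (circleMap 0 1 θ)) (2 * Real.pi * x) := by
    intro x
    simp only
    congr 1
    rw [ez, fourier_coe_apply, circleMap]
    push_cast
    rw [one_mul, zero_add]
    congr 1
    ring
  have e2 := intervalIntegral.integral_comp_mul_left (a := 0) (b := 0 + 1)
    (fun θ : ℝ => f (circleMap 0 1 θ)) (c := 2 * Real.pi) (by positivity)
  simp_rw [e1]
  rw [e2]
  simp

lemma mean_value {f : ℂ → ℂ} (hf : DiffContOnCl ℂ f (Metric.ball 0 1)) :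
    ∫ t : Ci, f (ez t) ∂haarAddCircle = f 0 := by
  rw [circ_int]
  have := DiffContOnCl.circleAverage (f := f) (c := 0) (R := 1) (by simpa using hf)
  exact this

lemma pow_sub_norm {a b : ℂ} {M : ℝ} (ha : ‖a‖ ≤ M) (hb : ‖b‖ ≤ M) (m : ℕ) :
    ‖a ^ (m + 1) - b ^ (m + 1)‖ ≤ (m + 1) * ‖a - b‖ * M ^ m := by
  have hM : 0 ≤ M := (norm_nonneg _).trans ha
  induction m with
  | zero => simp
  | succ m ih =>
    have e1 : a ^ (m + 1 + 1) - b ^ (m + 1 + 1) =
        a * (a ^ (m + 1) - b ^ (m + 1)) + (a - b) * b ^ (m + 1) := by ring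
    rw [e1]
    refine (norm_add_le _ _).trans ?_
    rw [norm_mul, norm_mul, norm_pow]
    have h1 : ‖b‖ ^ (m + 1) ≤ M ^ (m + 1) := pow_le_pow_left₀ (norm_nonneg _) hb _
    calc ‖a‖ * ‖a ^ (m + 1) - b ^ (m + 1)‖ + ‖a - b‖ * ‖b‖ ^ (m + 1)
        ≤ M * ((m + 1) * ‖a - b‖ * M ^ m) + ‖a - b‖ * M ^ (m + 1) := by gcongr
      _ = _ := by
        push_cast
        ring

/-- An elementary inequality. -/
lemma even_pow_le (n : ℕ) (z : ℂ) :
    ‖z‖ ^ (2 * (n + 1)) ≤ 2 * ((-1) ^ (n + 1) * (z ^ (2 * (n + 1))).re) +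
      3 * (12 * (n + 1)) ^ (2 * (n + 1)) * z.re ^ (2 * (n + 1)) := by
  obtain ⟨u, hu⟩ : ∃ u : ℂ, u = -Complex.I * z := ⟨_, rfl⟩
  have hzu : z = Complex.I * u := by
    rw [hu, ← mul_assoc]
    simp
  have hun : ‖u‖ = ‖z‖ := by
    rw [hu]
    simp
  have hz2 : z ^ (2 * (n + 1)) = (-1) ^ (n + 1) * u ^ (2 * (n + 1)) := by
    rw [hzu, mul_pow, pow_mul Complex.I, Complex.I_sq]
  have hre : (-1) ^ (n + 1) * (z ^ (2 * (n + 1))).re = (u ^ (2 * (n + 1))).re := by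
    rw [hz2]
    have e1 : ((-1 : ℂ)) ^ (n + 1) = (((-1 : ℝ) ^ (n + 1) : ℝ) : ℂ) := by push_cast; ring
    rw [e1, Complex.re_ofReal_mul, ← mul_assoc, ← mul_pow]
    simp
  have him : z.re ^ (2 * (n + 1)) = |u.im| ^ (2 * (n + 1)) := by
    have e1 : u.im = -z.re := by
      rw [hu]
      simp
    rw [e1, abs_neg, pow_mul, pow_mul, sq_abs]
  rw [hre, him, ← hun]
  set x := |u.im| with hx
  set R := ‖u‖ with hR
  have hx0 : 0 ≤ x := abs_nonneg _
  have hxR : x ≤ R := Complex.abs_im_le_norm u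
  have hR0 : 0 ≤ R := norm_nonneg _
  obtain ⟨m, hm⟩ : ∃ m, 2 * (n + 1) = m + 1 := ⟨2 * n + 1, by ring⟩
  rcases le_or_gt (12 * ((n : ℝ) + 1) * x) R with hc | hc
  · -- nearly real
    have h1 : ‖u ^ (m + 1) - ((u.re : ℝ) : ℂ) ^ (m + 1)‖ ≤ (m + 1) * x * R ^ m := by
      have h2 : ‖((u.re : ℝ) : ℂ)‖ ≤ R := by
        rw [Complex.norm_real, Real.norm_eq_abs]
        exact Complex.abs_re_le_norm u
      have h3 := pow_sub_norm (a := u) (b := ((u.re : ℝ) : ℂ)) (M := R) le_rfl h2 m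
      have h4 : ‖u - ((u.re : ℝ) : ℂ)‖ = x := by
        have : u - ((u.re : ℝ) : ℂ) = ((u.im : ℝ) : ℂ) * Complex.I := by
          apply Complex.ext <;> simp
        rw [this, norm_mul, Complex.norm_I, mul_one, Complex.norm_real, Real.norm_eq_abs]
      rwa [h4] at h3
    have h5 : R ^ (m + 1) ≤ |u.re| ^ (m + 1) + (m + 1) * x * R ^ m := by
      have h6 : R - x ≤ |u.re| := by
        have := Complex.norm_le_abs_re_add_abs_im u
        linarith
      have h7 := pow_sub_le (X := R) (y := R - x) (by linarith) (by linarith) m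
      have h8 : (R - x) ^ (m + 1) ≤ |u.re| ^ (m + 1) := pow_le_pow_left₀ (by linarith) h6 _
      have e1 : R - (R - x) = x := by ring
      rw [e1] at h7
      linarith
    have h9 : |u.re| ^ (m + 1) = (((u.re : ℝ) : ℂ) ^ (m + 1)).re := by
      rw [← Complex.ofReal_pow, Complex.ofReal_re, ← hm, pow_mul, pow_mul, sq_abs]
    have h10 : (((u.re : ℝ) : ℂ) ^ (m + 1)).re - (u ^ (m + 1)).re ≤ (m + 1) * x * R ^ m := by
      rw [← Complex.sub_re]
      refine (Complex.re_le_norm _).trans ?_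
      rw [norm_sub_rev]
      exact h1
    have h11 : 2 * ((m + 1 : ℝ) * x * R ^ m) * 2 ≤ R ^ (m + 1) := by
      have hm' : ((m : ℝ) + 1) = 2 * ((n : ℝ) + 1) := by
        have := congrArg (Nat.cast : ℕ → ℝ) hm
        push_cast at this
        linarith
      rw [hm', pow_succ R m]
      have h12 : 0 ≤ R ^ m := pow_nonneg hR0 m
      nlinarith
    have h13 : 0 ≤ 3 * (12 * ((n : ℝ) + 1)) ^ (m + 1) * x ^ (m + 1) := by positivity
    rw [hm]
    linarith
  · have h1 : R ^ (2 * (n + 1)) ≤ (12 * ((n : ℝ) + 1)) ^ (2 * (n + 1)) * x ^ (2 * (n + 1)) := by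
      rw [← mul_pow]
      exact pow_le_pow_left₀ hR0 hc.le _
    have h2 : -(R ^ (2 * (n + 1))) ≤ (u ^ (2 * (n + 1))).re := by
      have h3 := Complex.abs_re_le_norm (u ^ (2 * (n + 1)))
      rw [norm_pow] at h3
      exact (abs_le.1 h3).1
    linarith

section

variable {ρ : ℕ → ℝ} (h : Adm ρ)

/-- The sum of the normalised analytic kernels of the levels `a, …, b - 1`. -/
noncomputable def FF (a b : ℕ) : C(Ci, ℂ) :=
  ∑ k ∈ Ico a b, ((2 ^ k * ρ k : ℝ) : ℂ) • (⟨psi (2 ^ k) (wk ρ k),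
    cont_psi (wk_lt h k) (by positivity)⟩ : C(Ci, ℂ))

lemma FF_apply (a b : ℕ) (t : Ci) : FF h a b t =
    ∑ k ∈ Ico a b, ((2 ^ k * ρ k : ℝ) : ℂ) * psi (2 ^ k) (wk ρ k) t := by
  rw [FF, ContinuousMap.sum_apply]
  rfl

lemma FF_re (a b : ℕ) (t : Ci) : (FF h a b t).re =
    ((∑ k ∈ Ico a b, xk h k t) + ∑ k ∈ Ico a b, (2 : ℝ) ^ k * ρ k) / 2 := by
  rw [FF_apply, Complex.re_sum, ← sum_add_distrib, sum_div]
  refine sum_congr rfl fun k _ => ?_
  rw [Complex.re_ofReal_mul, xk_apply, poi]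
  ring

include h in
lemma FF_pow_int (a b : ℕ) (m : ℕ) : ∫ t, (FF h a b t) ^ m ∂haarAddCircle =
    ((∑ k ∈ Ico a b, (2 : ℝ) ^ k * ρ k : ℝ) : ℂ) ^ m := by
  have hne : ∀ k, ∀ z ∈ Metric.closedBall (0 : ℂ) 1, 1 - (wk ρ k * z) ^ (2 ^ k) ≠ 0 := by
    intro k z hz
    apply one_sub_ne'
    rw [norm_pow]
    apply pow_lt_one₀ (norm_nonneg _) _ (by positivity)
    rw [norm_mul]
    have h1 := wk_lt h k
    have h2 : ‖z‖ ≤ 1 := by simpa using hz
    nlinarith [norm_nonneg (wk ρ k), norm_nonneg z]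
  have hd : DifferentiableOn ℂ (fun z : ℂ => (∑ k ∈ Ico a b, ((2 ^ k * ρ k : ℝ) : ℂ) *
      (1 / (1 - (wk ρ k * z) ^ (2 ^ k)))) ^ m) (Metric.closedBall 0 1) := by
    apply DifferentiableOn.pow
    apply DifferentiableOn.fun_sum
    intro k _
    apply DifferentiableOn.const_mul
    apply DifferentiableOn.div (differentiableOn_const _) _ (hne k)
    fun_prop
  have hdc : DiffContOnCl ℂ (fun z : ℂ => (∑ k ∈ Ico a b, ((2 ^ k * ρ k : ℝ) : ℂ) *
      (1 / (1 - (wk ρ k * z) ^ (2 ^ k)))) ^ m) (Metric.ball 0 1) := by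
    apply DifferentiableOn.diffContOnCl
    rw [closure_ball _ one_ne_zero]
    exact hd
  have h1 := mean_value hdc
  simp only [mul_zero] at h1
  have h2 : ∀ k : ℕ, (0 : ℂ) ^ (2 ^ k) = 0 := fun k => zero_pow (by positivity)
  simp only [h2, sub_zero, div_one, mul_one] at h1
  have e1 : ∀ t, (FF h a b t) ^ m = (fun z : ℂ => (∑ k ∈ Ico a b, ((2 ^ k * ρ k : ℝ) : ℂ) *
      (1 / (1 - (wk ρ k * z) ^ (2 ^ k)))) ^ m) (ez t) := by
    intro t
    simp only
    rw [FF_apply]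
    rfl
  simp_rw [e1]
  rw [h1]
  push_cast
  rfl

/-- The constant in the moment bound. -/
noncomputable def KK (n : ℕ) : ℝ := 2 * (3 / 2) ^ (2 * (n + 1)) +
  3 * (12 * ((n : ℝ) + 1)) ^ (2 * (n + 1)) *
    ((2 * (n + 1)).factorial * (3 / 2 * (3 / 2 + 4) ^ (2 * n + 1)) + (3 / 2) ^ (2 * (n + 1)))

lemma KK_pos (n : ℕ) : 0 < KK n := by
  unfold KK
  positivity

lemma FF_moment (n : ℕ) {a b : ℕ} (hab : a ≤ b)
    (hL : ∑ k ∈ Ico a b, (2 : ℝ) ^ k * ρ k ≤ 3 / 2) :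
    ∫ t, ‖FF h a b t‖ ^ (2 * (n + 1)) ∂haarAddCircle ≤ KK n := by
  set L := ∑ k ∈ Ico a b, (2 : ℝ) ^ k * ρ k with hLd
  have hL0 : 0 ≤ L := sum_nonneg fun k _ => by
    have := h.pos k
    positivity
  have hpt : ∀ t, ‖FF h a b t‖ ^ (2 * (n + 1)) ≤
      2 * ((-1) ^ (n + 1) * ((FF h a b t) ^ (2 * (n + 1))).re) +
      3 * (12 * ((n : ℝ) + 1)) ^ (2 * (n + 1)) *
        ((∑ k ∈ Ico a b, xk h k t) ^ (2 * (n + 1)) + L ^ (2 * (n + 1))) := by
    intro t
    refine (even_pow_le n _).trans ?_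
    have h1 : (FF h a b t).re ^ (2 * (n + 1)) ≤
        (∑ k ∈ Ico a b, xk h k t) ^ (2 * (n + 1)) + L ^ (2 * (n + 1)) := by
      rw [FF_re, ← hLd]
      set B := ∑ k ∈ Ico a b, xk h k t with hB
      have hB0 : 0 ≤ B := sum_nonneg fun k _ => xk_nonneg h k t
      rcases le_total B L with hBL | hBL
      · calc ((B + L) / 2) ^ (2 * (n + 1)) ≤ L ^ (2 * (n + 1)) :=
              pow_le_pow_left₀ (by positivity) (by linarith) _
          _ ≤ _ := by
              have : 0 ≤ B ^ (2 * (n + 1)) := by positivity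
              linarith
      · calc ((B + L) / 2) ^ (2 * (n + 1)) ≤ B ^ (2 * (n + 1)) :=
              pow_le_pow_left₀ (by positivity) (by linarith) _
          _ ≤ _ := by
              have : 0 ≤ L ^ (2 * (n + 1)) := by positivity
              linarith
    have h2 : 0 ≤ 3 * (12 * ((n : ℝ) + 1)) ^ (2 * (n + 1)) := by positivity
    have := mul_le_mul_of_nonneg_left h1 h2
    linarith
  have hi1 : Integrable (fun t => ((FF h a b t) ^ (2 * (n + 1))).re) haarAddCircle :=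
    integR ⟨fun t => ((FF h a b t) ^ (2 * (n + 1))).re, by fun_prop⟩
  have hi2 : Integrable (fun t => (∑ k ∈ Ico a b, xk h k t) ^ (2 * (n + 1))) haarAddCircle :=
    integR ⟨fun t => (∑ k ∈ Ico a b, xk h k t) ^ (2 * (n + 1)), by fun_prop⟩
  have h3 : ∫ t, ‖FF h a b t‖ ^ (2 * (n + 1)) ∂haarAddCircle ≤
      ∫ t, (2 * ((-1) ^ (n + 1) * ((FF h a b t) ^ (2 * (n + 1))).re) +
      3 * (12 * ((n : ℝ) + 1)) ^ (2 * (n + 1)) *
        ((∑ k ∈ Ico a b, xk h k t) ^ (2 * (n + 1)) + L ^ (2 * (n + 1)))) ∂haarAddCircle := by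
    refine integral_mono ?_ ?_ hpt
    · exact integR ⟨fun t => ‖FF h a b t‖ ^ (2 * (n + 1)), by fun_prop⟩
    · exact ((hi1.const_mul _).const_mul _).add ((hi2.add (integrable_const _)).const_mul _)
  refine h3.trans ?_
  have hg1 : Integrable (fun t => 2 * ((-1) ^ (n + 1) * ((FF h a b t) ^ (2 * (n + 1))).re))
      haarAddCircle := (hi1.const_mul _).const_mul _
  have hg3 : Integrable (fun t => (∑ k ∈ Ico a b, xk h k t) ^ (2 * (n + 1)) + L ^ (2 * (n + 1)))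
      haarAddCircle := hi2.add (integrable_const _)
  have hg2 : Integrable (fun t => 3 * (12 * ((n : ℝ) + 1)) ^ (2 * (n + 1)) *
        ((∑ k ∈ Ico a b, xk h k t) ^ (2 * (n + 1)) + L ^ (2 * (n + 1)))) haarAddCircle :=
    hg3.const_mul _
  rw [integral_add hg1 hg2, integral_const_mul, integral_const_mul, integral_const_mul,
    integral_add hi2 (integrable_const _)]
  have h4 : ∫ t, ((FF h a b t) ^ (2 * (n + 1))).re ∂haarAddCircle = L ^ (2 * (n + 1)) := by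
    have h5 : Integrable (fun t => (FF h a b t) ^ (2 * (n + 1))) haarAddCircle :=
      integC ⟨fun t => (FF h a b t) ^ (2 * (n + 1)), by fun_prop⟩
    have h6 := integral_re h5
    simp only [RCLike.re_to_complex] at h6
    rw [h6, FF_pow_int, ← Complex.ofReal_pow, Complex.ofReal_re]
  have h7 := moment h a b hab (2 * n + 1)
  rw [← hLd] at h7
  have e1 : 2 * n + 1 + 1 = 2 * (n + 1) := by ring
  rw [e1] at h7
  have h8 : L ^ (2 * (n + 1)) ≤ (3 / 2) ^ (2 * (n + 1)) := pow_le_pow_left₀ hL0 hL _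
  have h9 : L * (L + 4) ^ (2 * n + 1) ≤ 3 / 2 * (3 / 2 + 4) ^ (2 * n + 1) := by gcongr
  have h10 : ((2 * (n + 1)).factorial : ℝ) * (L * (L + 4) ^ (2 * n + 1)) ≤
      (2 * (n + 1)).factorial * (3 / 2 * (3 / 2 + 4) ^ (2 * n + 1)) :=
    mul_le_mul_of_nonneg_left h9 (by positivity)
  rw [h4]
  have h11 : (-1 : ℝ) ^ (n + 1) * L ^ (2 * (n + 1)) ≤ (3 / 2) ^ (2 * (n + 1)) := by
    refine le_trans ?_ h8
    have h12 : (-1 : ℝ) ^ (n + 1) ≤ 1 := by
      rcases neg_one_pow_eq_or ℝ (n + 1) with h13 | h13 <;> rw [h13] <;> norm_num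
    have : 0 ≤ L ^ (2 * (n + 1)) := by positivity
    nlinarith
  unfold KK
  have h14 : ∫ _t : Ci, L ^ (2 * (n + 1)) ∂haarAddCircle = L ^ (2 * (n + 1)) := by simp
  rw [h14]
  have h15 : 0 ≤ 3 * (12 * ((n : ℝ) + 1)) ^ (2 * (n + 1)) := by positivity
  have h16 := mul_le_mul_of_nonneg_left (add_le_add (h7.trans h10) h8) h15
  linarith

/-- The factor. -/
noncomputable def tn (n : ℕ) : ℝ := 1 / (2 * (KK n + 1))

lemma tn_pos (n : ℕ) : 0 < tn n := by
  have := KK_pos n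
  unfold tn
  positivity

lemma tn_le (n : ℕ) : tn n ≤ 1 / 2 := by
  have := KK_pos n
  unfold tn
  rw [div_le_div_iff₀ (by positivity) (by norm_num)]
  linarith

lemma tn_KK (n : ℕ) : tn n * KK n ≤ 1 / 2 := by
  have := KK_pos n
  unfold tn
  rw [div_mul_eq_mul_div, one_mul, div_le_div_iff₀ (by positivity) (by norm_num)]
  linarith

/-- The residual function has small moment. -/
lemma resid_moment (n : ℕ) {a b : ℕ} (hab : a ≤ b)
    (hL1 : 1 ≤ ∑ k ∈ Ico a b, (2 : ℝ) ^ k * ρ k)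
    (hL : ∑ k ∈ Ico a b, (2 : ℝ) ^ k * ρ k ≤ 3 / 2) :
    ∫ t, ‖1 - (tn n : ℂ) * FF h a b t‖ ^ (2 * (n + 1)) ∂haarAddCircle ≤ 1 - tn n / 2 := by
  set τ := tn n with hτ
  have hτ0 : 0 < τ := tn_pos n
  have hτ1 : τ ≤ 1 / 2 := tn_le n
  have hpt : ∀ t, ‖1 - (τ : ℂ) * FF h a b t‖ ^ (2 * (n + 1)) ≤
      (1 - τ) + τ * (τ * ‖FF h a b t‖ ^ (2 * (n + 1))) := by
    intro t
    set f := FF h a b t with hf
    have hre : 1 / 2 ≤ f.re := by
      rw [hf, FF_re]
      have : 0 ≤ ∑ k ∈ Ico a b, xk h k t := sum_nonneg fun k _ => xk_nonneg h k t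
      linarith
    have h1 : ‖1 - (τ : ℂ) * f‖ ^ 2 ≤ (1 - τ) + τ * (τ * ‖f‖ ^ 2) := by
      rw [Complex.sq_norm, Complex.sq_norm]
      simp only [Complex.normSq_apply, Complex.sub_re, Complex.sub_im, Complex.mul_re,
        Complex.mul_im, Complex.ofReal_re, Complex.ofReal_im, Complex.one_re, Complex.one_im]
      nlinarith
    have h2 : ((1 - τ) + τ * (τ * ‖f‖ ^ 2)) ^ (n + 1) ≤
        (1 - τ) + τ * (τ * ‖f‖ ^ 2) ^ (n + 1) := by
      have hcv : ConvexOn ℝ (Set.Ici 0) fun x : ℝ => x ^ (n + 1) := convexOn_pow (n + 1)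
      have hX : τ * ‖f‖ ^ 2 ∈ Set.Ici (0 : ℝ) := by
        simp only [Set.mem_Ici]
        positivity
      have h1X : (1 : ℝ) ∈ Set.Ici (0 : ℝ) := by simp
      have := hcv.2 h1X hX (by linarith : 0 ≤ 1 - τ) hτ0.le (by ring)
      simp only [smul_eq_mul, mul_one, one_pow] at this
      exact this
    have h3 : (τ * ‖f‖ ^ 2) ^ (n + 1) ≤ τ * ‖f‖ ^ (2 * (n + 1)) := by
      rw [mul_pow, ← pow_mul]
      have h4 : τ ^ (n + 1) ≤ τ := by
        rw [pow_succ]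
        exact mul_le_of_le_one_left hτ0.le (pow_le_one₀ hτ0.le (by linarith))
      gcongr
    calc ‖1 - (τ : ℂ) * f‖ ^ (2 * (n + 1)) = (‖1 - (τ : ℂ) * f‖ ^ 2) ^ (n + 1) := by rw [pow_mul]
      _ ≤ ((1 - τ) + τ * (τ * ‖f‖ ^ 2)) ^ (n + 1) := pow_le_pow_left₀ (by positivity) h1 _
      _ ≤ _ := h2
      _ ≤ _ := by gcongr
  have hi : Integrable (fun t => ‖FF h a b t‖ ^ (2 * (n + 1))) haarAddCircle :=
    integR ⟨fun t => ‖FF h a b t‖ ^ (2 * (n + 1)), by fun_prop⟩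
  have h5 : ∫ t, ‖1 - (τ : ℂ) * FF h a b t‖ ^ (2 * (n + 1)) ∂haarAddCircle ≤
      ∫ t, ((1 - τ) + τ * (τ * ‖FF h a b t‖ ^ (2 * (n + 1)))) ∂haarAddCircle := by
    refine integral_mono ?_ ((integrable_const _).add ((hi.const_mul _).const_mul _)) hpt
    exact integR ⟨fun t => ‖1 - (τ : ℂ) * FF h a b t‖ ^ (2 * (n + 1)), by fun_prop⟩
  refine h5.trans ?_
  have hg : Integrable (fun t => τ * (τ * ‖FF h a b t‖ ^ (2 * (n + 1)))) haarAddCircle :=
    (hi.const_mul _).const_mul _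
  rw [integral_add (integrable_const _) hg, integral_const_mul, integral_const_mul]
  have h6 := FF_moment h n hab hL
  have h7 := tn_KK n
  rw [← hτ] at h7
  have h8 : ∫ _t : Ci, (1 - τ) ∂haarAddCircle = 1 - τ := by simp
  rw [h8]
  have h9 : τ * ∫ t, ‖FF h a b t‖ ^ (2 * (n + 1)) ∂haarAddCircle ≤ 1 / 2 :=
    (mul_le_mul_of_nonneg_left h6 hτ0.le).trans h7
  nlinarith

end

end Pool.Agent.Y242.CK
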