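import Mathlib

set_option autoImplicit false

/-!
# Averages over equally spaced translates on the circle
-/

namespace Pool.Agent.Y242.CK

open Finset Filter Topology MeasureTheory AddCircle

/-- The circle. -/
abbrev Ci : Type := AddCircle (1 : ℝ)

/-- The point `l / N` of the circle. -/
noncomputable def fr (N l : ℕ) : Ci := (((l : ℝ) / N : ℝ) : Ci)

/-- The average over `N` equally spaced translates. -/
noncomputable def avg {V : Type*} [AddCommMonoid V] [SMul ℝ V] (N : ℕ) (H : Ci → V) (t : Ci) : V :=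
  (1 / (N : ℝ)) • ∑ l ∈ range N, H (t + fr N l)

lemma fourier_fr {N : ℕ} (hN : 0 < N) (n : ℤ) (l : ℕ) :
    (fourier n (fr N l) : ℂ) = (Complex.exp (2 * Real.pi * Complex.I * n / N)) ^ l := by
  rw [fr, fourier_coe_apply, ← Complex.exp_nat_mul]
  congr 1
  have : (N : ℂ) ≠ 0 := by exact_mod_cast hN.ne'
  push_cast
  field_simp

lemma fourier_add_arg (n : ℤ) (x y : Ci) :
    (fourier n (x + y) : ℂ) = fourier n x * fourier n y := by
  rw [fourier_apply, fourier_apply, fourier_apply, smul_add, toCircle_add, Circle.coe_mul]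

lemma avg_fourier {N : ℕ} (hN : 0 < N) {n : ℤ} (hn : n ≠ 0) (hnN : n.natAbs < N) (t : Ci) :
    avg N (fun t => (fourier n t : ℂ)) t = 0 := by
  have h1 : ∀ l, (fourier n (t + fr N l) : ℂ) = fourier n t *
      (Complex.exp (2 * Real.pi * Complex.I * n / N)) ^ l := by
    intro l
    rw [← fourier_fr hN, fourier_add_arg]
  rw [avg]
  simp_rw [h1]
  rw [← mul_sum]
  have hz : Complex.exp (2 * Real.pi * Complex.I * n / N) ≠ 1 := by
    intro h
    rw [Complex.exp_eq_one_iff] at h
    obtain ⟨m, hm⟩ := h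
    have h2 : (N : ℂ) ≠ 0 := by exact_mod_cast hN.ne'
    have h3 : (2 * Real.pi * Complex.I : ℂ) ≠ 0 := Complex.two_pi_I_ne_zero
    have h4 : (n : ℂ) = m * N := by
      field_simp at hm
      have := mul_left_cancel₀ h3 (by linear_combination (2 * Real.pi * Complex.I) * hm :
        (2 * Real.pi * Complex.I : ℂ) * n = (2 * Real.pi * Complex.I) * (m * N))
      exact this
    have h5 : n = m * N := by exact_mod_cast h4
    have h6 : m ≠ 0 := by
      rintro rfl
      exact hn (by simpa using h5)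
    have h7 : n.natAbs = m.natAbs * N := by
      rw [h5, Int.natAbs_mul, Int.natAbs_natCast]
    have h8 : 1 ≤ m.natAbs := Nat.one_le_iff_ne_zero.2 (Int.natAbs_ne_zero.2 h6)
    nlinarith
  have hzN : Complex.exp (2 * Real.pi * Complex.I * n / N) ^ N = 1 := by
    rw [← Complex.exp_nat_mul]
    have h2 : (N : ℂ) ≠ 0 := by exact_mod_cast hN.ne'
    rw [Complex.exp_eq_one_iff]
    exact ⟨n, by field_simp⟩
  have h9 := geom_sum_mul (Complex.exp (2 * Real.pi * Complex.I * n / N)) N
  rw [hzN, sub_self] at h9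
  rw [(mul_eq_zero.1 h9).resolve_right (sub_ne_zero.2 hz), mul_zero, smul_zero]

lemma avg_norm_sub {N : ℕ} (hN : 0 < N) (H H' : C(Ci, ℂ)) (t : Ci) :
    ‖avg N H t - avg N H' t‖ ≤ ‖H - H'‖ := by
  rw [avg, avg, ← smul_sub, ← sum_sub_distrib, norm_smul]
  have hN' : (0 : ℝ) < N := by exact_mod_cast hN
  have h1 : ‖∑ l ∈ range N, (H (t + fr N l) - H' (t + fr N l))‖ ≤ ∑ _l ∈ range N, ‖H - H'‖ := by
    refine (norm_sum_le _ _).trans (sum_le_sum fun l _ => ?_)
    exact ContinuousMap.norm_coe_le_norm (H - H') _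
  rw [sum_const, card_range, nsmul_eq_mul] at h1
  rw [Real.norm_eq_abs, abs_of_pos (by positivity)]
  calc 1 / (N : ℝ) * ‖∑ l ∈ range N, (H (t + fr N l) - H' (t + fr N l))‖
      ≤ 1 / (N : ℝ) * (N * ‖H - H'‖) := by gcongr
    _ = ‖H - H'‖ := by field_simp

/-- The averages converge uniformly to the integral. -/
def Good (H : C(Ci, ℂ)) : Prop :=
  ∀ ε > (0 : ℝ), ∃ N₁ : ℕ, 0 < N₁ ∧ ∀ N ≥ N₁, ∀ t, ‖avg N H t - ∫ s, H s ∂haarAddCircle‖ ≤ ε

lemma integ (H : C(Ci, ℂ)) : Integrable H haarAddCircle :=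
  H.continuous.integrable_of_hasCompactSupport (HasCompactSupport.of_compactSpace _)

lemma good_fourier (n : ℤ) : Good (fourier n) := by
  intro ε hε
  by_cases hn : n = 0
  · refine ⟨1, one_pos, fun N hN t => ?_⟩
    have hN' : (N : ℝ) ≠ 0 := by
      have : 0 < N := hN
      positivity
    have h1 : avg N (fourier n : C(Ci, ℂ)) t = 1 := by
      rw [avg, hn]
      simp only [fourier_zero, sum_const, card_range, nsmul_eq_mul, mul_one]
      rw [Complex.real_smul]
      push_cast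
      have : (N : ℂ) ≠ 0 := by exact_mod_cast hN'
      field_simp
    have h2 : ∫ s : Ci, (fourier n : C(Ci, ℂ)) s ∂haarAddCircle = 1 := by
      rw [hn]
      simp only [fourier_zero]
      simp
    rw [h1, h2, sub_self, norm_zero]
    exact hε.le
  · refine ⟨n.natAbs + 1, Nat.succ_pos _, fun N hN t => ?_⟩
    have h1 : avg N (fourier n : C(Ci, ℂ)) t = 0 := avg_fourier (by omega) hn (by omega) t
    have h2 : ∫ s : Ci, (fourier n : C(Ci, ℂ)) s ∂haarAddCircle = 0 := by
      have h3 := fourierCoeff_fourier (T := (1 : ℝ)) n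
      have h4 := congrFun h3 0
      rw [fourierCoeff] at h4
      simp only [neg_zero, fourier_zero, one_smul, Pi.single_apply] at h4
      rw [h4, if_neg (Ne.symm hn)]
    rw [h1, h2, sub_self, norm_zero]
    exact hε.le

lemma good_add {H H' : C(Ci, ℂ)} (h : Good H) (h' : Good H') : Good (H + H') := by
  intro ε hε
  obtain ⟨N₁, h1, h2⟩ := h (ε / 2) (by positivity)
  obtain ⟨N₂, h3, h4⟩ := h' (ε / 2) (by positivity)
  refine ⟨max N₁ N₂, lt_max_of_lt_left h1, fun N hN t => ?_⟩
  have e1 : avg N (H + H' : C(Ci, ℂ)) t = avg N H t + avg N H' t := by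
    rw [avg, avg, avg, ← smul_add, ← sum_add_distrib]
    rfl
  have e2 : ∫ s, (H + H' : C(Ci, ℂ)) s ∂haarAddCircle =
      ∫ s, H s ∂haarAddCircle + ∫ s, H' s ∂haarAddCircle := integral_add (integ H) (integ H')
  rw [e1, e2]
  have h5 := h2 N ((le_max_left _ _).trans hN) t
  have h6 := h4 N ((le_max_right _ _).trans hN) t
  calc ‖avg N H t + avg N H' t - (∫ s, H s ∂haarAddCircle + ∫ s, H' s ∂haarAddCircle)‖
      = ‖(avg N H t - ∫ s, H s ∂haarAddCircle) + (avg N H' t - ∫ s, H' s ∂haarAddCircle)‖ := by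
        congr 1
        ring
    _ ≤ ε / 2 + ε / 2 := (norm_add_le _ _).trans (add_le_add h5 h6)
    _ = ε := by ring

lemma good_smul (c : ℂ) {H : C(Ci, ℂ)} (h : Good H) : Good (c • H) := by
  intro ε hε
  obtain ⟨N₁, h1, h2⟩ := h (ε / (‖c‖ + 1)) (by positivity)
  refine ⟨N₁, h1, fun N hN t => ?_⟩
  have e1 : avg N (c • H : C(Ci, ℂ)) t = c * avg N H t := by
    rw [avg, avg, mul_smul_comm, mul_sum]
    rfl
  have e2 : ∫ s, (c • H : C(Ci, ℂ)) s ∂haarAddCircle = c * ∫ s, H s ∂haarAddCircle :=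
    integral_const_mul c _
  rw [e1, e2, ← mul_sub, norm_mul]
  have h5 := h2 N hN t
  calc ‖c‖ * ‖avg N H t - ∫ s, H s ∂haarAddCircle‖ ≤ (‖c‖ + 1) * (ε / (‖c‖ + 1)) := by
        gcongr
        linarith
    _ = ε := by field_simp

lemma good_all (H : C(Ci, ℂ)) : Good H := by
  have hspan : ∀ H' ∈ Submodule.span ℂ (Set.range (@fourier (1 : ℝ))), Good H' := by
    intro H' hH'
    induction hH' using Submodule.span_induction with
    | mem x hx =>
      obtain ⟨n, rfl⟩ := hx
      exact good_fourier n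
    | zero =>
      intro ε hε
      refine ⟨1, one_pos, fun N hN t => ?_⟩
      have e1 : avg N (0 : C(Ci, ℂ)) t = 0 := by
        rw [avg]
        simp
      rw [e1]
      simp [hε.le]
    | add x y _ _ hx hy => exact good_add hx hy
    | smul c x _ hx => exact good_smul c hx
  intro ε hε
  have hmem : H ∈ closure (Submodule.span ℂ (Set.range (@fourier (1 : ℝ))) : Set C(Ci, ℂ)) := by
    have h1 : H ∈ (Submodule.span ℂ (Set.range (@fourier (1 : ℝ)))).topologicalClosure := by
      rw [span_fourier_closure_eq_top]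
      trivial
    exact h1
  obtain ⟨H', hH', hd⟩ := Metric.mem_closure_iff.1 hmem (ε / 3) (by positivity)
  obtain ⟨N₁, h1, h2⟩ := hspan H' hH' (ε / 3) (by positivity)
  refine ⟨N₁, h1, fun N hN t => ?_⟩
  have h3 := avg_norm_sub (by omega : 0 < N) H H' t
  have h4 := h2 N hN t
  have h5 : ‖∫ s, H' s ∂haarAddCircle - ∫ s, H s ∂haarAddCircle‖ ≤ ‖H - H'‖ := by
    rw [← integral_sub (integ H') (integ H)]
    refine (norm_integral_le_of_norm_le_const (C := ‖H - H'‖) (Eventually.of_forall fun s => ?_)).trans ?_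
    · rw [norm_sub_rev]
      exact ContinuousMap.norm_coe_le_norm (H - H') s
    · simp
  rw [dist_eq_norm] at hd
  have h6 : avg N H t - ∫ s, H s ∂haarAddCircle = (avg N H t - avg N H' t) +
      (avg N H' t - ∫ s, H' s ∂haarAddCircle) +
      (∫ s, H' s ∂haarAddCircle - ∫ s, H s ∂haarAddCircle) := by ring
  rw [h6]
  refine (norm_add₃_le).trans ?_
  linarith

/-- Real valued version. -/
lemma good_real (H : C(Ci, ℝ)) : ∀ ε > (0 : ℝ), ∃ N₁ : ℕ, 0 < N₁ ∧ ∀ N ≥ N₁, ∀ t,
    avg N H t ≤ ∫ s, H s ∂haarAddCircle + ε := by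
  intro ε hε
  set HC : C(Ci, ℂ) := ⟨fun t => (H t : ℂ), Complex.continuous_ofReal.comp H.continuous⟩ with hHC
  obtain ⟨N₁, h1, h2⟩ := good_all HC ε hε
  refine ⟨N₁, h1, fun N hN t => ?_⟩
  have h3 := h2 N hN t
  have e1 : avg N HC t = ((avg N H t : ℝ) : ℂ) := by
    rw [avg, avg]
    simp [hHC]
  have e2 : ∫ s, HC s ∂haarAddCircle = ((∫ s, H s ∂haarAddCircle : ℝ) : ℂ) :=
    integral_ofReal (𝕜 := ℂ) (f := fun s => H s)
  rw [e1, e2, ← Complex.ofReal_sub, Complex.norm_real, Real.norm_eq_abs] at h3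
  have := (abs_le.1 h3).2
  linarith

/-- Integrals of products with a periodic factor. -/
lemma integral_mul_avg {N : ℕ} (hN : 0 < N) (H K : C(Ci, ℝ))
    (hK : ∀ t l, K (t + fr N l) = K t) :
    ∫ t, H t * K t ∂haarAddCircle = ∫ t, avg N H t * K t ∂haarAddCircle := by
  have hN' : (N : ℝ) ≠ 0 := by positivity
  have hint : ∀ F : C(Ci, ℝ), Integrable F haarAddCircle := fun F =>
    F.continuous.integrable_of_hasCompactSupport (HasCompactSupport.of_compactSpace _)
  have h1 : ∀ l, ∫ t, H (t + fr N l) * K t ∂haarAddCircle = ∫ t, H t * K t ∂haarAddCircle := by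
    intro l
    have := integral_add_right_eq_self (μ := haarAddCircle) (fun t => H t * K t) (fr N l)
    rw [← this]
    refine integral_congr_ae (Eventually.of_forall fun t => ?_)
    simp only
    rw [hK]
  have h2 : ∀ t, avg N H t * K t = (1 / (N : ℝ)) * ∑ l ∈ range N, H (t + fr N l) * K t := by
    intro t
    rw [avg, smul_eq_mul, mul_assoc, sum_mul]
  simp_rw [h2]
  rw [integral_const_mul, integral_finsetSum]
  · simp_rw [h1]
    rw [sum_const, card_range, nsmul_eq_mul]
    field_simp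
  · intro l _
    exact hint ((H.comp ⟨fun t => t + fr N l, by fun_prop⟩) * K)

/-- **Decorrelation.** -/
lemma decor (H : C(Ci, ℝ)) {ε : ℝ} (hε : 0 < ε) : ∃ N₁ : ℕ, 0 < N₁ ∧ ∀ N ≥ N₁,
    ∀ K : C(Ci, ℝ), (∀ t, 0 ≤ K t) → (∀ t l, K (t + fr N l) = K t) →
      ∫ t, H t * K t ∂haarAddCircle ≤
        (∫ t, H t ∂haarAddCircle + ε) * ∫ t, K t ∂haarAddCircle := by
  obtain ⟨N₁, h1, h2⟩ := good_real H ε hε
  refine ⟨N₁, h1, fun N hN K hK0 hK => ?_⟩
  have hN0 : 0 < N := by omega
  have hint : ∀ F : C(Ci, ℝ), Integrable F haarAddCircle := fun F =>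
    F.continuous.integrable_of_hasCompactSupport (HasCompactSupport.of_compactSpace _)
  rw [integral_mul_avg hN0 H K hK, ← integral_const_mul]
  refine integral_mono ?_ ((hint K).const_mul _) fun t => ?_
  · have hc : Continuous fun t => avg N H t * K t := by
      unfold avg
      fun_prop
    exact hint ⟨_, hc⟩
  · exact mul_le_mul_of_nonneg_right (h2 N hN t) (hK0 t)

end Pool.Agent.Y242.CK
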