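import Pool.Agent.Y242.CK.Lev

set_option autoImplicit false

/-!
# Inner products of levels and blocks of levels
-/

namespace Pool.Agent.Y242.CK

open Finset ComplexConjugate

variable {N N' N0 : ℕ} {w w' : ℂ} {ρ ρ' : ℝ} {g : ℕ → ℂ}

/-- The inner product of two full levels. -/
lemma inner_le (hN : 0 < N) (hw : IsPrimitiveRoot w N) (h0 : 0 < ρ) (h1 : ρ < 1)
    (hN' : 0 < N') (hw' : IsPrimitiveRoot w' N') (h0' : 0 < ρ') (h1' : ρ' < 1)
    (hN0 : N0 ≤ N) (hg : ∀ a, N0 ≤ a → g a = 0) (hdvd : N ∣ N') :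
    ‖(inner ℂ (PV g N0 ρ w N) (PV g N0 ρ' w' N'))‖ ≤
      ((N * ρ) * (N' * ρ') + N * ρ') * sq g N0 := by
  have hle : N ≤ N' := Nat.le_of_dvd hN' hdvd
  have hN0' : N0 ≤ N' := hN0.trans hle
  set h : ℕ → ℝ := fun a => ‖g a‖ ^ 2 with hh
  have hr0 : 0 ≤ 1 - ρ := by linarith
  have hr1 : 1 - ρ < 1 := by linarith
  have hr0' : 0 ≤ 1 - ρ' := by linarith
  have hr1' : 1 - ρ' < 1 := by linarith
  have hNr : (0 : ℝ) < N := by exact_mod_cast hN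
  have hNr' : (0 : ℝ) < N' := by exact_mod_cast hN'
  obtain ⟨hs1, hs2⟩ := sum_res hN' hr0 hr1 h (fun m => by positivity)
  have hpt : ∀ n, ‖(inner ℂ ((PV g N0 ρ w N : E) n) ((PV g N0 ρ' w' N' : E) n))‖ ≤
      ((N * ρ) * (N' * ρ')) * (h (n % N') * (1 - ρ) ^ n) := by
    intro n
    refine (norm_inner_le_norm _ _).trans ?_
    rw [full_apply hN hw h0 h1 hN0 hg, full_apply hN' hw' h0' h1' hN0' hg, norm_mul, norm_mul,
      Complex.norm_real, Complex.norm_real, Real.norm_eq_abs, Real.norm_eq_abs,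
      abs_of_nonneg (by positivity), abs_of_nonneg (by positivity)]
    by_cases hn : n % N' < N0
    · have e1 : n % N = n % N' := by
        rw [← Nat.mod_mod_of_dvd n hdvd, Nat.mod_eq_of_lt (lt_of_lt_of_le hn hN0)]
      rw [e1, hh]
      simp only
      have e2 : (1 - ρ) ^ (n + n % N') ≤ (1 - ρ) ^ n :=
        pow_le_pow_of_le_one hr0 hr1.le (Nat.le_add_right _ _)
      have e3 : (1 - ρ') ^ (n + n % N') ≤ 1 := pow_le_one₀ hr0' hr1'.le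
      calc (N : ℝ) * ρ * (1 - ρ) ^ (n + n % N') * ‖g (n % N')‖ *
            (N' * ρ' * (1 - ρ') ^ (n + n % N') * ‖g (n % N')‖)
          ≤ (N : ℝ) * ρ * (1 - ρ) ^ n * ‖g (n % N')‖ * (N' * ρ' * 1 * ‖g (n % N')‖) := by
            gcongr
        _ = _ := by ring
    · rw [hg (n % N') (not_lt.1 hn), norm_zero, mul_zero, mul_zero]
      positivity
  have hsm : Summable fun n => ‖(inner ℂ ((PV g N0 ρ w N : E) n) ((PV g N0 ρ' w' N' : E) n))‖ :=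
    Summable.of_nonneg_of_le (fun _ => norm_nonneg _) hpt (hs1.mul_left _)
  rw [lp.inner_eq_tsum]
  refine (norm_tsum_le_tsum_norm hsm).trans ?_
  refine (hsm.tsum_le_tsum hpt (hs1.mul_left _)).trans ?_
  rw [tsum_mul_left]
  have hp := pow_le h0 h1 N'
  have hx : 0 < 1 - (1 - ρ) ^ N' := by
    have : (1 - ρ) ^ N' < 1 := pow_lt_one₀ hr0 hr1 hN'.ne'
    linarith
  have hS : ∑ a ∈ range N', h a = sq g N0 := (sq_eq hN0' hg).symm
  rw [hS] at hs2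
  have hsq := sq_nonneg' g N0
  have hpos : 0 < (N' : ℝ) * ρ := by positivity
  have hinv : 1 / (1 - (1 - ρ) ^ N') ≤ 1 + 1 / (N' * ρ) := by
    rw [div_le_iff₀ hx]
    set x := (1 - ρ) ^ N' with hxd
    have hx0 : 0 ≤ x := by positivity
    have : 1 ≤ (1 + N' * ρ) * (1 - x) / (N' * ρ) := by
      rw [le_div_iff₀ hpos]
      nlinarith
    calc (1 : ℝ) ≤ (1 + N' * ρ) * (1 - x) / (N' * ρ) := this
      _ = (1 + 1 / (N' * ρ)) * (1 - x) := by field_simp; ring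
  calc (N : ℝ) * ρ * (N' * ρ') * ∑' n, h (n % N') * (1 - ρ) ^ n
      ≤ (N : ℝ) * ρ * (N' * ρ') * (sq g N0 / (1 - (1 - ρ) ^ N')) := by gcongr
    _ = (N : ℝ) * ρ * (N' * ρ') * sq g N0 * (1 / (1 - (1 - ρ) ^ N')) := by ring
    _ ≤ (N : ℝ) * ρ * (N' * ρ') * sq g N0 * (1 + 1 / (N' * ρ)) := by gcongr
    _ = _ := by field_simp

/-- The inner product of a polynomial and a full level. -/
lemma inner_ge (hN : 0 < N) (hw : IsPrimitiveRoot w N) (h0 : 0 < ρ) (h1 : ρ < 1)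
    (hN0 : N0 ≤ N) (hg : ∀ a, N0 ≤ a → g a = 0) (hδ : 4 * (N0 : ℝ) * ρ ≤ 1)
    (G : E) (hG : ∀ n, G n = g n) :
    (N * ρ) / 2 * sq g N0 ≤ RCLike.re (inner ℂ (G) (PV g N0 ρ w N)) := by
  have hr0 : 0 ≤ 1 - ρ := by linarith
  have hNr : (0 : ℝ) < N := by exact_mod_cast hN
  rw [lp.inner_eq_tsum]
  have e1 : ∀ n, (inner ℂ (G n) ((PV g N0 ρ w N : E) n)) =
      (((N * ρ * (1 - ρ) ^ (n + n % N) : ℝ) : ℂ) * g (n % N)) * conj (g n) := by
    intro n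
    rw [full_apply hN hw h0 h1 hN0 hg, hG]
    rfl
  simp_rw [e1]
  rw [tsum_eq_sum (s := range N0) (fun n hn => by
    rw [hg n (by simpa using hn), map_zero, mul_zero])]
  have e2 : ∀ n ∈ range N0, (((N * ρ * (1 - ρ) ^ (n + n % N) : ℝ) : ℂ) * g (n % N)) * conj (g n) =
      ((N * ρ * (1 - ρ) ^ (n + n) * ‖g n‖ ^ 2 : ℝ) : ℂ) := by
    intro n hn
    have hn' : n < N := lt_of_lt_of_le (mem_range.1 hn) hN0
    rw [Nat.mod_eq_of_lt hn', mul_assoc, Complex.mul_conj']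
    push_cast
    ring
  rw [sum_congr rfl e2, ← Complex.ofReal_sum]
  have e3 : RCLike.re ((∑ n ∈ range N0, (N * ρ * (1 - ρ) ^ (n + n) * ‖g n‖ ^ 2) : ℝ) : ℂ) =
      ∑ n ∈ range N0, (N * ρ * (1 - ρ) ^ (n + n) * ‖g n‖ ^ 2) := Complex.ofReal_re _
  rw [e3, sq, mul_sum]
  refine sum_le_sum fun n hn => ?_
  have hn' : (n : ℝ) ≤ N0 := by exact_mod_cast (mem_range.1 hn).le
  have e4 : 1 / 2 ≤ (1 - ρ) ^ (n + n) := by
    have := one_add_mul_le_pow (a := -ρ) (by linarith) (n + n)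
    push_cast at this
    have h3 : (n : ℝ) * ρ ≤ N0 * ρ := mul_le_mul_of_nonneg_right hn' h0.le
    have h4 : (1 + -ρ) = 1 - ρ := by ring
    rw [h4] at this
    nlinarith
  calc (N : ℝ) * ρ / 2 * ‖g n‖ ^ 2 = N * ρ * (1 / 2) * ‖g n‖ ^ 2 := by ring
    _ ≤ N * ρ * (1 - ρ) ^ (n + n) * ‖g n‖ ^ 2 := by gcongr

end Pool.Agent.Y242.CK
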