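import Pool.Agent.Y242.CK.VdC

set_option autoImplicit false

/-!
# Sums of kernels over cosets and their norms
-/

namespace Pool.Agent.Y242.CK

open Finset MeasureTheory AddCircle ComplexConjugate
open Pool.Agent.H155R3 (DD cker cker_apply muT polyT polyT_apply)
open scoped ENNReal

/-- The Cauchy kernel, extended by zero. -/
noncomputable def kr (lam : ℂ) : C(Ci, ℂ) := if h : ‖lam‖ < 1 then cker ⟨lam, h⟩ else 0

lemma kr_apply {lam : ℂ} (h : ‖lam‖ < 1) (t : Ci) : kr lam t = (1 - conj lam * ez t)⁻¹ := by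
  rw [kr, dif_pos h, cker_apply]
  rfl

/-- The point at distance `r` from the circle with angle `x`. -/
noncomputable def qt (r : ℝ) (x : ℝ) : ℂ := ((1 - r : ℝ) : ℂ) * e2 x

lemma norm_qt {r : ℝ} (h1 : r < 1) (x : ℝ) : ‖qt r x‖ = 1 - r := by
  rw [qt, norm_mul, norm_e2, mul_one, Complex.norm_real, Real.norm_eq_abs,
    abs_of_pos (by linarith)]

/-- A term of the expansion. -/
noncomputable def TT (g : Polynomial ℂ) (r x : ℝ) : C(Ci, ℂ) :=
  ((r : ℂ) * g.eval (qt r x)) • kr (qt r x)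

lemma coset_sum (g : Polynomial ℂ) {r : ℝ} (h0 : 0 < r) (h1 : r < 1) {M : ℕ} (hM : 0 < M)
    (hg : g.natDegree < M) (x : ℝ) (t : Ci) :
    (∑ l ∈ range M, TT g r (x + (l : ℝ) / M)) t =
      ((M * r : ℝ) : ℂ) * psi M (((1 - r : ℝ) : ℂ) * conj (e2 x)) t *
        g.eval ((((1 - r) ^ 2 : ℝ) : ℂ) * ez t) := by
  obtain ⟨s, hs⟩ : ∃ s : ℂ, s = ((1 - r : ℝ) : ℂ) := ⟨_, rfl⟩
  have hsc : conj s = s := by rw [hs, Complex.conj_ofReal]
  obtain ⟨w, hw⟩ : ∃ w : ℂ, w = om M := ⟨_, rfl⟩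
  have hwp : IsPrimitiveRoot w M := hw ▸ om_prim hM
  have hw1 : ‖w‖ = 1 := hwp.norm'_eq_one hM.ne'
  obtain ⟨u, hu⟩ : ∃ u : ℂ, u = e2 x := ⟨_, rfl⟩
  have hun : ‖u‖ = 1 := by rw [hu, norm_e2]
  have huu : u * conj u = 1 := by
    rw [Complex.mul_conj, Complex.normSq_eq_norm_sq, hun]
    norm_num
  obtain ⟨y, hy⟩ : ∃ y : ℂ, y = s * conj u * ez t := ⟨_, rfl⟩
  have hyn : ‖y‖ < 1 := by
    rw [hy, norm_mul, norm_mul, norm_ez, RCLike.norm_conj, hun, hs, Complex.norm_real,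
      Real.norm_eq_abs, abs_of_pos (by linarith)]
    linarith
  have hne2 : 1 - y ^ M ≠ 0 := one_sub_ne' (by
    rw [norm_pow]
    exact pow_lt_one₀ (norm_nonneg _) hyn hM.ne')
  have hk : ∀ l : ℕ, kr (qt r (x + (l : ℝ) / M)) t =
      (1 / (1 - y ^ M)) * ∑ m ∈ range M, y ^ m * conj (w ^ (l * m)) := by
    intro l
    rw [kr_apply (by rw [norm_qt h1]; linarith), qt, e2_add x hM l, ← hs, ← hw, ← hu]
    have e1 : conj (s * (u * w ^ l)) * ez t = y * conj w ^ l := by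
      rw [map_mul, map_mul, map_pow, hsc, hy]
      ring
    rw [e1]
    have hne : 1 - y * conj w ^ l ≠ 0 := one_sub_ne' (by
      rw [norm_mul, norm_pow, RCLike.norm_conj, hw1, one_pow, mul_one]
      exact hyn)
    have hgs := mul_neg_geom_sum (y * conj w ^ l) M
    have e2 : (y * conj w ^ l) ^ M = y ^ M := by
      rw [mul_pow, ← pow_mul, mul_comm l M, pow_mul, ← map_pow, hwp.pow_eq_one, map_one, one_pow,
        mul_one]
    rw [e2] at hgs
    have e3 : ∑ m ∈ range M, y ^ m * conj (w ^ (l * m)) =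
        ∑ m ∈ range M, (y * conj w ^ l) ^ m := by
      refine sum_congr rfl fun m _ => ?_
      rw [mul_pow, pow_mul, map_pow, map_pow]
    rw [e3, inv_eq_one_div, eq_comm, div_mul_eq_mul_div, one_mul, div_eq_div_iff hne2 hne]
    linear_combination hgs
  have hev : ∀ l : ℕ, g.eval (qt r (x + (l : ℝ) / M)) =
      ∑ n ∈ range M, g.coeff n * (s * u) ^ n * w ^ (l * n) := by
    intro l
    rw [Polynomial.eval_eq_sum_range' hg, qt, e2_add x hM l, ← hs, ← hw, ← hu]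
    refine sum_congr rfl fun n _ => ?_
    rw [← mul_assoc s, mul_pow (s * u), pow_mul]
    ring
  have hs2 : (((1 - r) ^ 2 : ℝ) : ℂ) = s ^ 2 := by
    rw [hs]
    push_cast
    rfl
  rw [ContinuousMap.sum_apply, hs2, ← hs, ← hu, psi, ← hy, Polynomial.eval_eq_sum_range' hg]
  have hterm : ∀ l ∈ range M, TT g r (x + (l : ℝ) / M) t =
      ∑ n ∈ range M, ∑ m ∈ range M, ((r : ℂ) * (1 / (1 - y ^ M)) * (g.coeff n * (s * u) ^ n * y ^ m)) *
        (w ^ (l * n) * conj (w ^ (l * m))) := by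
    intro l _
    rw [TT, ContinuousMap.smul_apply, smul_eq_mul, hk, hev]
    calc (r : ℂ) * (∑ n ∈ range M, g.coeff n * (s * u) ^ n * w ^ (l * n)) *
          (1 / (1 - y ^ M) * ∑ m ∈ range M, y ^ m * conj (w ^ (l * m)))
        = (r : ℂ) * (1 / (1 - y ^ M)) * ((∑ n ∈ range M, g.coeff n * (s * u) ^ n * w ^ (l * n)) *
          ∑ m ∈ range M, y ^ m * conj (w ^ (l * m))) := by ring
      _ = _ := by
        rw [sum_mul_sum, mul_sum]
        refine sum_congr rfl fun n _ => ?_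
        rw [mul_sum]
        refine sum_congr rfl fun m _ => ?_
        ring
  rw [sum_congr rfl hterm, sum_comm]
  have h3 : ∀ n ∈ range M, ∑ l ∈ range M, ∑ m ∈ range M,
      ((r : ℂ) * (1 / (1 - y ^ M)) * (g.coeff n * (s * u) ^ n * y ^ m)) *
        (w ^ (l * n) * conj (w ^ (l * m))) =
      (r : ℂ) * (1 / (1 - y ^ M)) * (g.coeff n * (s ^ 2 * ez t) ^ n) * M := by
    intro n hn
    rw [sum_comm]
    have h4 : ∀ m ∈ range M, ∑ l ∈ range M,
        ((r : ℂ) * (1 / (1 - y ^ M)) * (g.coeff n * (s * u) ^ n * y ^ m)) *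
          (w ^ (l * n) * conj (w ^ (l * m))) =
        if n = m then (r : ℂ) * (1 / (1 - y ^ M)) * (g.coeff n * (s * u) ^ n * y ^ m) * M else 0 := by
      intro m hm
      rw [← mul_sum, orth hM hwp, Nat.mod_eq_of_lt (mem_range.1 hn),
        Nat.mod_eq_of_lt (mem_range.1 hm)]
      split_ifs <;> simp
    rw [sum_congr rfl h4, sum_ite_eq, if_pos hn]
    have h5 : (s * u) ^ n * y ^ n = (s ^ 2 * ez t) ^ n := by
      rw [← mul_pow, hy]
      congr 1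
      linear_combination (s ^ 2 * ez t) * huu
    linear_combination ((r : ℂ) * (1 / (1 - y ^ M)) * g.coeff n * M) * h5
  rw [sum_congr rfl h3, mul_sum]
  refine sum_congr rfl fun n _ => ?_
  push_cast
  ring

lemma eval_bound (g : Polynomial ℂ) : ∃ D : ℝ, 0 ≤ D ∧ (∀ z : ℂ, ‖z‖ ≤ 1 → ‖g.eval z‖ ≤ D) ∧
    ∀ (z : ℂ) (s : ℝ), ‖z‖ ≤ 1 → 0 ≤ s → s ≤ 1 →
      ‖g.eval ((s : ℂ) * z) - g.eval z‖ ≤ D * (1 - s) := by
  refine ⟨∑ n ∈ range (g.natDegree + 1), ‖g.coeff n‖ * ((n : ℝ) + 1),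
    sum_nonneg fun n _ => by positivity, fun z hz => ?_, fun z s hz hs0 hs1 => ?_⟩
  · rw [Polynomial.eval_eq_sum_range]
    refine (norm_sum_le _ _).trans (sum_le_sum fun n _ => ?_)
    rw [norm_mul, norm_pow]
    have h1 : ‖z‖ ^ n ≤ 1 := pow_le_one₀ (norm_nonneg _) hz
    have h2 : (0 : ℝ) ≤ n := Nat.cast_nonneg n
    exact mul_le_mul_of_nonneg_left (by linarith) (norm_nonneg _)
  · rw [Polynomial.eval_eq_sum_range, Polynomial.eval_eq_sum_range, ← sum_sub_distrib, sum_mul]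
    refine (norm_sum_le _ _).trans (sum_le_sum fun n _ => ?_)
    have e1 : g.coeff n * ((s : ℂ) * z) ^ n - g.coeff n * z ^ n =
        g.coeff n * (z ^ n * (((s ^ n - 1 : ℝ)) : ℂ)) := by
      push_cast
      rw [mul_pow]
      ring
    rw [e1, norm_mul, norm_mul, norm_pow, Complex.norm_real, Real.norm_eq_abs]
    have h1 : ‖z‖ ^ n ≤ 1 := pow_le_one₀ (norm_nonneg _) hz
    have h2 : s ^ n ≤ 1 := pow_le_one₀ hs0 hs1
    have h3 : 1 - s ^ n ≤ n * (1 - s) := by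
      have := one_add_mul_le_pow (a := s - 1) (by linarith) n
      rw [show 1 + (s - 1) = s by ring] at this
      linarith
    rw [abs_of_nonpos (by linarith), mul_assoc]
    refine mul_le_mul_of_nonneg_left ?_ (norm_nonneg _)
    have h4 : (0 : ℝ) ≤ 1 - s ^ n := by linarith
    calc ‖z‖ ^ n * -(s ^ n - 1) = ‖z‖ ^ n * (1 - s ^ n) := by ring
      _ ≤ 1 * (1 - s ^ n) := mul_le_mul_of_nonneg_right h1 h4
      _ ≤ n * (1 - s) := by linarith
      _ ≤ (n + 1) * (1 - s) := by nlinarith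

/-- The ratio. -/
noncomputable def q0 (n : ℕ) : ℝ := 1 - 1 / (4 * ((n : ℝ) + 1))

lemma q0_ge (n : ℕ) : 3 / 4 ≤ q0 n := by
  have h1 : (0 : ℝ) ≤ n := Nat.cast_nonneg n
  have h2 : 1 / (4 * ((n : ℝ) + 1)) ≤ 1 / 4 := one_div_le_one_div_of_le (by norm_num) (by linarith)
  unfold q0
  linarith

lemma q0_lt (n : ℕ) : q0 n < 1 := by
  have : 0 < 1 / (4 * ((n : ℝ) + 1)) := by positivity
  unfold q0
  linarith

lemma q0_pow (n : ℕ) : 1 / 2 ≤ q0 n ^ (2 * (n + 1)) := by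
  have h1 := q0_ge n
  have h2 := one_add_mul_le_pow (a := q0 n - 1) (by linarith) (2 * (n + 1))
  rw [show 1 + (q0 n - 1) = q0 n by ring] at h2
  refine le_trans ?_ h2
  have h3 : (0 : ℝ) ≤ n := Nat.cast_nonneg n
  have h4 : q0 n - 1 = -(1 / (4 * ((n : ℝ) + 1))) := by
    unfold q0
    ring
  rw [h4]
  push_cast
  have h5 : (2 * ((n : ℝ) + 1)) * -(1 / (4 * ((n : ℝ) + 1))) = -(1 / 2) := by
    field_simp
    norm_num
  rw [h5]
  norm_num

lemma q0_sum (n : ℕ) : ∀ k : ℕ, ∑ i ∈ range k, q0 n ^ (k - i) ≤ 4 * ((n : ℝ) + 1) := by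
  intro k
  have hX : (0 : ℝ) < 4 * ((n : ℝ) + 1) := by positivity
  induction k with
  | zero => simp; positivity
  | succ k ih =>
    have e1 : ∑ i ∈ range (k + 1), q0 n ^ (k + 1 - i) = q0 n * (∑ i ∈ range k, q0 n ^ (k - i)) + q0 n := by
      rw [sum_range_succ, mul_sum]
      congr 1
      · refine sum_congr rfl fun i hi => ?_
        have := mem_range.1 hi
        rw [show k + 1 - i = (k - i) + 1 by omega, pow_succ]
        ring
      · rw [show k + 1 - k = 1 by omega, pow_one]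
    rw [e1]
    have h1 := q0_ge n
    have h2 : q0 n * (∑ i ∈ range k, q0 n ^ (k - i)) ≤ q0 n * (4 * ((n : ℝ) + 1)) :=
      mul_le_mul_of_nonneg_left ih (by linarith)
    have h3 : q0 n * (4 * ((n : ℝ) + 1)) = 4 * ((n : ℝ) + 1) - 1 := by
      unfold q0
      field_simp
    have h4 := q0_lt n
    linarith

section

variable {p : ℝ≥0∞} [hp : Fact (1 ≤ p)]

lemma half_pow {r : ℝ} (h0 : 0 < r) {i k : ℕ} (hik : i ≤ k) (hr : (2 : ℝ) ^ k * r ≤ 1 / 2) :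
    (2 : ℝ) ^ i * r ≤ (1 / 2) ^ (k - i) ∧ (2 : ℝ) ^ i * r ≤ 1 / 2 := by
  have e1 : (2 : ℝ) ^ k = 2 ^ i * 2 ^ (k - i) := by rw [← pow_add, Nat.add_sub_cancel' hik]
  have h2 : (1 : ℝ) ≤ 2 ^ (k - i) := one_le_pow₀ (by norm_num)
  have h3 : (0 : ℝ) < 2 ^ i * r := by positivity
  constructor
  · rw [one_div, inv_pow, ← one_div, le_div_iff₀ (by positivity)]
    calc (2 : ℝ) ^ i * r * 2 ^ (k - i) = 2 ^ k * r := by rw [e1]; ring
      _ ≤ 1 := by linarith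
  · calc (2 : ℝ) ^ i * r ≤ 2 ^ i * r * 2 ^ (k - i) := le_mul_of_one_le_right h3.le h2
      _ = 2 ^ k * r := by rw [e1]; ring
      _ ≤ 1 / 2 := hr

lemma psi_nm {n : ℕ} (hpn : p ≤ ((2 * (n + 1) : ℕ) : ℝ≥0∞)) {r : ℝ} (h0 : 0 < r) (h1 : r < 1)
    {i k : ℕ} (hik : i ≤ k) (hr : (2 : ℝ) ^ k * r ≤ 1 / 2) {w : ℂ} (hw : ‖w‖ = 1 - r) {M : ℕ}
    (hM : M = 2 ^ i) (hM0 : 0 < M) (hw1 : ‖w‖ < 1) :
    nm p ((((M : ℝ) * r : ℝ) : ℂ) • psiC M w hM0 hw1) ≤ 2 * q0 n ^ (k - i) := by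
  have hq := q0_ge n
  have hq' : 0 < q0 n := by linarith
  obtain ⟨ha, hb⟩ := half_pow h0 hik hr
  have hMc : (M : ℝ) = 2 ^ i := by rw [hM]; push_cast; rfl
  have hm := psi_moment h0 h1 hw hM0 (by rw [hMc]; exact hb) n
  refine nm_le_of hpn _ (by positivity) ?_
  have e1 : ∀ t, ((((M : ℝ) * r : ℝ) : ℂ) • psiC M w hM0 hw1) t =
      (((M : ℝ) * r : ℝ) : ℂ) * psi M w t := fun t => rfl
  simp_rw [e1]
  refine hm.trans ?_
  rw [mul_pow, hMc, ← pow_mul, mul_comm (k - i), pow_mul]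
  refine mul_le_mul_of_nonneg_left ?_ (by positivity)
  refine ha.trans ?_
  rw [pow_mul]
  exact pow_le_pow_left₀ (by norm_num) (q0_pow n) _

end

end Pool.Agent.Y242.CK
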