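import Mathlib

set_option autoImplicit false

/-!
# Finite Fourier transform and sums over residue classes
-/

namespace Pool.Agent.Y242.CK

open Finset ComplexConjugate

lemma orth {N : ℕ} (hN : 0 < N) {w : ℂ} (hw : IsPrimitiveRoot w N) (a n : ℕ) :
    ∑ j ∈ range N, w ^ (j * a) * conj (w ^ (j * n)) = if a % N = n % N then (N : ℂ) else 0 := by
  have hw1 : ‖w‖ = 1 := hw.norm'_eq_one hN.ne'
  have hw0 : w ≠ 0 := by
    intro h
    rw [h, norm_zero] at hw1
    exact zero_ne_one hw1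
  have hc : w * conj w = 1 := by
    rw [Complex.mul_conj, Complex.normSq_eq_norm_sq, hw1]
    norm_num
  set z : ℂ := w ^ a * (conj w) ^ n with hz
  have h1 : ∀ j, w ^ (j * a) * conj (w ^ (j * n)) = z ^ j := by
    intro j
    rw [hz, mul_pow, map_pow, ← pow_mul, ← pow_mul, mul_comm j a, mul_comm j n]
  have hzn : z * w ^ n = w ^ a := by
    rw [hz, mul_assoc, ← mul_pow, mul_comm (conj w) w, hc, one_pow, mul_one]
  simp_rw [h1]
  have hord : N = orderOf w := hw.eq_orderOf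
  have hmod : ∀ m : ℕ, w ^ (m % N) = w ^ m := by
    intro m
    have := pow_mod_orderOf w m
    rwa [← hord] at this
  split_ifs with h
  · have h2 : w ^ a = w ^ n := by
      rw [← hmod a, ← hmod n, h]
    have h3 : z = 1 := by
      have : z * w ^ n = 1 * w ^ n := by rw [hzn, h2, one_mul]
      exact mul_right_cancel₀ (pow_ne_zero _ hw0) this
    simp [h3]
  · have h3 : z ≠ 1 := by
      intro h4
      rw [h4, one_mul] at hzn
      apply h
      rw [← hmod a, ← hmod n] at hzn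
      exact (hw.pow_inj (Nat.mod_lt _ hN) (Nat.mod_lt _ hN) hzn).symm
    have h5 : z ^ N = 1 := by
      rw [hz, mul_pow, ← pow_mul, ← pow_mul, mul_comm a N, mul_comm n N, pow_mul, pow_mul,
        ← map_pow, hw.pow_eq_one]
      simp
    have h6 := geom_sum_mul z N
    rw [h5, sub_self] at h6
    exact (mul_eq_zero.1 h6).resolve_right (sub_ne_zero.2 h3)

lemma parseval {N : ℕ} (hN : 0 < N) {w : ℂ} (hw : IsPrimitiveRoot w N) (v : ℕ → ℂ) :
    ∑ j ∈ range N, ‖∑ a ∈ range N, v a * w ^ (j * a)‖ ^ 2 = N * ∑ a ∈ range N, ‖v a‖ ^ 2 := by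
  have key : ((∑ j ∈ range N, ‖∑ a ∈ range N, v a * w ^ (j * a)‖ ^ 2 : ℝ) : ℂ) =
      ((N * ∑ a ∈ range N, ‖v a‖ ^ 2 : ℝ) : ℂ) := by
    push_cast
    calc ∑ j ∈ range N, ((‖∑ a ∈ range N, v a * w ^ (j * a)‖ : ℝ) : ℂ) ^ 2
        = ∑ j ∈ range N, ∑ a ∈ range N, ∑ b ∈ range N,
            (v a * conj (v b)) * (w ^ (j * a) * conj (w ^ (j * b))) := by
          refine sum_congr rfl fun j _ => ?_
          rw [← Complex.mul_conj', map_sum, sum_mul_sum]
          refine sum_congr rfl fun a _ => sum_congr rfl fun b _ => ?_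
          rw [map_mul]
          ring
      _ = ∑ a ∈ range N, ∑ b ∈ range N, (v a * conj (v b)) *
            ∑ j ∈ range N, (w ^ (j * a) * conj (w ^ (j * b))) := by
          rw [sum_comm]
          refine sum_congr rfl fun a _ => ?_
          rw [sum_comm]
          refine sum_congr rfl fun b _ => ?_
          rw [mul_sum]
      _ = ∑ a ∈ range N, ∑ b ∈ range N, (if a = b then (v a * conj (v b)) * (N : ℂ) else 0) := by
          refine sum_congr rfl fun a ha => sum_congr rfl fun b hb => ?_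
          rw [orth hN hw, Nat.mod_eq_of_lt (mem_range.1 ha), Nat.mod_eq_of_lt (mem_range.1 hb)]
          split_ifs <;> simp
      _ = (N : ℂ) * ∑ a ∈ range N, ((‖v a‖ : ℝ) : ℂ) ^ 2 := by
          rw [mul_sum]
          refine sum_congr rfl fun a ha => ?_
          rw [sum_ite_eq, if_pos ha, Complex.mul_conj', mul_comm]
  exact_mod_cast key

/-- The conjugate root. -/
lemma parseval' {N : ℕ} (hN : 0 < N) {w : ℂ} (hw : IsPrimitiveRoot w N) (v : ℕ → ℂ) :
    ∑ a ∈ range N, ‖∑ j ∈ range N, v j * conj (w ^ j) ^ a‖ ^ 2 = N * ∑ j ∈ range N, ‖v j‖ ^ 2 := by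
  have h := parseval hN hw (fun j => conj (v j))
  simp only [RCLike.norm_conj] at h
  rw [← h]
  refine sum_congr rfl fun a _ => ?_
  rw [← RCLike.norm_conj (∑ j ∈ range N, v j * conj (w ^ j) ^ a), map_sum]
  congr 2
  refine sum_congr rfl fun j _ => ?_
  rw [map_mul, map_pow, Complex.conj_conj, ← pow_mul, mul_comm j a]

lemma sum_res {N : ℕ} (hN : 0 < N) {x : ℝ} (hx0 : 0 ≤ x) (hx1 : x < 1) (h : ℕ → ℝ)
    (hh : ∀ n, 0 ≤ h n) :
    Summable (fun n => h (n % N) * x ^ n) ∧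
      ∑' n, h (n % N) * x ^ n ≤ (∑ a ∈ range N, h a) / (1 - x ^ N) := by
  have hxN : x ^ N < 1 := pow_lt_one₀ hx0 hx1 hN.ne'
  have hxN0 : 0 ≤ x ^ N := pow_nonneg hx0 _
  have hS : 0 ≤ ∑ a ∈ range N, h a := sum_nonneg fun a _ => hh a
  have hpos : ∀ n, 0 ≤ h (n % N) * x ^ n := fun n => mul_nonneg (hh _) (pow_nonneg hx0 _)
  have h1 : ∀ M : ℕ, ∑ n ∈ range (M * N), h (n % N) * x ^ n ≤
      (∑ a ∈ range N, h a) * ∑ l ∈ range M, (x ^ N) ^ l := by
    intro M
    induction M with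
    | zero => simp
    | succ M ih =>
      rw [Nat.succ_mul, sum_range_add, sum_range_succ, mul_add]
      refine add_le_add ih ?_
      rw [sum_mul]
      refine sum_le_sum fun a ha => ?_
      have ha' := mem_range.1 ha
      have e1 : (M * N + a) % N = a := by
        rw [Nat.mul_comm, Nat.mul_add_mod, Nat.mod_eq_of_lt ha']
      rw [e1]
      refine mul_le_mul_of_nonneg_left ?_ (hh a)
      rw [pow_add, ← pow_mul, mul_comm N M]
      exact mul_le_of_le_one_right (pow_nonneg hx0 _) (pow_le_one₀ hx0 hx1.le)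
  have h2 : ∀ M : ℕ, ∑ l ∈ range M, (x ^ N) ^ l ≤ (1 - x ^ N)⁻¹ := by
    intro M
    rw [← tsum_geometric_of_lt_one hxN0 hxN]
    exact (summable_geometric_of_lt_one hxN0 hxN).sum_le_tsum _ fun i _ => pow_nonneg hxN0 _
  have h3 : ∀ n : ℕ, ∑ i ∈ range n, h (i % N) * x ^ i ≤ (∑ a ∈ range N, h a) / (1 - x ^ N) := by
    intro n
    calc ∑ i ∈ range n, h (i % N) * x ^ i ≤ ∑ i ∈ range (n * N), h (i % N) * x ^ i :=
          sum_le_sum_of_subset_of_nonneg
            (range_subset_range.2 (Nat.le_mul_of_pos_right n hN)) fun i _ _ => hpos i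
      _ ≤ _ := h1 n
      _ ≤ (∑ a ∈ range N, h a) * (1 - x ^ N)⁻¹ := mul_le_mul_of_nonneg_left (h2 n) hS
      _ = _ := by rw [div_eq_mul_inv]
  exact ⟨summable_of_sum_range_le hpos h3, Real.tsum_le_of_sum_range_le hpos h3⟩

end Pool.Agent.Y242.CK
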