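import Mathlib

set_option autoImplicit false

/-!
# Expansions from one step
-/

namespace Pool.Agent.Y242.CK

open Finset Filter Topology

lemma iter {F : Type*} [NormedAddCommGroup F] [NormedSpace ℂ F] (k : ℕ → F) {q C : ℝ}
    (hq0 : 0 ≤ q) (hq1 : q < 1) (hC : 0 ≤ C)
    (hstep : ∀ (f : F) (m₀ : ℕ), ∃ m₁, m₀ < m₁ ∧ ∃ c : ℕ → ℂ,
      ‖f - ∑ m ∈ Ico m₀ m₁, c m • k m‖ ≤ q * ‖f‖ ∧
      ∀ t, m₀ ≤ t → t ≤ m₁ → ‖∑ m ∈ Ico m₀ t, c m • k m‖ ≤ C * ‖f‖)
    (f : F) (s₀ : ℕ) :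
    ∃ c : ℕ → ℂ, Tendsto (fun t => ∑ m ∈ Ico s₀ t, c m • k m) atTop (𝓝 f) := by
  classical
  choose m₁ hm₁ c hc1 hc2 using hstep
  let st : ℕ → ℕ × F := fun j => Nat.rec (s₀, f)
    (fun _ p => (m₁ p.2 p.1, p.2 - ∑ m ∈ Ico p.1 (m₁ p.2 p.1), c p.2 p.1 m • k m)) j
  set M : ℕ → ℕ := fun j => (st j).1 with hM
  set R : ℕ → F := fun j => (st j).2 with hR
  have hM0 : M 0 = s₀ := rfl
  have hR0 : R 0 = f := rfl
  have hMs : ∀ j, M (j + 1) = m₁ (R j) (M j) := fun j => rfl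
  have hRs : ∀ j, R (j + 1) = R j - ∑ m ∈ Ico (M j) (M (j + 1)), c (R j) (M j) m • k m :=
    fun j => rfl
  have hmono : StrictMono M := strictMono_nat_of_lt_succ fun j => by
    rw [hMs]
    exact hm₁ _ _
  have hRn : ∀ j, ‖R j‖ ≤ q ^ j * ‖f‖ := by
    intro j
    induction j with
    | zero => rw [hR0]; simp
    | succ j ih =>
      have h1 : ‖R (j + 1)‖ ≤ q * ‖R j‖ := by
        rw [hRs, hMs]
        exact hc1 _ _
      calc ‖R (j + 1)‖ ≤ q * ‖R j‖ := h1
        _ ≤ q * (q ^ j * ‖f‖) := mul_le_mul_of_nonneg_left ih hq0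
        _ = _ := by ring
  set cc : ℕ → ℂ := fun n => ∑ j ∈ range (n + 1),
    if M j ≤ n ∧ n < M (j + 1) then c (R j) (M j) n else 0 with hcc
  have hcc1 : ∀ j n, M j ≤ n → n < M (j + 1) → cc n = c (R j) (M j) n := by
    intro j n h1 h2
    have hj : j ∈ range (n + 1) := by
      have := hmono.le_apply (x := j)
      rw [mem_range]
      omega
    rw [hcc]
    simp only
    rw [sum_eq_single_of_mem j hj, if_pos ⟨h1, h2⟩]
    intro i _ hij
    rw [if_neg]
    rintro ⟨h3, h4⟩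
    rcases lt_or_gt_of_ne hij with h | h
    · have : M (i + 1) ≤ M j := hmono.monotone h
      omega
    · have : M (j + 1) ≤ M i := hmono.monotone h
      omega
  have hpart : ∀ j t, M j ≤ t → t ≤ M (j + 1) → ∑ m ∈ Ico (M j) t, cc m • k m =
      ∑ m ∈ Ico (M j) t, c (R j) (M j) m • k m := by
    intro j t h1 h2
    refine sum_congr rfl fun m hm => ?_
    rw [mem_Ico] at hm
    rw [hcc1 j m hm.1 (by omega)]
  have hfull : ∀ j, ∑ m ∈ Ico s₀ (M j), cc m • k m = f - R j := by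
    intro j
    induction j with
    | zero => rw [hM0, hR0]; simp
    | succ j ih =>
      have h1 : s₀ ≤ M j := by
        rw [← hM0]
        exact hmono.monotone (Nat.zero_le j)
      have h2 : M j ≤ M (j + 1) := hmono.monotone (Nat.le_succ j)
      rw [← sum_Ico_consecutive _ h1 h2, ih, hpart j _ h2 le_rfl, hRs]
      abel
  have hbound : ∀ j t, M j ≤ t → t ≤ M (j + 1) →
      ‖∑ m ∈ Ico s₀ t, cc m • k m - f‖ ≤ (1 + C) * (q ^ j * ‖f‖) := by
    intro j t h1 h2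
    have h3 : s₀ ≤ M j := by
      rw [← hM0]
      exact hmono.monotone (Nat.zero_le j)
    rw [← sum_Ico_consecutive _ h3 h1, hfull, hpart j t h1 h2]
    have h4 := hc2 (R j) (M j) t h1 (by rw [← hMs]; exact h2)
    have h5 : f - R j + ∑ m ∈ Ico (M j) t, c (R j) (M j) m • k m - f =
        ∑ m ∈ Ico (M j) t, c (R j) (M j) m • k m - R j := by abel
    rw [h5]
    refine (norm_sub_le _ _).trans ?_
    have h6 := hRn j
    nlinarith [norm_nonneg (R j)]
  refine ⟨cc, ?_⟩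
  rw [Metric.tendsto_atTop]
  intro ε hε
  have hlim : Tendsto (fun j : ℕ => (1 + C) * (q ^ j * ‖f‖)) atTop (𝓝 0) := by
    have := ((tendsto_pow_atTop_nhds_zero_of_lt_one hq0 hq1).mul_const ‖f‖).const_mul (1 + C)
    simpa using this
  obtain ⟨j₀, hj₀⟩ := (Metric.tendsto_atTop.1 hlim) ε hε
  refine ⟨M j₀, fun t ht => ?_⟩
  have hex : ∃ j, t < M (j + 1) := ⟨t, lt_of_lt_of_le (Nat.lt_succ_self t)
    (hmono.le_apply (x := t + 1))⟩
  set j := Nat.find hex with hj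
  have hj1 : t < M (j + 1) := Nat.find_spec hex
  have hjj : j₀ ≤ j := by
    by_contra hcon
    have hle : j + 1 ≤ j₀ := by omega
    have h8 : M (j + 1) ≤ M j₀ := hmono.monotone hle
    omega
  have hj2 : M j ≤ t := by
    rcases Nat.eq_zero_or_pos j with h0 | h0
    · rw [h0]
      exact (hmono.monotone (Nat.zero_le j₀)).trans ht
    · have := Nat.find_min hex (m := j - 1) (by omega)
      rw [Nat.sub_add_cancel h0] at this
      exact not_lt.1 this
  rw [dist_eq_norm]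
  refine (hbound j t hj2 hj1.le).trans_lt ?_
  have h7 := hj₀ j hjj
  rw [Real.dist_eq, sub_zero] at h7
  exact (le_abs_self _).trans_lt h7

end Pool.Agent.Y242.CK
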