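import Pool.Agent.Y242.CK.Lev

set_option autoImplicit false

/-!
# Necessity of the failure of the Blaschke condition
-/

namespace Pool.Agent.Y242.CK

open Finset Filter Topology ComplexConjugate

/-- The backward shift. -/
noncomputable def bs : E →ₗ[ℂ] E where
  toFun x := mk (fun n => x (n + 1)) ((summable_nat_add_iff 1).2 (summ x))
  map_add' x y := by
    apply lp.ext
    funext n
    rfl
  map_smul' c x := by
    apply lp.ext
    funext n
    rfl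

lemma bs_apply (x : E) (n : ℕ) : bs x n = x (n + 1) := rfl

lemma bs_norm (x : E) : ‖bs x‖ ≤ ‖x‖ := by
  have h1 : ‖bs x‖ ^ 2 ≤ ‖x‖ ^ 2 := by
    rw [nsq, nsq]
    simp_rw [bs_apply]
    have := (summ x).sum_add_tsum_nat_add 1
    rw [← this]
    have h2 : 0 ≤ ∑ i ∈ range 1, ‖x i‖ ^ 2 := sum_nonneg fun _ _ => by positivity
    linarith
  exact (pow_le_pow_iff_left₀ (norm_nonneg _) (norm_nonneg _) two_ne_zero).1 h1

lemma bs_kv {μ : ℂ} (h : ‖μ‖ < 1) : bs (kv μ) = conj μ • kv μ := by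
  apply lp.ext
  funext n
  rw [lp.coeFn_smul, Pi.smul_apply, bs_apply, kv_apply h, kv_apply h, pow_succ, smul_eq_mul,
    mul_comm]

lemma key (x : E) {lam : ℂ} (h : ‖lam‖ ≤ 1) : ‖conj lam • x - bs x‖ ≤ ‖x - lam • bs x‖ := by
  have h1 : ‖conj lam • x - bs x‖ ^ 2 ≤ ‖x - lam • bs x‖ ^ 2 := by
    rw [@norm_sub_sq ℂ, @norm_sub_sq ℂ, inner_smul_left, inner_smul_right, norm_smul, norm_smul,
      RCLike.norm_conj, Complex.conj_conj]
    have h2 := bs_norm x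
    have h3 : ‖bs x‖ ^ 2 ≤ ‖x‖ ^ 2 := pow_le_pow_left₀ (norm_nonneg _) h2 2
    have h4 : ‖lam‖ ^ 2 ≤ 1 := pow_le_one₀ (norm_nonneg _) h
    nlinarith
  exact (pow_le_pow_iff_left₀ (norm_nonneg _) (norm_nonneg _) two_ne_zero).1 h1

/-- The conjugate of the Blaschke factor of `lam` at `μ`. -/
noncomputable def bl (lam μ : ℂ) : ℂ := (conj lam - conj μ) / (1 - lam * conj μ)

lemma one_sub_ne {lam μ : ℂ} (h : ‖lam‖ < 1) (h' : ‖μ‖ < 1) : 1 - lam * conj μ ≠ 0 := by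
  intro h0
  have h1 : lam * conj μ = 1 := by linear_combination -h0
  have h2 : ‖lam * conj μ‖ = 1 := by rw [h1, norm_one]
  rw [norm_mul, RCLike.norm_conj] at h2
  nlinarith [norm_nonneg lam, norm_nonneg μ]

lemma step_bl (s : Finset ℕ) (μ : ℕ → ℂ) (hμ : ∀ i, ‖μ i‖ < 1) (y : ℕ → ℂ) {lam : ℂ}
    (h : ‖lam‖ < 1) :
    ‖∑ i ∈ s, (y i * bl lam (μ i)) • kv (μ i)‖ ≤ ‖∑ i ∈ s, y i • kv (μ i)‖ := by
  set x : E := ∑ i ∈ s, (y i / (1 - lam * conj (μ i))) • kv (μ i) with hx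
  have hb : bs x = ∑ i ∈ s, (y i / (1 - lam * conj (μ i)) * conj (μ i)) • kv (μ i) := by
    rw [hx, map_sum]
    refine sum_congr rfl fun i _ => ?_
    rw [map_smul, bs_kv (hμ i), smul_smul]
  have h1 : conj lam • x - bs x = ∑ i ∈ s, (y i * bl lam (μ i)) • kv (μ i) := by
    rw [hb, hx, smul_sum, ← sum_sub_distrib]
    refine sum_congr rfl fun i _ => ?_
    rw [smul_smul, ← sub_smul]
    congr 1
    rw [bl]
    ring
  have h2 : x - lam • bs x = ∑ i ∈ s, y i • kv (μ i) := by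
    rw [hb, smul_sum, hx, ← sum_sub_distrib]
    refine sum_congr rfl fun i _ => ?_
    rw [smul_smul, ← sub_smul]
    congr 1
    have hne := one_sub_ne h (hμ i)
    field_simp
  rw [← h1, ← h2]
  exact key x h.le

lemma steps_bl (s : Finset ℕ) (μ : ℕ → ℂ) (hμ : ∀ i, ‖μ i‖ < 1) (y : ℕ → ℂ) (L : ℕ → ℂ)
    (hL : ∀ i, ‖L i‖ < 1) (N : ℕ) :
    ‖∑ i ∈ s, (y i * ∏ l ∈ range N, bl (L l) (μ i)) • kv (μ i)‖ ≤ ‖∑ i ∈ s, y i • kv (μ i)‖ := by
  induction N with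
  | zero => simp
  | succ N ih =>
    refine le_trans ?_ ih
    have h1 := step_bl s μ hμ (fun i => y i * ∏ l ∈ range N, bl (L l) (μ i)) (hL N)
    refine le_trans (le_of_eq ?_) h1
    congr 1
    refine sum_congr rfl fun i _ => ?_
    rw [prod_range_succ, mul_assoc]

lemma norm_kv_ge {ν : ℂ} (hν : ‖ν‖ < 1) : 1 ≤ ‖kv ν‖ := by
  have h1 := lp.norm_apply_le_norm (p := 2) (by norm_num) (kv ν) 0
  rw [kv_apply hν, pow_zero, norm_one] at h1
  exact h1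

/-- The distance of a kernel from the span of finitely many other kernels. -/
lemma dist_ge (L : ℕ → ℂ) (hL : ∀ i, ‖L i‖ < 1) {ν : ℂ} (hν : ‖ν‖ < 1) (c : ℕ → ℂ) (N : ℕ) :
    ∏ l ∈ range N, ‖bl (L l) ν‖ ≤ ‖kv ν - ∑ n ∈ range N, c n • kv (L n)‖ := by
  let μ : ℕ → ℂ := fun i => Nat.casesOn i ν L
  let y : ℕ → ℂ := fun i => Nat.casesOn i 1 (fun n => -c n)
  have hμ1 : ∀ i, ‖μ i‖ < 1 := by
    intro i
    cases i with
    | zero => exact hν
    | succ n => exact hL n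
  have h1 := steps_bl (range (N + 1)) μ hμ1 y L hL N
  have hμ0 : μ 0 = ν := rfl
  have hμs : ∀ i, μ (i + 1) = L i := fun i => rfl
  have hy0 : y 0 = 1 := rfl
  have hys : ∀ i, y (i + 1) = -c i := fun i => rfl
  clear_value μ y
  have h2 : ∑ i ∈ range (N + 1), y i • kv (μ i) = kv ν - ∑ n ∈ range N, c n • kv (L n) := by
    rw [sum_range_succ']
    simp only [hys, hμs, hy0, hμ0, one_smul, neg_smul, sum_neg_distrib]
    abel
  have h3 : ∑ i ∈ range (N + 1), (y i * ∏ l ∈ range N, bl (L l) (μ i)) • kv (μ i) =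
      (∏ l ∈ range N, bl (L l) ν) • kv ν := by
    rw [sum_range_succ']
    simp only [hys, hμs, hy0, hμ0, one_mul]
    rw [sum_eq_zero, zero_add]
    intro i hi
    have : ∏ l ∈ range N, bl (L l) (L i) = 0 := by
      apply prod_eq_zero hi
      rw [bl, sub_self, zero_div]
    rw [this, mul_zero, zero_smul]
  rw [h2, h3, norm_smul, norm_prod] at h1
  refine le_trans ?_ h1
  exact le_mul_of_one_le_right (prod_nonneg fun _ _ => norm_nonneg _) (norm_kv_ge hν)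

lemma bl_sq {lam ν : ℂ} (h : ‖lam‖ < 1) (hν : ‖ν‖ < 1) :
    1 - ‖bl lam ν‖ ^ 2 = (1 - ‖lam‖ ^ 2) * (1 - ‖ν‖ ^ 2) / ‖1 - lam * conj ν‖ ^ 2 := by
  have hne := one_sub_ne h hν
  have hpos : 0 < ‖1 - lam * conj ν‖ ^ 2 := by
    have := norm_pos_iff.2 hne
    positivity
  rw [bl, norm_div, div_pow, eq_div_iff hpos.ne', sub_mul, one_mul, div_mul_cancel₀ _ hpos.ne',
    Complex.sq_norm, Complex.sq_norm, Complex.sq_norm, Complex.sq_norm]
  simp only [Complex.normSq_apply, Complex.sub_re, Complex.sub_im, Complex.mul_re, Complex.mul_im,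
    Complex.conj_re, Complex.conj_im, Complex.one_re, Complex.one_im]
  ring

lemma bl_lower {lam ν : ℂ} (h : ‖lam‖ < 1) (hν : ‖ν‖ ≤ 1 / 2) :
    1 - ‖bl lam ν‖ ≤ 8 * (1 - ‖lam‖) ∧ ‖bl lam ν‖ ≤ 1 := by
  have hν1 : ‖ν‖ < 1 := by linarith
  have h1 := bl_sq h hν1
  have h0 := norm_nonneg lam
  have hden : 1 / 2 ≤ ‖1 - lam * conj ν‖ := by
    have h2 := norm_sub_norm_le (1 : ℂ) (lam * conj ν)
    rw [norm_one, norm_mul, RCLike.norm_conj] at h2
    nlinarith [norm_nonneg ν]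
  have hden2 : 1 / 4 ≤ ‖1 - lam * conj ν‖ ^ 2 := by nlinarith
  have hb0 := norm_nonneg (bl lam ν)
  have hnum : 0 ≤ (1 - ‖lam‖ ^ 2) * (1 - ‖ν‖ ^ 2) := by
    apply mul_nonneg <;> nlinarith [norm_nonneg ν]
  have hb1 : ‖bl lam ν‖ ≤ 1 := by
    have : 0 ≤ 1 - ‖bl lam ν‖ ^ 2 := by
      rw [h1]
      positivity
    nlinarith
  refine ⟨?_, hb1⟩
  have h3 : 1 - ‖bl lam ν‖ ≤ 1 - ‖bl lam ν‖ ^ 2 := by nlinarith
  refine h3.trans ?_
  rw [h1, div_le_iff₀ (by positivity)]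
  have h4 : (1 - ‖lam‖ ^ 2) * (1 - ‖ν‖ ^ 2) ≤ 2 * (1 - ‖lam‖) := by
    have h5 : 1 - ‖ν‖ ^ 2 ≤ 1 := by nlinarith [sq_nonneg ‖ν‖]
    have h6 : 0 ≤ 1 - ‖lam‖ ^ 2 := by nlinarith
    nlinarith
  nlinarith

lemma prod_ge (a : ℕ → ℝ) (h0 : ∀ n, 0 ≤ a n) (h1 : ∀ n, a n ≤ 1) (N : ℕ) :
    1 - ∑ n ∈ range N, a n ≤ ∏ n ∈ range N, (1 - a n) := by
  induction N with
  | zero => simp
  | succ N ih =>
    rw [sum_range_succ, prod_range_succ]
    have h2 : ∏ n ∈ range N, (1 - a n) ≤ 1 :=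
      prod_le_one (fun n _ => by linarith [h1 n]) fun n _ => by linarith [h0 n]
    nlinarith [h0 N, h1 N]

/-- **Necessity.** -/
theorem necessity (L : ℕ → ℂ) (hL : ∀ i, ‖L i‖ < 1)
    (hrep : ∀ ν : ℂ, ‖ν‖ < 1 →
      ∃ c : ℕ → ℂ, Tendsto (fun N => ‖kv ν - ∑ n ∈ range N, c n • kv (L n)‖) atTop (𝓝 0)) :
    ¬ Summable fun n => 1 - ‖L n‖ := by
  intro hsum
  -- a point that is none of the points
  obtain ⟨ν, hν, hνL⟩ : ∃ ν : ℂ, ‖ν‖ < 1 / 2 ∧ ∀ n, L n ≠ ν := by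
    have hd := (Set.countable_range L).dense_compl ℝ
    obtain ⟨ν, h1, h2⟩ := hd.exists_mem_open Metric.isOpen_ball
      (⟨0, Metric.mem_ball_self (by norm_num)⟩ : (Metric.ball (0 : ℂ) (1 / 2)).Nonempty)
    refine ⟨ν, by simpa using h2, fun n hn => h1 ⟨n, hn⟩⟩
  have hν1 : ‖ν‖ < 1 := by linarith
  set a : ℕ → ℝ := fun n => 1 - ‖bl (L n) ν‖ with ha
  have ha0 : ∀ n, 0 ≤ a n := fun n => by
    have := (bl_lower (hL n) hν.le).2
    rw [ha]
    simp only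
    linarith
  have ha1 : ∀ n, a n ≤ 1 := fun n => by
    rw [ha]
    simp only
    linarith [norm_nonneg (bl (L n) ν)]
  have hasum : Summable a :=
    Summable.of_nonneg_of_le ha0 (fun n => (bl_lower (hL n) hν.le).1) (hsum.mul_left 8)
  have hpos : ∀ n, 0 < 1 - a n := by
    intro n
    have h1 : bl (L n) ν ≠ 0 := by
      rw [bl]
      refine div_ne_zero ?_ (one_sub_ne (hL n) hν1)
      rw [← map_sub]
      intro h2
      have h3 : L n - ν = 0 := by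
        have := congrArg conj h2
        simpa using this
      exact hνL n (sub_eq_zero.1 h3)
    have := norm_pos_iff.2 h1
    rw [ha]
    simp only
    linarith
  have htail := tendsto_sum_nat_add a
  obtain ⟨l₀, hl₀⟩ := ((tendsto_order.1 htail).2 (1 / 2) (by norm_num)).exists
  have hlow : ∀ M : ℕ, (∏ n ∈ range l₀, (1 - a n)) * (1 / 2) ≤ ∏ n ∈ range (l₀ + M), (1 - a n) := by
    intro M
    rw [prod_range_add]
    refine mul_le_mul_of_nonneg_left ?_ (prod_nonneg fun n _ => (hpos n).le)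
    have h1 := prod_ge (fun n => a (l₀ + n)) (fun n => ha0 _) (fun n => ha1 _) M
    have hs : Summable fun n => a (n + l₀) := (summable_nat_add_iff l₀).2 hasum
    have h2 : ∑ n ∈ range M, a (l₀ + n) ≤ ∑' n, a (n + l₀) := by
      have := hs.sum_le_tsum (range M) (fun n _ => ha0 _)
      simpa [add_comm] using this
    linarith
  obtain ⟨c, hc⟩ := hrep ν hν1
  set κ := (∏ n ∈ range l₀, (1 - a n)) * (1 / 2) with hκ
  have hκ0 : 0 < κ := mul_pos (prod_pos fun n _ => hpos n) (by norm_num)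
  obtain ⟨N₀, hN₀⟩ := ((tendsto_order.1 hc).2 κ hκ0).exists_forall_of_atTop
  have h5 := hN₀ (l₀ + N₀) (Nat.le_add_left _ _)
  have h6 := dist_ge L hL hν1 c (l₀ + N₀)
  have h7 := hlow N₀
  have h8 : ∏ n ∈ range (l₀ + N₀), (1 - a n) = ∏ l ∈ range (l₀ + N₀), ‖bl (L l) ν‖ := by
    refine prod_congr rfl fun n _ => ?_
    rw [ha]
    simp
  rw [h8] at h7
  linarith

end Pool.Agent.Y242.CK
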