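import Pool.Agent.Y242.CK.Lev
import Pool.Agent.Results.MP_459ac8_an.ZeroDensity

set_option autoImplicit false

/-!
# From coefficients to functions on the circle
-/

namespace Pool.Agent.Y242.CK

open Finset Filter Topology MeasureTheory AddCircle ComplexConjugate
open Pool.Agent.Results.MP_459ac8_an.ZeroDensity (Circ cauchyKernel MemHardy IsRepresenting
  upperDensity)
open Pool.Agent.H155R3 (DD cker cker_apply cker_ne muT)
open scoped ENNReal

/-- `L²` of the circle. -/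
abbrev L2 : Type := Lp ℂ 2 (haarAddCircle (T := (1 : ℝ)))

lemma orthoN : Orthonormal ℂ (fun n : ℕ => (fourierLp 2 (n : ℤ) : L2)) :=
  (orthonormal_fourier (T := (1 : ℝ))).comp (fun n : ℕ => (n : ℤ)) Nat.cast_injective

/-- The function with the given Taylor coefficients. -/
noncomputable def J : E →ₗᵢ[ℂ] L2 := orthoN.orthogonalFamily.linearIsometry

lemma hasSum_J (x : E) : HasSum (fun n : ℕ => x n • (fourierLp 2 (n : ℤ) : L2)) (J x) := by
  have := orthoN.orthogonalFamily.hasSum_linearIsometry x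
  simpa [J] using this

lemma hasSum_cker (s : DD) :
    HasSum (fun n : ℕ => (conj s.1) ^ n • (fourier (n : ℤ) : C(Circ, ℂ))) (cker s) := by
  have hs : Summable (fun n : ℕ => (conj s.1) ^ n • (fourier (n : ℤ) : C(Circ, ℂ))) := by
    apply Summable.of_norm
    have : ∀ n : ℕ, ‖(conj s.1) ^ n • (fourier (n : ℤ) : C(Circ, ℂ))‖ = ‖s.1‖ ^ n := by
      intro n
      rw [norm_smul, norm_pow, RCLike.norm_conj, fourier_norm, mul_one]
    simp_rw [this]
    exact summable_geometric_of_lt_one (norm_nonneg _) s.2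
  have h2 : ∑' n : ℕ, (conj s.1) ^ n • (fourier (n : ℤ) : C(Circ, ℂ)) = cker s := by
    ext t
    rw [← ContinuousMap.tsum_apply hs, cker_apply]
    have h3 : ∀ n : ℕ, ((conj s.1) ^ n • (fourier (n : ℤ) : C(Circ, ℂ))) t =
        (conj s.1 * (fourier 1 t : ℂ)) ^ n := by
      intro n
      rw [ContinuousMap.smul_apply, Pool.Agent.H155R3.fourier_pow, smul_eq_mul, mul_pow]
    simp_rw [h3]
    apply tsum_geometric_of_norm_lt_one
    rw [norm_mul, RCLike.norm_conj, Pool.Agent.H155R3.norm_e1, mul_one]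
    exact s.2
  rw [← h2]
  exact hs.hasSum

lemma J_kv (s : DD) : J (kv s.1) = ContinuousMap.toLp 2 muT ℂ (cker s) := by
  have h1 := (hasSum_cker s).mapL (ContinuousMap.toLp 2 muT ℂ)
  have h2 := hasSum_J (kv s.1)
  refine h2.unique ?_
  convert h1 using 2 with n
  rw [kv_apply s.2, map_smul]

lemma coef_J_neg (x : E) {m : ℤ} (hm : m < 0) : fourierCoeff (J x : Circ → ℂ) m = 0 := by
  rw [← fourierBasis_repr, HilbertBasis.repr_apply_apply, coe_fourierBasis]
  have h1 := (hasSum_J x).mapL (innerSL ℂ (fourierLp 2 m : L2))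
  simp only [innerSL_apply_apply, inner_smul_right] at h1
  have h2 : ∀ n : ℕ, x n * inner ℂ (fourierLp 2 m : L2) (fourierLp 2 (n : ℤ) : L2) = 0 := by
    intro n
    rw [(orthonormal_fourier (T := (1 : ℝ))).2 (by omega), mul_zero]
  simp only [h2] at h1
  exact h1.unique hasSum_zero

/-- Every function of `H²` comes from its Taylor coefficients. -/
lemma exists_J (F : L2) (hF : ∀ n : ℤ, n < 0 → fourierCoeff (F : Circ → ℂ) n = 0) :
    ∃ x : E, J x = F := by
  have hs : Summable fun n : ℤ => ‖fourierCoeff (F : Circ → ℂ) n‖ ^ 2 := by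
    have := (lp.memℓp (fourierBasis.repr F)).summable (by norm_num)
    simpa [fourierBasis_repr] using this
  have hs' : Summable fun n : ℕ => ‖fourierCoeff (F : Circ → ℂ) (n : ℤ)‖ ^ 2 :=
    hs.comp_injective (i := fun n : ℕ => (n : ℤ)) Nat.cast_injective
  refine ⟨mk (fun n : ℕ => fourierCoeff (F : Circ → ℂ) (n : ℤ)) hs', ?_⟩
  have h1 := hasSum_J (mk (fun n : ℕ => fourierCoeff (F : Circ → ℂ) (n : ℤ)) hs')
  have h2 := hasSum_fourier_series_L2 F
  have h3 : HasSum (fun n : ℕ => fourierCoeff (F : Circ → ℂ) (n : ℤ) • (fourierLp 2 (n : ℤ) : L2))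
      F := by
    have hinj : Function.Injective (fun n : ℕ => (n : ℤ)) := Nat.cast_injective
    refine (hinj.hasSum_iff (f := fun n : ℤ => fourierCoeff (F : Circ → ℂ) n •
      (fourierLp 2 n : L2)) ?_).2 h2
    intro n hn
    have : n < 0 := by
      by_contra hcon
      exact hn ⟨n.toNat, Int.toNat_of_nonneg (not_lt.1 hcon)⟩
    simp only [hF n this, zero_smul]
  exact h1.unique h3

/-- The `L²` norm of the difference of a function and a combination of kernels. -/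
lemma eLpNorm_eq {f : Circ → ℂ} (hf : MemLp f 2 haarAddCircle) (Λ : ℕ → ℂ)
    (hΛ : ∀ n, ‖Λ n‖ < 1) (c : ℕ → ℂ) (N : ℕ) (x : E) (hx : J x = hf.toLp f) :
    eLpNorm (fun t => f t - ∑ k ∈ range N, c k * cauchyKernel (Λ k) t) 2 haarAddCircle =
      ENNReal.ofReal ‖x - ∑ k ∈ range N, c k • kv (Λ k)‖ := by
  have h0 : ‖x - ∑ k ∈ range N, c k • kv (Λ k)‖ = ‖J (x - ∑ k ∈ range N, c k • kv (Λ k))‖ :=
    (J.norm_map _).symm
  have h1 : J (x - ∑ k ∈ range N, c k • kv (Λ k)) =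
      hf.toLp f - ContinuousMap.toLp 2 muT ℂ (∑ k ∈ range N, c k • cker ⟨Λ k, hΛ k⟩) := by
    rw [map_sub, hx, map_sum, map_sum]
    congr 1
    refine sum_congr rfl fun k _ => ?_
    rw [map_smul, map_smul, ← J_kv]
  rw [h0, h1, Lp.norm_def, ENNReal.ofReal_toReal (Lp.eLpNorm_ne_top _)]
  apply eLpNorm_congr_ae
  have e1 := Lp.coeFn_sub (hf.toLp f)
    (ContinuousMap.toLp 2 muT ℂ (∑ k ∈ range N, c k • cker ⟨Λ k, hΛ k⟩) : L2)
  have e3 := ContinuousMap.coeFn_toLp (p := 2) (𝕜 := ℂ) muT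
    (∑ k ∈ range N, c k • cker ⟨Λ k, hΛ k⟩)
  filter_upwards [e1, e3, hf.coeFn_toLp] with t h4 h5 h6
  rw [h4, Pi.sub_apply, h5, h6, ContinuousMap.sum_apply]
  congr 1
  apply Finset.sum_congr rfl
  intro k _
  rw [ContinuousMap.smul_apply, cker_apply, cauchyKernel, one_div, smul_eq_mul]

/-- Expansions in `E` give a representing system in `H²`. -/
lemma isRep (Λ : ℕ → ℂ) (hΛ : ∀ n, ‖Λ n‖ < 1)
    (h : ∀ x : E, ∃ c : ℕ → ℂ, Tendsto (fun N => ∑ n ∈ range N, c n • kv (Λ n)) atTop (𝓝 x)) :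
    IsRepresenting 2 Λ := by
  intro f hf
  obtain ⟨hf1, hf2⟩ := hf
  obtain ⟨x, hx⟩ := exists_J (hf1.toLp f) (fun n hn => by
    rw [fourierCoeff_congr_ae hf1.coeFn_toLp]
    exact hf2 n hn)
  obtain ⟨c, hc⟩ := h x
  refine ⟨c, ?_⟩
  simp_rw [eLpNorm_eq hf1 Λ hΛ c _ x hx]
  have h1 := ((tendsto_const_nhds (x := x)).sub hc).norm
  rw [sub_self, norm_zero] at h1
  have h3 := ENNReal.tendsto_ofReal h1
  rwa [ENNReal.ofReal_zero] at h3

/-- A representing system gives expansions of the kernels in `E`. -/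
lemma rep_kv (Λ : ℕ → ℂ) (hΛ : ∀ n, ‖Λ n‖ < 1) (h : IsRepresenting 2 Λ) {ν : ℂ} (hν : ‖ν‖ < 1) :
    ∃ c : ℕ → ℂ, Tendsto (fun N => ‖kv ν - ∑ n ∈ range N, c n • kv (Λ n)‖) atTop (𝓝 0) := by
  have hcont : Continuous fun t : Circ => cauchyKernel ν t := by
    have : (fun t : Circ => cauchyKernel ν t) = cker ⟨ν, hν⟩ := by
      funext t
      rw [cauchyKernel, cker_apply, one_div]
    rw [this]
    exact (cker ⟨ν, hν⟩).continuous
  have hae : (J (kv ν) : Circ → ℂ) =ᵐ[haarAddCircle] cauchyKernel ν := by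
    have h1 := J_kv ⟨ν, hν⟩
    simp only at h1
    rw [h1]
    filter_upwards [ContinuousMap.coeFn_toLp (p := 2) (𝕜 := ℂ) muT (cker ⟨ν, hν⟩)] with t ht
    rw [ht, cker_apply, cauchyKernel, one_div]
  have hmem : MemLp (cauchyKernel ν) 2 (haarAddCircle (T := (1 : ℝ))) :=
    (memLp_congr_ae hae).1 (Lp.memLp (J (kv ν)))
  have hH : MemHardy 2 (cauchyKernel ν) := by
    refine ⟨hmem, fun n hn => ?_⟩
    rw [← fourierCoeff_congr_ae hae]
    exact coef_J_neg _ hn
  obtain ⟨c, hc⟩ := h _ hH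
  refine ⟨c, ?_⟩
  have hx : J (kv ν) = hmem.toLp (cauchyKernel ν) := by
    refine Lp.ext ?_
    filter_upwards [hae, hmem.coeFn_toLp] with t h1 h2
    rw [h1, h2]
  simp_rw [eLpNorm_eq hmem Λ hΛ c _ (kv ν) hx] at hc
  have h4 := (ENNReal.tendsto_toReal ENNReal.zero_ne_top).comp hc
  simp only [ENNReal.toReal_zero, Function.comp_def] at h4
  refine h4.congr fun N => ?_
  rw [ENNReal.toReal_ofReal (norm_nonneg _)]

end Pool.Agent.Y242.CK
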