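import Pool.Agent.Y242.CK.Step
import Pool.Agent.Y242.CK.Iter
import Pool.Agent.Y242.CK.Nec
import Pool.Agent.Y242.CK.Trans

set_option autoImplicit false

/-!
# Sharp sparsity of representing systems of Cauchy kernels in `H²`
-/

namespace Pool.Agent.Y242.CK

open Finset Filter Topology MeasureTheory AddCircle ComplexConjugate
open Pool.Agent.Results.MP_459ac8_an.ZeroDensity (IsRepresenting)

/-- The points `(1 - ρ_k) exp (2πij / 2^k)`, `0 ≤ j < 2^k`, `k = 0, 1, …`, in this order. -/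
noncomputable def net (ρ : ℕ → ℝ) (n : ℕ) : ℂ := P ρ (n + 1)

section

variable {ρ : ℕ → ℝ}

lemma norm_P (h : ∀ k, ρ k < 1) (m : ℕ) : ‖P ρ m‖ = 1 - ρ (Nat.log 2 m) := by
  rw [P, norm_pt (by positivity) (rt_prim _) (h _)]

lemma norm_net (h : ∀ k, ρ k < 1) (n : ℕ) : ‖net ρ n‖ = 1 - ρ (Nat.log 2 (n + 1)) :=
  norm_P h _

lemma net_lt (h0 : ∀ k, 0 < ρ k) (h : ∀ k, ρ k < 1) (n : ℕ) : ‖net ρ n‖ < 1 := by
  rw [norm_net h]
  linarith [h0 (Nat.log 2 (n + 1))]

lemma net_inj (h : ∀ k, ρ k < 1) (ha : StrictAnti ρ) : Function.Injective (net ρ) := by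
  intro n n' hn
  have h1 := congrArg norm hn
  rw [norm_net h, norm_net h] at h1
  have h2 : Nat.log 2 (n + 1) = Nat.log 2 (n' + 1) := ha.injective (by linarith)
  rw [net, net, P, P, ← h2, pt, pt] at hn
  set k := Nat.log 2 (n + 1) with hk
  have h3 : ((1 - ρ k : ℝ) : ℂ) ≠ 0 := by
    rw [Ne, Complex.ofReal_eq_zero]
    linarith [h k]
  have h4 := mul_left_cancel₀ h3 hn
  have hk1 : 2 ^ k ≤ n + 1 := Nat.pow_log_le_self 2 (by omega)
  have hk2 : n + 1 < 2 ^ (k + 1) := Nat.lt_pow_succ_log_self (by norm_num) _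
  have hk1' : 2 ^ k ≤ n' + 1 := by
    rw [h2]
    exact Nat.pow_log_le_self 2 (by omega)
  have hk2' : n' + 1 < 2 ^ (k + 1) := by
    rw [h2]
    exact Nat.lt_pow_succ_log_self (by norm_num) _
  rw [pow_succ] at hk2 hk2'
  have h5 := (rt_prim k).pow_inj (i := n + 1 - 2 ^ k) (j := n' + 1 - 2 ^ k) (by omega) (by omega) h4
  omega

lemma net_mono (h : ∀ k, ρ k < 1) (ha : StrictAnti ρ) : Monotone fun n => ‖net ρ n‖ := by
  intro n n' hn
  simp only
  rw [norm_net h, norm_net h]
  have : ρ (Nat.log 2 (n' + 1)) ≤ ρ (Nat.log 2 (n + 1)) :=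
    ha.antitone (Nat.log_mono_right (by omega))
  linarith

/-- The sum over the net. -/
lemma summable_net (h0 : ∀ k, 0 < ρ k) (h : ∀ k, ρ k < 1) :
    Summable (fun n => 1 - ‖net ρ n‖) ↔ Summable fun k => (2 : ℝ) ^ k * ρ k := by
  have e1 : ∀ n, 1 - ‖net ρ n‖ = ρ (Nat.log 2 (n + 1)) := fun n => by
    rw [norm_net h]
    ring
  simp_rw [e1]
  have hblock : ∀ K : ℕ, ∑ n ∈ range (2 ^ K - 1), ρ (Nat.log 2 (n + 1)) =
      ∑ k ∈ range K, (2 : ℝ) ^ k * ρ k := by
    intro K
    induction K with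
    | zero => simp
    | succ K ih =>
      have h1 : 2 ^ (K + 1) - 1 = (2 ^ K - 1) + 2 ^ K := by
        have : 0 < 2 ^ K := by positivity
        rw [pow_succ]
        omega
      rw [h1, sum_range_add, ih, sum_range_succ]
      congr 1
      have h2 : ∀ j ∈ range (2 ^ K), ρ (Nat.log 2 (2 ^ K - 1 + j + 1)) = ρ K := by
        intro j hj
        have hj' := mem_range.1 hj
        have h3 : 2 ^ K - 1 + j + 1 = 2 ^ K + j := by
          have : 0 < 2 ^ K := by positivity
          omega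
        rw [h3, Nat.log_eq_of_pow_le_of_lt_pow (Nat.le_add_right _ _) (by rw [pow_succ]; omega)]
      rw [sum_congr rfl h2, sum_const, card_range, nsmul_eq_mul]
      push_cast
      ring
  constructor
  · intro hs
    refine summable_of_sum_range_le (c := ∑' n, ρ (Nat.log 2 (n + 1))) (fun k => ?_) fun K => ?_
    · have := h0 k
      positivity
    · rw [← hblock]
      exact hs.sum_le_tsum _ fun n _ => (h0 _).le
  · intro hs
    refine summable_of_sum_range_le (c := ∑' k, (2 : ℝ) ^ k * ρ k) (fun k => (h0 _).le) fun N => ?_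
    calc ∑ n ∈ range N, ρ (Nat.log 2 (n + 1)) ≤ ∑ n ∈ range (2 ^ N - 1), ρ (Nat.log 2 (n + 1)) := by
          refine sum_le_sum_of_subset_of_nonneg (range_subset_range.2 ?_) fun _ _ _ => (h0 _).le
          have : N < 2 ^ N := Nat.lt_two_pow_self
          omega
      _ = _ := hblock N
      _ ≤ _ := hs.sum_le_tsum _ fun k _ => by
          have := h0 k
          positivity

/-- Expansions with respect to the net. -/
lemma net_expand (h : Adm ρ) (f : E) :
    ∃ c : ℕ → ℂ, Tendsto (fun N => ∑ n ∈ range N, c n • kv (net ρ n)) atTop (𝓝 f) := by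
  obtain ⟨c, hc⟩ := iter (fun m => kv (P ρ m)) (q := 995 / 1000) (C := 1) (by norm_num)
    (by norm_num) (by norm_num) (fun f m₀ => by
      obtain ⟨m₁, h1, c, h2, h3⟩ := one_step h f m₀
      exact ⟨m₁, h1, c, h2, fun t ht1 ht2 => by rw [one_mul]; exact h3 t ht1 ht2⟩) f 1
  refine ⟨fun n => c (n + 1), ?_⟩
  have h1 := hc.comp (tendsto_add_atTop_nat 1)
  refine h1.congr fun N => ?_
  simp only [Function.comp_def]
  rw [sum_Ico_eq_sum_range, Nat.add_sub_cancel]
  refine sum_congr rfl fun n _ => ?_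
  rw [add_comm 1 n, net]

/-- **The criterion for the net.** -/
theorem net_iff (h0 : ∀ k, 0 < ρ k) (h1 : ∀ k, (2 : ℝ) ^ k * ρ k ≤ 1 / 2) :
    IsRepresenting 2 (net ρ) ↔ ¬ Summable fun k => (2 : ℝ) ^ k * ρ k := by
  have hlt : ∀ k, ρ k < 1 := by
    intro k
    have h2 : (1 : ℝ) ≤ 2 ^ k := one_le_pow₀ (by norm_num)
    have h3 := h0 k
    have h4 := h1 k
    nlinarith
  constructor
  · intro hr
    rw [← summable_net h0 hlt]
    exact necessity _ (net_lt h0 hlt) fun ν hν => rep_kv _ (net_lt h0 hlt) hr hν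
  · intro hd
    exact isRep _ (net_lt h0 hlt) (net_expand ⟨h0, h1, hd⟩)

end

/-- **Sharp sparsity.** -/
theorem sparse_iff (ε : ℕ → ℝ) (hε : Antitone ε) (h0 : ∀ n, 0 < ε n) :
    (∃ Λ : ℕ → ℂ, Function.Injective Λ ∧ (∀ n, ‖Λ n‖ < 1) ∧ (Monotone fun n => ‖Λ n‖) ∧
      (∀ n, 1 - ‖Λ n‖ ≤ ε n) ∧ IsRepresenting 2 Λ) ↔ ¬ Summable ε := by
  constructor
  · rintro ⟨Λ, _, hΛ, _, hle, hr⟩ hs
    refine necessity Λ hΛ (fun ν hν => rep_kv _ hΛ hr hν) ?_
    exact Summable.of_nonneg_of_le (fun n => by linarith [hΛ n]) hle hs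
  · intro hd
    set s : ℕ → ℝ := fun k => ((k : ℝ) + 2) / (4 * ((k : ℝ) + 1)) with hs
    set b : ℕ → ℝ := fun k => min (ε (2 ^ (k + 1))) (1 / 2 ^ k) with hb
    set ρ : ℕ → ℝ := fun k => b k * s k with hρ
    have hs0 : ∀ k, 1 / 4 < s k := by
      intro k
      rw [hs]
      simp only
      rw [lt_div_iff₀ (by positivity)]
      linarith
    have hs1 : ∀ k, s k ≤ 1 / 2 := by
      intro k
      rw [hs]
      simp only
      rw [div_le_iff₀ (by positivity)]
      have : (0 : ℝ) ≤ k := Nat.cast_nonneg k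
      linarith
    have hsa : StrictAnti s := strictAnti_nat_of_succ_lt fun k => by
      rw [hs]
      simp only
      rw [div_lt_div_iff₀ (by positivity) (by positivity)]
      push_cast
      nlinarith [(Nat.cast_nonneg k : (0 : ℝ) ≤ k)]
    have hb0 : ∀ k, 0 < b k := fun k => lt_min (h0 _) (by positivity)
    have hba : Antitone b := by
      intro k k' hkk
      refine min_le_min (hε (Nat.pow_le_pow_right (by norm_num) (by omega))) ?_
      exact one_div_le_one_div_of_le (by positivity) (pow_le_pow_right₀ (by norm_num) hkk)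
    have hρ0 : ∀ k, 0 < ρ k := fun k => mul_pos (hb0 k) (by linarith [hs0 k])
    have hρa : StrictAnti ρ := by
      intro k k' hkk
      calc ρ k' = b k' * s k' := rfl
        _ ≤ b k * s k' := mul_le_mul_of_nonneg_right (hba hkk.le) (by linarith [hs0 k'])
        _ < b k * s k := mul_lt_mul_of_pos_left (hsa hkk) (hb0 k)
    have hρ1 : ∀ k, (2 : ℝ) ^ k * ρ k ≤ 1 / 2 := by
      intro k
      have h2 : (2 : ℝ) ^ k * b k ≤ 1 := by
        calc (2 : ℝ) ^ k * b k ≤ 2 ^ k * (1 / 2 ^ k) :=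
              mul_le_mul_of_nonneg_left (min_le_right _ _) (by positivity)
          _ = 1 := by field_simp
      have h3 : 0 ≤ (2 : ℝ) ^ k * b k := by
        have := hb0 k
        positivity
      calc (2 : ℝ) ^ k * ρ k = (2 ^ k * b k) * s k := by rw [hρ]; ring
        _ ≤ 1 * (1 / 2) := mul_le_mul h2 (hs1 k) (by linarith [hs0 k]) (by norm_num)
        _ = 1 / 2 := by ring
    have hlt : ∀ k, ρ k < 1 := by
      intro k
      have h2 : (1 : ℝ) ≤ 2 ^ k := one_le_pow₀ (by norm_num)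
      have h3 := hρ0 k
      have h4 := hρ1 k
      nlinarith
    have hdiv : ¬ Summable fun k => (2 : ℝ) ^ k * ρ k := by
      intro hsum
      apply hd
      have h2 : Summable fun k => (2 : ℝ) ^ k * b k := by
        refine Summable.of_nonneg_of_le (fun k => ?_) (fun k => ?_) (hsum.mul_left 4)
        · have := hb0 k
          positivity
        · have h3 : 0 ≤ (2 : ℝ) ^ k * b k := by
            have := hb0 k
            positivity
          have h4 := hs0 k
          calc (2 : ℝ) ^ k * b k ≤ (2 ^ k * b k) * (4 * s k) :=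
                le_mul_of_one_le_right h3 (by linarith)
            _ = 4 * (2 ^ k * ρ k) := by rw [hρ]; ring
      have h3 := h2.tendsto_atTop_zero
      have h4 : ∀ᶠ k in atTop, (2 : ℝ) ^ k * b k < 1 := (tendsto_order.1 h3).2 1 one_pos
      have h5 : ∀ᶠ k in atTop, (2 : ℝ) ^ k * b k = 2 ^ k * ε (2 ^ (k + 1)) := by
        filter_upwards [h4] with k hk
        congr 1
        rw [hb]
        simp only
        apply min_eq_left
        by_contra hcon
        have h6 : b k = 1 / 2 ^ k := min_eq_right (not_le.1 hcon).le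
        rw [h6] at hk
        have : (2 : ℝ) ^ k * (1 / 2 ^ k) = 1 := by field_simp
        linarith
      have h6 : Summable fun k => (2 : ℝ) ^ k * ε (2 ^ (k + 1)) :=
        (summable_congr_atTop h5).1 h2
      have h7 : Summable fun k => (fun k => (2 : ℝ) ^ k * ε (2 ^ k)) (k + 1) := by
        refine (h6.mul_left 2).congr fun k => ?_
        simp only
        rw [pow_succ (2 : ℝ)]
        ring
      have h8 : Summable fun k => (2 : ℝ) ^ k * ε (2 ^ k) := (summable_nat_add_iff 1).1 h7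
      exact (summable_condensed_iff_of_nonneg (fun n => (h0 n).le) fun m n _ hmn => hε hmn).1 h8
    refine ⟨net ρ, net_inj hlt hρa, net_lt hρ0 hlt, net_mono hlt hρa, fun n => ?_,
      (net_iff hρ0 hρ1).2 hdiv⟩
    rw [norm_net hlt]
    set k := Nat.log 2 (n + 1) with hk
    have hk2 : n + 1 < 2 ^ (k + 1) := Nat.lt_pow_succ_log_self (by norm_num) _
    have h2 : ρ k ≤ b k := by
      have := hb0 k
      calc ρ k = b k * s k := rfl
        _ ≤ b k * 1 := mul_le_mul_of_nonneg_left (by linarith [hs1 k]) this.le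
        _ = b k := mul_one _
    have h3 : b k ≤ ε (2 ^ (k + 1)) := min_le_left _ _
    have h4 : ε (2 ^ (k + 1)) ≤ ε n := hε (by omega)
    linarith

end Pool.Agent.Y242.CK
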