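import Pool.Agent.Y242.CK.Hp
import Pool.Agent.Y242.CK.Final

set_option autoImplicit false

/-!
# Sharp sparsity of representing systems of Cauchy kernels in all `H^p`
-/

namespace Pool.Agent.Y242.CK

open Finset MeasureTheory AddCircle ComplexConjugate Filter Topology
open Pool.Agent.H155R3 (DD cker cker_apply muT polyT polyT_apply Van Van_approx Phi Phi_apply
  cker_mem mem_Van)
open Pool.Agent.Results.MP_459ac8_an.ZeroDensity (cauchyKernel MemHardy IsRepresenting)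
open scoped ENNReal

lemma zs (f : C(Ci, ℂ)) : (0 : ℂ) • f = 0 := by
  ext t
  rw [ContinuousMap.smul_apply, smul_eq_mul, zero_mul]
  rfl

section

variable {p : ℝ≥0∞} [hp : Fact (1 ≤ p)]

variable (p) in
/-- The kernels as elements of `L^p`. -/
noncomputable def lk (lam : ℂ) : Lp ℂ p muT := ContinuousMap.toLp p muT ℂ (kr lam)

lemma lk_mem (lam : ℂ) : lk p lam ∈ Van p := by
  rw [lk, kr]
  split_ifs with hl
  · exact cker_mem p ⟨lam, hl⟩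
  · rw [map_zero]
    exact Submodule.zero_mem _

lemma sum_lk (s : Finset ℕ) (c : ℕ → ℂ) (L : ℕ → ℂ) :
    ∑ m ∈ s, c m • lk p (L m) = ContinuousMap.toLp p muT ℂ (∑ m ∈ s, c m • kr (L m)) := by
  rw [map_sum]
  refine sum_congr rfl fun m _ => ?_
  rw [map_smul]
  rfl

lemma nm_sum_lk (s : Finset ℕ) (c : ℕ → ℂ) (L : ℕ → ℂ) :
    ‖∑ m ∈ s, c m • lk p (L m)‖ = nm p (∑ m ∈ s, c m • kr (L m)) := by
  rw [sum_lk]
  rfl

variable {ρ : ℕ → ℝ} (h : Adm ρ)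

include h

lemma one_stepP (hpt : p ≠ ∞) {n : ℕ} (hpn : p ≤ ((2 * (n + 1) : ℕ) : ℝ≥0∞)) (f : Lp ℂ p muT)
    (hf : f ∈ Van p) (m₀ : ℕ) :
    ∃ m₁, m₀ < m₁ ∧ ∃ c : ℕ → ℂ,
      ‖f - ∑ m ∈ Ico m₀ m₁, c m • lk p (Q ρ m)‖ ≤ (1 + qn n) / 2 * ‖f‖ ∧
      ∀ t, m₀ ≤ t → t ≤ m₁ → ‖∑ m ∈ Ico m₀ t, c m • lk p (Q ρ m)‖ ≤
        (2 * (KK n + 1 + 8 * ((n : ℝ) + 1)) + 2) * ‖f‖ := by
  rcases eq_or_ne f 0 with hf0 | hf0
  · refine ⟨m₀ + 1, Nat.lt_succ_self _, fun _ => 0, ?_, ?_⟩ <;> simp [hf0]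
  obtain ⟨F, hF⟩ : ∃ F : ℝ, F = ‖f‖ := ⟨_, rfl⟩
  have hFp : 0 < F := by
    rw [hF]
    exact norm_pos_iff.2 hf0
  obtain ⟨q, hq⟩ : ∃ q : ℝ, q = qn n := ⟨_, rfl⟩
  have hq1 : q < 1 := hq ▸ qn_lt n
  have hq2 : 1 / 2 ≤ q := hq ▸ qn_ge n
  obtain ⟨κ, hκ⟩ : ∃ κ : ℝ, κ = (1 - q) / 8 := ⟨_, rfl⟩
  have hκ0 : 0 < κ := by linarith
  have hκ1 : κ ≤ 1 / 16 := by linarith
  have hη : 0 < κ * F := by positivity
  obtain ⟨g, hg⟩ := Van_approx p f hf (κ * F) hη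
  rw [Phi_apply] at hg
  have hG : nm p (polyT g) ≤ (1 + κ) * F := by
    have h1 : nm p (polyT g) = ‖(ContinuousMap.toLp p muT ℂ (polyT g) : Lp ℂ p muT)‖ := rfl
    have h2 := norm_sub_norm_le (ContinuousMap.toLp p muT ℂ (polyT g) : Lp ℂ p muT) f
    rw [h1, ← hF] at *
    linarith
  have hG0 := nm_nonneg p (polyT g)
  obtain ⟨N', hN', hdec'⟩ := decorN hpt (polyT g) hη
  obtain ⟨N₁, hN₁⟩ : ∃ N₁ : ℕ, N₁ = max N' (g.natDegree + 1) := ⟨_, rfl⟩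
  have hgN : g.natDegree < N₁ := by
    rw [hN₁]
    exact lt_of_lt_of_le (Nat.lt_succ_self _) (le_max_right _ _)
  have hdec : Dec p g (κ * F) N₁ := fun N hN K hK =>
    hdec' N (le_trans (by rw [hN₁]; exact le_max_left _ _) hN) K hK
  obtain ⟨D, hD0, hDb, hD⟩ := eval_bound g
  have hlim1 : Tendsto (fun k : ℕ => (4 * D + N₁ * (2 * D)) * ((k : ℝ) * q0 n ^ k)) atTop (𝓝 0) := by
    have h1 := (tendsto_self_mul_const_pow_of_lt_one (by linarith [q0_ge n]) (q0_lt n)).const_mul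
      (4 * D + N₁ * (2 * D))
    simpa using h1
  have hlim2 : Tendsto (fun k : ℕ => 4 * D * (1 / 2 : ℝ) ^ k) atTop (𝓝 0) := by
    have h1 := (tendsto_pow_atTop_nhds_zero_of_lt_one (by norm_num : (0 : ℝ) ≤ 1 / 2)
      (by norm_num)).const_mul (4 * D)
    simpa using h1
  obtain ⟨a1, ha1⟩ := eventually_atTop.1 ((tendsto_order.1 hlim1).2 (κ * F) hη)
  obtain ⟨a2, ha2⟩ := eventually_atTop.1 ((tendsto_order.1 hlim2).2 (κ * F) hη)
  obtain ⟨a, ha⟩ : ∃ a : ℕ, a = a1 + a2 + N₁ + m₀ + 1 := ⟨_, rfl⟩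
  have hapow : a < 2 ^ a := Nat.lt_two_pow_self
  obtain ⟨b, hab, hb1, hb2⟩ := h.exists_block a
  have hS : ∀ k, a ≤ k → (4 * D + N₁ * (2 * D)) * ((k : ℝ) * q0 n ^ k) ≤ κ * F := fun k hk =>
    (ha1 k (by omega)).le
  have hE : 4 * D * (1 / 2 : ℝ) ^ a ≤ κ * F := (ha2 a (by omega)).le
  have hm0 : m₀ ≤ 2 ^ a := by omega
  have hab' : 2 ^ a < 2 ^ b := Nat.pow_lt_pow_right (by norm_num) hab
  have hzero : ∑ m ∈ Ico m₀ (2 ^ a), cg (tn n) g ρ a b m • kr (Q ρ m) = 0 := by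
    refine sum_eq_zero fun m hm => ?_
    rw [cg, if_neg (by rw [mem_Ico] at hm; omega), zs]
  refine ⟨2 ^ b, by omega, cg (tn n) g ρ a b, ?_, ?_⟩
  · have h1 : ∑ m ∈ Ico m₀ (2 ^ b), cg (tn n) g ρ a b m • kr (Q ρ m) =
        (tn n : ℂ) • ∑ i ∈ Ico a b, LV g ρ i := by
      rw [← sum_blockQ hab.le le_rfl, ← sum_Ico_consecutive _ hm0 hab'.le, hzero, zero_add]
    rw [sum_lk, h1]
    have h2 := resid_nm h hpn hη.le hD0 hD hdec hab.le (by omega) (by omega) hb1 hb2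
    have h3 : f - ContinuousMap.toLp p muT ℂ ((tn n : ℂ) • ∑ i ∈ Ico a b, LV g ρ i) =
        (f - ContinuousMap.toLp p muT ℂ (polyT g)) +
          ContinuousMap.toLp p muT ℂ (polyT g - (tn n : ℂ) • ∑ i ∈ Ico a b, LV g ρ i) := by
      rw [map_sub]
      abel
    rw [h3]
    refine (norm_add_le _ _).trans ?_
    rw [norm_sub_rev] at hg
    have h4 : ‖(ContinuousMap.toLp p muT ℂ (polyT g - (tn n : ℂ) • ∑ i ∈ Ico a b, LV g ρ i) :
        Lp ℂ p muT)‖ ≤ (nm p (polyT g) + κ * F) * qn n + 4 * D * (1 / 2) ^ a := h2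
    rw [← hq] at h4
    rw [← hF, ← hq]
    have h5 : (nm p (polyT g) + κ * F) * q ≤ (1 + 2 * κ) * F * q := by
      apply mul_le_mul_of_nonneg_right _ (by linarith)
      linarith
    have h6 : (1 + 2 * κ) * F * q ≤ (q + 2 * κ) * F := by
      have : 0 ≤ κ * F * (1 - q) := mul_nonneg hη.le (by linarith)
      nlinarith
    have h7 : (q + 4 * κ) * F = (1 + q) / 2 * F := by
      rw [hκ]
      ring
    linarith
  · intro t ht1 ht2
    rw [nm_sum_lk, ← hF]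
    have hKK := KK_pos n
    have hC0 : 0 ≤ KK n + 1 + 8 * ((n : ℝ) + 1) := by positivity
    rcases le_or_gt t (2 ^ a) with hta | hta
    · have h0 : ∑ m ∈ Ico m₀ t, cg (tn n) g ρ a b m • kr (Q ρ m) = 0 := by
        refine sum_eq_zero fun m hm => ?_
        rw [cg, if_neg (by rw [mem_Ico] at hm; omega), zs]
      rw [h0]
      have : 0 ≤ (2 * (KK n + 1 + 8 * ((n : ℝ) + 1)) + 2) * F := by positivity
      simpa [nm] using this
    · rw [← sum_Ico_consecutive _ hm0 hta.le, hzero, zero_add]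
      refine (partial_nm h hpn hη.le hD0 hDb hD hdec hgN (by omega) hb2 hη.le hS ht2).trans ?_
      have h5 : (nm p (polyT g) + κ * F) * (KK n + 1 + 8 * ((n : ℝ) + 1)) ≤
          2 * F * (KK n + 1 + 8 * ((n : ℝ) + 1)) := by
        apply mul_le_mul_of_nonneg_right _ hC0
        nlinarith
      nlinarith

/-- Expansions in `H^p`. -/
lemma expandP (hpt : p ≠ ∞) (f : Lp ℂ p muT) (hf : f ∈ Van p) :
    ∃ c : ℕ → ℂ, Tendsto (fun N => ∑ m ∈ range N, c m • lk p (Q ρ (m + 1))) atTop (𝓝 f) := by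
  obtain ⟨n, hn⟩ := ENNReal.exists_nat_gt hpt
  have hpn : p ≤ ((2 * (n + 1) : ℕ) : ℝ≥0∞) := by
    refine hn.le.trans ?_
    exact_mod_cast (by omega : n ≤ 2 * (n + 1))
  have hqn := qn_ge n
  have hqn' := qn_lt n
  have hKK := KK_pos n
  obtain ⟨c, hc⟩ := iter (F := ↥(Van p)) (fun m => (⟨lk p (Q ρ m), lk_mem _⟩ : ↥(Van p)))
    (q := (1 + qn n) / 2) (C := 2 * (KK n + 1 + 8 * ((n : ℝ) + 1)) + 2) (by linarith)
    (by linarith) (by positivity) (fun f m₀ => by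
      obtain ⟨m₁, h1, c, h2, h3⟩ := one_stepP h hpt hpn f.1 f.2 m₀
      refine ⟨m₁, h1, c, ?_, fun t ht1 ht2 => ?_⟩
      · have e1 : ‖f - ∑ m ∈ Ico m₀ m₁, c m • (⟨lk p (Q ρ m), lk_mem _⟩ : ↥(Van p))‖ =
            ‖f.1 - ∑ m ∈ Ico m₀ m₁, c m • lk p (Q ρ m)‖ := by
          rw [Submodule.coe_norm, Submodule.coe_sub, Submodule.coe_sum]
          rfl
        rw [e1]
        exact h2
      · have e1 : ‖∑ m ∈ Ico m₀ t, c m • (⟨lk p (Q ρ m), lk_mem _⟩ : ↥(Van p))‖ =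
            ‖∑ m ∈ Ico m₀ t, c m • lk p (Q ρ m)‖ := by
          rw [Submodule.coe_norm, Submodule.coe_sum]
          rfl
        rw [e1]
        exact h3 t ht1 ht2) ⟨f, hf⟩ 1
  refine ⟨fun m => c (m + 1), ?_⟩
  have h1 := (continuous_subtype_val.tendsto (⟨f, hf⟩ : ↥(Van p))).comp hc
  have h2 := h1.comp (tendsto_add_atTop_nat 1)
  refine h2.congr fun N => ?_
  simp only [Function.comp_def]
  rw [Submodule.coe_sum, sum_Ico_eq_sum_range, Nat.add_sub_cancel]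
  refine sum_congr rfl fun m _ => ?_
  rw [add_comm 1 m]
  rfl

end

end Pool.Agent.Y242.CK
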