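import Pool.Agent.Y242.CK.Par
import Pool.Agent.Y242.CK.Iter

set_option autoImplicit false

/-!
# One step of the expansion in `H^p`
-/

namespace Pool.Agent.Y242.CK

open Finset MeasureTheory AddCircle ComplexConjugate Filter Topology
open Pool.Agent.H155R3 (DD cker cker_apply muT polyT polyT_apply Van Van_approx Phi Phi_apply
  cker_mem)
open scoped ENNReal

/-- The points in the van der Corput order, numbered from `1`. -/
noncomputable def Q (ρ : ℕ → ℝ) (m : ℕ) : ℂ := qt (ρ (Nat.log 2 m)) (vdc (m - 2 ^ Nat.log 2 m))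

lemma Q_eq (ρ : ℕ → ℝ) {k j : ℕ} (hj : j < 2 ^ k) : Q ρ (2 ^ k + j) = qt (ρ k) (vdc j) := by
  have h1 : Nat.log 2 (2 ^ k + j) = k :=
    Nat.log_eq_of_pow_le_of_lt_pow (Nat.le_add_right _ _) (by rw [pow_succ]; omega)
  rw [Q, h1, Nat.add_sub_cancel_left]

/-- The coefficients. -/
noncomputable def cg (τ : ℝ) (g : Polynomial ℂ) (ρ : ℕ → ℝ) (a b m : ℕ) : ℂ :=
  if 2 ^ a ≤ m ∧ m < 2 ^ b then (τ : ℂ) * ((ρ (Nat.log 2 m) : ℂ) * g.eval (Q ρ m)) else 0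

/-- The sum of a level. -/
noncomputable def LV (g : Polynomial ℂ) (ρ : ℕ → ℝ) (k : ℕ) : C(Ci, ℂ) :=
  ∑ j ∈ range (2 ^ k), TT g (ρ k) (vdc j)

lemma sum_levelQ {τ : ℝ} {g : Polynomial ℂ} {ρ : ℕ → ℝ} {a b k J : ℕ} (hak : a ≤ k) (hkb : k < b)
    (hJ : J ≤ 2 ^ k) :
    ∑ m ∈ Ico (2 ^ k) (2 ^ k + J), cg τ g ρ a b m • kr (Q ρ m) =
      (τ : ℂ) • ∑ j ∈ range J, TT g (ρ k) (vdc j) := by
  rw [sum_Ico_eq_sum_range, Nat.add_sub_cancel_left, smul_sum]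
  refine sum_congr rfl fun j hj => ?_
  have hj' : j < 2 ^ k := lt_of_lt_of_le (mem_range.1 hj) hJ
  have h1 : Nat.log 2 (2 ^ k + j) = k :=
    Nat.log_eq_of_pow_le_of_lt_pow (Nat.le_add_right _ _) (by rw [pow_succ]; omega)
  have h2 : 2 ^ a ≤ 2 ^ k + j :=
    (Nat.pow_le_pow_right (by norm_num) hak).trans (Nat.le_add_right _ _)
  have h3 : 2 ^ k + j < 2 ^ b := by
    have : 2 ^ (k + 1) ≤ 2 ^ b := Nat.pow_le_pow_right (by norm_num) hkb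
    rw [pow_succ] at this
    omega
  rw [cg, if_pos ⟨h2, h3⟩, h1, Q_eq ρ hj', TT, smul_smul]

lemma sum_blockQ {τ : ℝ} {g : Polynomial ℂ} {ρ : ℕ → ℝ} {a b k : ℕ} (hak : a ≤ k) (hkb : k ≤ b) :
    ∑ m ∈ Ico (2 ^ a) (2 ^ k), cg τ g ρ a b m • kr (Q ρ m) =
      (τ : ℂ) • ∑ i ∈ Ico a k, LV g ρ i := by
  induction k, hak using Nat.le_induction with
  | base => simp
  | succ k hak ih =>
    have h1 : 2 ^ a ≤ 2 ^ k := Nat.pow_le_pow_right (by norm_num) hak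
    have h2 : 2 ^ k ≤ 2 ^ (k + 1) := Nat.pow_le_pow_right (by norm_num) (Nat.le_succ k)
    have hsm : (τ : ℂ) • (∑ i ∈ Ico a k, LV g ρ i + LV g ρ k) =
        (τ : ℂ) • ∑ i ∈ Ico a k, LV g ρ i + (τ : ℂ) • LV g ρ k := by
      ext t
      simp only [ContinuousMap.add_apply, ContinuousMap.smul_apply, smul_eq_mul]
      ring
    rw [← sum_Ico_consecutive _ h1 h2, ih (by omega), sum_Ico_succ_top hak, hsm]
    congr 1
    have := sum_levelQ (τ := τ) (g := g) (ρ := ρ) (a := a) (b := b) hak (by omega)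
      (le_refl (2 ^ k))
    rw [LV, ← this]
    congr 2
    rw [pow_succ]
    ring

section

variable {ρ : ℕ → ℝ} (h : Adm ρ)

include h

/-- Full levels. -/
lemma LV_err {g : Polynomial ℂ} {D : ℝ} (hD0 : 0 ≤ D)
    (hD : ∀ (z : ℂ) (s : ℝ), ‖z‖ ≤ 1 → 0 ≤ s → s ≤ 1 →
      ‖g.eval ((s : ℂ) * z) - g.eval z‖ ≤ D * (1 - s)) {k : ℕ} (hg : g.natDegree < 2 ^ k) (t : Ci) :
    ‖LV g ρ k t - g.eval (ez t) * (((2 ^ k * ρ k : ℝ) : ℂ) * psi (2 ^ k) (wk ρ k) t)‖ ≤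
      4 * D * ρ k := by
  have hpos := h.pos k
  have hlt := h.lt_one k
  have hle := h.le k
  have hM0 : 0 < 2 ^ k := by positivity
  have hwd : wk ρ k = ((1 - ρ k : ℝ) : ℂ) * conj (e2 0) := by
    rw [e2_zero, map_one, mul_one, wk]
  have h1 := coset_err hD0 hD hpos hlt hM0 (by push_cast; exact hle) hg 0 hwd (wk_lt h k) t
  have h2 : ∑ l ∈ range (2 ^ k), TT g (ρ k) (0 + (l : ℝ) / (2 ^ k : ℕ)) = LV g ρ k := by
    have := sum_vdc k 0 (TT g (ρ k))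
    simp only [zero_mul, zero_add, vdc_zero, zero_div] at this
    rw [LV, this]
    simp only [zero_add]
  rw [h2, ContinuousMap.sub_apply, ContinuousMap.mul_apply, ContinuousMap.smul_apply,
    polyT_ez] at h1
  have h3 : ((((2 ^ k : ℕ) : ℝ) * ρ k : ℝ) : ℂ) • psiC (2 ^ k) (wk ρ k) hM0 (wk_lt h k) t =
      (((2 ^ k * ρ k : ℝ)) : ℂ) * psi (2 ^ k) (wk ρ k) t := by
    rw [smul_eq_mul]
    push_cast
    rfl
  rw [h3] at h1
  exact h1

lemma sum_rho_le (a b : ℕ) : ∑ k ∈ Ico a b, ρ k ≤ (1 / 2) ^ a := by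
  have h1 : ∀ k, ρ k ≤ (1 / 2) ^ k - (1 / 2) ^ (k + 1) := by
    intro k
    have h2 := h.le k
    have h3 : (1 / 2 : ℝ) ^ k - (1 / 2) ^ (k + 1) = 1 / 2 / 2 ^ k := by
      rw [pow_succ, one_div, inv_pow]
      field_simp
      norm_num
    rw [h3, le_div_iff₀ (by positivity)]
    linarith
  rcases le_or_gt a b with hab | hab
  · refine (sum_le_sum fun k _ => h1 k).trans ?_
    rw [sum_Ico_eq_sum_range]
    have h4 := sum_range_sub' (fun k => (1 / 2 : ℝ) ^ (a + k)) (b - a)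
    simp only [add_zero] at h4
    have h5 : ∑ k ∈ range (b - a), ((1 / 2 : ℝ) ^ (a + k) - (1 / 2) ^ (a + k + 1)) =
        (1 / 2) ^ a - (1 / 2) ^ (a + (b - a)) := by
      rw [← h4]
      rfl
    rw [h5]
    have : (0 : ℝ) ≤ (1 / 2) ^ (a + (b - a)) := by positivity
    linarith
  · rw [Ico_eq_empty_of_le hab.le, sum_empty]
    positivity

/-- Sums of full levels. -/
lemma LV_sum {g : Polynomial ℂ} {D : ℝ} (hD0 : 0 ≤ D)
    (hD : ∀ (z : ℂ) (s : ℝ), ‖z‖ ≤ 1 → 0 ≤ s → s ≤ 1 →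
      ‖g.eval ((s : ℂ) * z) - g.eval z‖ ≤ D * (1 - s)) {a : ℕ} (hg : g.natDegree < 2 ^ a) (b : ℕ)
    (t : Ci) :
    ‖(∑ i ∈ Ico a b, LV g ρ i - polyT g * FF h a b) t‖ ≤ 4 * D * (1 / 2) ^ a := by
  have e1 : (∑ i ∈ Ico a b, LV g ρ i - polyT g * FF h a b) t = ∑ k ∈ Ico a b,
      (LV g ρ k t - g.eval (ez t) * (((2 ^ k * ρ k : ℝ) : ℂ) * psi (2 ^ k) (wk ρ k) t)) := by
    rw [ContinuousMap.sub_apply, ContinuousMap.mul_apply, ContinuousMap.sum_apply, FF_apply,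
      polyT_ez, sum_sub_distrib, mul_sum]
  rw [e1]
  refine (norm_sum_le _ _).trans ((sum_le_sum fun k hk => LV_err h hD0 hD ?_ t).trans ?_)
  · have := (mem_Ico.1 hk).1
    exact hg.trans_le (Nat.pow_le_pow_right (by norm_num) this)
  · rw [← mul_sum]
    exact mul_le_mul_of_nonneg_left (sum_rho_le h a b) (by positivity)

lemma FF_per {a : ℕ} (b : ℕ) (t : Ci) (l : ℕ) : FF h a b (t + fr (2 ^ a) l) = FF h a b t := by
  rw [FF_apply, FF_apply]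
  refine sum_congr rfl fun k hk => ?_
  rw [psi, psi, pow_fr (mem_Ico.1 hk).1]

variable {p : ℝ≥0∞} [hp : Fact (1 ≤ p)]

/-- The contraction factor. -/
noncomputable def qn (n : ℕ) : ℝ := 1 - tn n / (4 * ((n : ℝ) + 1))

omit h in
lemma qn_lt (n : ℕ) : qn n < 1 := by
  have := tn_pos n
  have : 0 < tn n / (4 * ((n : ℝ) + 1)) := by positivity
  unfold qn
  linarith

omit h in
lemma qn_ge (n : ℕ) : 1 / 2 ≤ qn n := by
  have h1 := tn_le n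
  have h2 : (0 : ℝ) ≤ n := Nat.cast_nonneg n
  have h3 : tn n / (4 * ((n : ℝ) + 1)) ≤ 1 / 2 := by
    rw [div_le_iff₀ (by positivity)]
    nlinarith
  unfold qn
  linarith

omit h in
lemma qn_pow (n : ℕ) : 1 - tn n / 2 ≤ qn n ^ (2 * (n + 1)) := by
  have h1 := qn_ge n
  have h2 := one_add_mul_le_pow (a := qn n - 1) (by linarith) (2 * (n + 1))
  rw [show 1 + (qn n - 1) = qn n by ring] at h2
  refine le_trans (le_of_eq ?_) h2
  have h4 : qn n - 1 = -(tn n / (4 * ((n : ℝ) + 1))) := by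
    unfold qn
    ring
  rw [h4]
  push_cast
  field_simp
  ring

lemma resid_nm {n : ℕ} (hpn : p ≤ ((2 * (n + 1) : ℕ) : ℝ≥0∞)) {g : Polynomial ℂ} {D η : ℝ}
    {N₁ : ℕ} (hη : 0 ≤ η) (hD0 : 0 ≤ D)
    (hD : ∀ (z : ℂ) (s : ℝ), ‖z‖ ≤ 1 → 0 ≤ s → s ≤ 1 →
      ‖g.eval ((s : ℂ) * z) - g.eval z‖ ≤ D * (1 - s))
    (hdec : Dec p g η N₁) {a b : ℕ} (hab : a ≤ b) (hg : g.natDegree < 2 ^ a) (hN : N₁ ≤ 2 ^ a)
    (hL1 : 1 ≤ ∑ k ∈ Ico a b, (2 : ℝ) ^ k * ρ k)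
    (hL : ∑ k ∈ Ico a b, (2 : ℝ) ^ k * ρ k ≤ 3 / 2) :
    nm p (polyT g - (tn n : ℂ) • ∑ i ∈ Ico a b, LV g ρ i) ≤
      (nm p (polyT g) + η) * qn n + 4 * D * (1 / 2) ^ a := by
  obtain ⟨K, hK⟩ : ∃ K : C(Ci, ℂ), K = 1 - (tn n : ℂ) • FF h a b := ⟨_, rfl⟩
  obtain ⟨R, hR⟩ : ∃ R : C(Ci, ℂ), R = ∑ i ∈ Ico a b, LV g ρ i - polyT g * FF h a b := ⟨_, rfl⟩
  have e1 : polyT g - (tn n : ℂ) • ∑ i ∈ Ico a b, LV g ρ i = polyT g * K + (-(tn n : ℂ)) • R := by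
    rw [hK, hR]
    ext t
    simp only [ContinuousMap.sub_apply, ContinuousMap.add_apply, ContinuousMap.smul_apply,
      ContinuousMap.mul_apply, ContinuousMap.one_apply, smul_eq_mul]
    ring
  have hτ := tn_pos n
  have hτ1 := tn_le n
  rw [e1]
  refine (nm_add p _ _).trans (add_le_add ?_ ?_)
  · refine (hdec (2 ^ a) hN K (fun t l => ?_)).trans ?_
    · rw [hK]
      simp only [ContinuousMap.sub_apply, ContinuousMap.smul_apply, ContinuousMap.one_apply]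
      rw [FF_per h]
    · refine mul_le_mul_of_nonneg_left ?_ (by linarith [nm_nonneg p (polyT g)])
      refine nm_le_of hpn K (by linarith [qn_ge n]) ?_
      have h3 := resid_moment h n hab hL1 hL
      have h4 : ∀ t, K t = 1 - (tn n : ℂ) * FF h a b t := fun t => by
        rw [hK]
        rfl
      simp_rw [h4]
      exact h3.trans (qn_pow n)
  · rw [nm_smul, norm_neg, Complex.norm_real, Real.norm_eq_abs, abs_of_pos hτ]
    have h5 : nm p R ≤ 4 * D * (1 / 2) ^ a := nm_le_sup p fun t => by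
      rw [hR]
      exact LV_sum h hD0 hD hg b t
    have h6 := nm_nonneg p R
    nlinarith

lemma block_nm {n : ℕ} (hpn : p ≤ ((2 * (n + 1) : ℕ) : ℝ≥0∞)) {g : Polynomial ℂ} {D η : ℝ}
    {N₁ : ℕ} (hη : 0 ≤ η) (hD0 : 0 ≤ D)
    (hD : ∀ (z : ℂ) (s : ℝ), ‖z‖ ≤ 1 → 0 ≤ s → s ≤ 1 →
      ‖g.eval ((s : ℂ) * z) - g.eval z‖ ≤ D * (1 - s))
    (hdec : Dec p g η N₁) {a b : ℕ} (hab : a ≤ b) (hg : g.natDegree < 2 ^ a) (hN : N₁ ≤ 2 ^ a)
    (hL : ∑ k ∈ Ico a b, (2 : ℝ) ^ k * ρ k ≤ 3 / 2) :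
    nm p (∑ i ∈ Ico a b, LV g ρ i) ≤
      (nm p (polyT g) + η) * (KK n + 1) + 4 * D * (1 / 2) ^ a := by
  obtain ⟨R, hR⟩ : ∃ R : C(Ci, ℂ), R = ∑ i ∈ Ico a b, LV g ρ i - polyT g * FF h a b := ⟨_, rfl⟩
  have e1 : ∑ i ∈ Ico a b, LV g ρ i = polyT g * FF h a b + R := by
    rw [hR]
    abel
  have hK := KK_pos n
  rw [e1]
  refine (nm_add p _ _).trans (add_le_add ?_ ?_)
  · refine (hdec (2 ^ a) hN _ (fun t l => FF_per h b t l)).trans ?_
    refine mul_le_mul_of_nonneg_left ?_ (by linarith [nm_nonneg p (polyT g)])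
    refine nm_le_of hpn _ (by linarith) ?_
    refine (FF_moment h n hab hL).trans ?_
    have h1 : KK n + 1 ≤ (KK n + 1) ^ (2 * (n + 1)) :=
      le_self_pow₀ (by linarith) (by omega)
    linarith
  · exact nm_le_sup p fun t => by
      rw [hR]
      exact LV_sum h hD0 hD hg b t

/-- Partial sums of a block of levels. -/
lemma partial_nm {n : ℕ} (hpn : p ≤ ((2 * (n + 1) : ℕ) : ℝ≥0∞)) {g : Polynomial ℂ} {D η : ℝ}
    {N₁ : ℕ} (hη : 0 ≤ η) (hD0 : 0 ≤ D) (hDb : ∀ z : ℂ, ‖z‖ ≤ 1 → ‖g.eval z‖ ≤ D)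
    (hD : ∀ (z : ℂ) (s : ℝ), ‖z‖ ≤ 1 → 0 ≤ s → s ≤ 1 →
      ‖g.eval ((s : ℂ) * z) - g.eval z‖ ≤ D * (1 - s))
    (hdec : Dec p g η N₁) (hgN : g.natDegree < N₁) {a b : ℕ} (hN : N₁ ≤ 2 ^ a)
    (hL : ∑ k ∈ Ico a b, (2 : ℝ) ^ k * ρ k ≤ 3 / 2) {S : ℝ} (hS0 : 0 ≤ S)
    (hS : ∀ k, a ≤ k → (4 * D + N₁ * (2 * D)) * (k * q0 n ^ k) ≤ S) {t : ℕ} (ht : t ≤ 2 ^ b) :
    nm p (∑ m ∈ Ico (2 ^ a) t, cg (tn n) g ρ a b m • kr (Q ρ m)) ≤
      (nm p (polyT g) + η) * (KK n + 1 + 8 * ((n : ℝ) + 1)) + 4 * D * (1 / 2) ^ a + S := by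
  have hG := nm_nonneg p (polyT g)
  have hKK := KK_pos n
  have hτ := tn_pos n
  have hτ1 := tn_le n
  have hn0 : (0 : ℝ) ≤ n := Nat.cast_nonneg n
  have hR0 : 0 ≤ (nm p (polyT g) + η) * (KK n + 1 + 8 * ((n : ℝ) + 1)) + 4 * D * (1 / 2) ^ a + S := by
    positivity
  rcases le_or_gt t (2 ^ a) with hta | hta
  · rw [Ico_eq_empty_of_le hta, sum_empty]
    simpa [nm] using hR0
  have ht0 : t ≠ 0 := by
    have : 0 < 2 ^ a := by positivity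
    omega
  set k := Nat.log 2 t with hk
  have hk1 : 2 ^ k ≤ t := Nat.pow_log_le_self 2 ht0
  have hk2 : t < 2 ^ (k + 1) := Nat.lt_pow_succ_log_self (by norm_num) t
  have hak : a ≤ k := by
    by_contra hcon
    have : 2 ^ (k + 1) ≤ 2 ^ a := Nat.pow_le_pow_right (by norm_num) (by omega)
    omega
  have hkb : k ≤ b := by
    by_contra hcon
    have : 2 ^ (b + 1) ≤ 2 ^ k := Nat.pow_le_pow_right (by norm_num) (by omega)
    rw [pow_succ] at this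
    have : 0 < 2 ^ b := by positivity
    omega
  have h1 : 2 ^ a ≤ 2 ^ k := Nat.pow_le_pow_right (by norm_num) hak
  have hLk : ∑ i ∈ Ico a k, (2 : ℝ) ^ i * ρ i ≤ 3 / 2 := by
    refine le_trans (sum_le_sum_of_subset_of_nonneg (Ico_subset_Ico_right hkb) fun i _ _ => ?_) hL
    have := h.pos i
    positivity
  have hY := block_nm h hpn hη hD0 hD hdec hak (by omega) hN hLk
  obtain ⟨J, hJ⟩ := Nat.exists_eq_add_of_le hk1
  have hJ' : J < 2 ^ k := by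
    rw [pow_succ] at hk2
    omega
  rw [← sum_Ico_consecutive _ h1 hk1, sum_blockQ hak hkb]
  refine (nm_add p _ _).trans ?_
  have hτn : ‖(tn n : ℂ)‖ = tn n := by
    rw [Complex.norm_real, Real.norm_eq_abs, abs_of_pos hτ]
  have hshrink : ∀ X : C(Ci, ℂ), nm p ((tn n : ℂ) • X) ≤ nm p X := fun X => by
    rw [nm_smul, hτn]
    have := nm_nonneg p X
    nlinarith
  have hlast : nm p (∑ m ∈ Ico (2 ^ k) t, cg (tn n) g ρ a b m • kr (Q ρ m)) ≤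
      (nm p (polyT g) + η) * (8 * ((n : ℝ) + 1)) + S := by
    rcases lt_or_eq_of_le hkb with hkb' | hkb'
    · rw [hJ, sum_levelQ hak hkb' hJ'.le]
      refine (hshrink _).trans ?_
      refine (level_partial hpn hη hD0 hDb hD hdec hgN (h.pos k) (h.lt_one k) (h.le k) hJ').trans ?_
      have := hS k hak
      linarith
    · have : t = 2 ^ k := by
        rw [hkb'] at hk1 ⊢
        omega
      rw [this, Ico_self, sum_empty]
      have : 0 ≤ (nm p (polyT g) + η) * (8 * ((n : ℝ) + 1)) + S := by positivity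
      simpa [nm] using this
  have h9 := hshrink (∑ i ∈ Ico a k, LV g ρ i)
  linarith

end

end Pool.Agent.Y242.CK
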