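import Pool.Agent.Y242.CK.Dft

set_option autoImplicit false

/-!
# Levels of equally spaced points and the kernels at these points

`E` is the Hardy space `H²` through Taylor coefficients, `kv μ` is the Cauchy kernel at `μ`.
-/

namespace Pool.Agent.Y242.CK

open Finset ComplexConjugate

/-- The Hardy space `H²` through Taylor coefficients. -/
abbrev E : Type := lp (fun _ : ℕ => ℂ) 2

lemma mem_of {x : ℕ → ℂ} (h : Summable fun n => ‖x n‖ ^ 2) : Memℓp x 2 := by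
  apply memℓp_gen
  simpa using h

/-- The element of `E` with the given coefficients. -/
noncomputable def mk (x : ℕ → ℂ) (h : Summable fun n => ‖x n‖ ^ 2) : E := ⟨x, mem_of h⟩

lemma mk_apply (x : ℕ → ℂ) (h : Summable fun n => ‖x n‖ ^ 2) (n : ℕ) : mk x h n = x n := rfl

lemma summ (x : E) : Summable fun n => ‖x n‖ ^ 2 := by
  have := (lp.memℓp x).summable (by norm_num)
  simpa using this

lemma nsq (x : E) : ‖x‖ ^ 2 = ∑' n, ‖x n‖ ^ 2 := by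
  have := lp.norm_rpow_eq_tsum (p := 2) (by norm_num) x
  simpa using this

lemma summ_geo {μ : ℂ} (h : ‖μ‖ < 1) : Summable fun n : ℕ => ‖conj μ ^ n‖ ^ 2 := by
  have h1 : ∀ n : ℕ, ‖conj μ ^ n‖ ^ 2 = (‖μ‖ ^ 2) ^ n := by
    intro n
    rw [norm_pow, RCLike.norm_conj, ← pow_mul, ← pow_mul, mul_comm]
  simp_rw [h1]
  exact summable_geometric_of_lt_one (by positivity) (pow_lt_one₀ (norm_nonneg _) h two_ne_zero)

open Classical in
/-- The Cauchy kernel at `μ`, with coefficients `conj μ ^ n`. -/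
noncomputable def kv (μ : ℂ) : E :=
  if h : ‖μ‖ < 1 then mk (fun n => conj μ ^ n) (summ_geo h) else 0

lemma kv_apply {μ : ℂ} (h : ‖μ‖ < 1) (n : ℕ) : kv μ n = conj μ ^ n := by
  rw [kv, dif_pos h]
  rfl

lemma sum_kv_apply (s : Finset ℕ) (c : ℕ → ℂ) (μ : ℕ → ℂ) (h : ∀ j ∈ s, ‖μ j‖ < 1) (n : ℕ) :
    (∑ j ∈ s, c j • kv (μ j) : E) n = ∑ j ∈ s, c j * conj (μ j) ^ n := by
  rw [lp.coeFn_sum, Finset.sum_apply]
  refine sum_congr rfl fun j hj => ?_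
  rw [lp.coeFn_smul, Pi.smul_apply, kv_apply (h j hj), smul_eq_mul]

lemma pow_le {ρ : ℝ} (h0 : 0 < ρ) (h1 : ρ < 1) (M : ℕ) : (1 - ρ) ^ M * (1 + M * ρ) ≤ 1 := by
  have h2 : 1 + (M : ℝ) * ρ ≤ (1 + ρ) ^ M := one_add_mul_le_pow (by linarith) M
  calc (1 - ρ) ^ M * (1 + M * ρ) ≤ (1 - ρ) ^ M * (1 + ρ) ^ M :=
        mul_le_mul_of_nonneg_left h2 (pow_nonneg (by linarith) _)
    _ = (1 - ρ ^ 2) ^ M := by rw [← mul_pow]; ring
    _ ≤ 1 := pow_le_one₀ (by nlinarith) (by nlinarith [sq_nonneg ρ])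

/-- The value at `μ` of the polynomial with the coefficients `g`. -/
noncomputable def ev (g : ℕ → ℂ) (N0 : ℕ) (μ : ℂ) : ℂ := ∑ a ∈ range N0, g a * μ ^ a

/-- The points of a level. -/
noncomputable def pt (ρ : ℝ) (w : ℂ) (j : ℕ) : ℂ := ((1 - ρ : ℝ) : ℂ) * w ^ j

/-- The combination of the kernels at the first `J` points of a level. -/
noncomputable def PV (g : ℕ → ℂ) (N0 : ℕ) (ρ : ℝ) (w : ℂ) (J : ℕ) : E :=
  ∑ j ∈ range J, ((ρ : ℂ) * ev g N0 (pt ρ w j)) • kv (pt ρ w j)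

/-- The squared norm of the polynomial. -/
noncomputable def sq (g : ℕ → ℂ) (N0 : ℕ) : ℝ := ∑ a ∈ range N0, ‖g a‖ ^ 2

lemma sq_nonneg' (g : ℕ → ℂ) (N0 : ℕ) : 0 ≤ sq g N0 := sum_nonneg fun _ _ => by positivity

section level

variable {N N0 : ℕ} {w : ℂ} {ρ : ℝ} {g : ℕ → ℂ}

lemma norm_w (hN : 0 < N) (hw : IsPrimitiveRoot w N) : ‖w‖ = 1 := hw.norm'_eq_one hN.ne'

lemma norm_pt (hN : 0 < N) (hw : IsPrimitiveRoot w N) (h1 : ρ < 1) (j : ℕ) :
    ‖pt ρ w j‖ = 1 - ρ := by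
  rw [pt, norm_mul, norm_pow, norm_w hN hw, one_pow, mul_one, Complex.norm_real, Real.norm_eq_abs,
    abs_of_pos (by linarith)]

lemma ev_eq (hN0 : N0 ≤ N) (hg : ∀ a, N0 ≤ a → g a = 0) (μ : ℂ) :
    ev g N0 μ = ∑ a ∈ range N, g a * μ ^ a := by
  rw [ev]
  refine sum_subset (range_subset_range.2 hN0) fun a _ ha => ?_
  rw [hg a (by simpa using ha), zero_mul]

lemma sq_eq (hN0 : N0 ≤ N) (hg : ∀ a, N0 ≤ a → g a = 0) :
    sq g N0 = ∑ a ∈ range N, ‖g a‖ ^ 2 := by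
  rw [sq]
  refine sum_subset (range_subset_range.2 hN0) fun a _ ha => ?_
  rw [hg a (by simpa using ha)]
  simp

lemma sum_ev_le (hN : 0 < N) (hw : IsPrimitiveRoot w N) (h0 : 0 < ρ) (h1 : ρ < 1)
    (hN0 : N0 ≤ N) (hg : ∀ a, N0 ≤ a → g a = 0) :
    ∑ j ∈ range N, ‖(ρ : ℂ) * ev g N0 (pt ρ w j)‖ ^ 2 ≤ ρ ^ 2 * N * sq g N0 := by
  have h2 : ∀ j, ev g N0 (pt ρ w j) =
      ∑ a ∈ range N, (g a * ((1 - ρ : ℝ) : ℂ) ^ a) * w ^ (j * a) := by
    intro j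
    rw [ev_eq hN0 hg]
    refine sum_congr rfl fun a _ => ?_
    rw [pt, mul_pow, ← pow_mul]
    ring
  have h3 : ∀ j, ‖(ρ : ℂ) * ev g N0 (pt ρ w j)‖ ^ 2 = ρ ^ 2 *
      ‖∑ a ∈ range N, (g a * ((1 - ρ : ℝ) : ℂ) ^ a) * w ^ (j * a)‖ ^ 2 := by
    intro j
    rw [h2, norm_mul, mul_pow, Complex.norm_real, Real.norm_eq_abs, sq_abs]
  simp_rw [h3]
  rw [← mul_sum, parseval hN hw, sq_eq hN0 hg, mul_assoc]
  refine mul_le_mul_of_nonneg_left (mul_le_mul_of_nonneg_left (sum_le_sum fun a _ => ?_)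
    (by positivity)) (by positivity)
  rw [norm_mul, norm_pow, Complex.norm_real, Real.norm_eq_abs, abs_of_pos (by linarith)]
  refine pow_le_pow_left₀ (by positivity) ?_ 2
  exact mul_le_of_le_one_right (norm_nonneg _) (pow_le_one₀ (by linarith) (by linarith))

/-- A part of a level. -/
lemma part_le (hN : 0 < N) (hw : IsPrimitiveRoot w N) (h0 : 0 < ρ) (h1 : ρ < 1)
    (hN0 : N0 ≤ N) (hg : ∀ a, N0 ≤ a → g a = 0) (hδ : (N : ℝ) * ρ ≤ 1) {J : ℕ} (hJ : J ≤ N) :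
    ‖PV g N0 ρ w J‖ ^ 2 ≤ 3 / 2 * sq g N0 := by
  classical
  set c : ℕ → ℂ := fun j => if j < J then (ρ : ℂ) * ev g N0 (pt ρ w j) else 0 with hc
  set r : ℝ := 1 - ρ with hr
  have hr0 : 0 < r := by linarith
  have hr1 : r < 1 := by linarith
  set h : ℕ → ℝ := fun m => ‖∑ j ∈ range N, c j * conj (w ^ j) ^ m‖ ^ 2 with hh
  have hwN : ∀ j m : ℕ, conj (w ^ j) ^ (m % N) = conj (w ^ j) ^ m := by
    intro j m
    conv_rhs => rw [← Nat.mod_add_div m N]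
    rw [pow_add, pow_mul (conj (w ^ j)) N (m / N), ← map_pow (starRingEnd ℂ) (w ^ j) N, ← pow_mul,
      mul_comm j N, pow_mul, hw.pow_eq_one, one_pow, map_one, one_pow, mul_one]
  have hcoef : ∀ n, (PV g N0 ρ w J : E) n =
      (r : ℂ) ^ n * ∑ j ∈ range N, c j * conj (w ^ j) ^ n := by
    intro n
    rw [PV, sum_kv_apply _ _ _ (fun j _ => by rw [norm_pt hN hw h1]; linarith), mul_sum]
    have e1 : ∑ j ∈ range J, (ρ : ℂ) * ev g N0 (pt ρ w j) * conj (pt ρ w j) ^ n =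
        ∑ j ∈ range J, (r : ℂ) ^ n * (c j * conj (w ^ j) ^ n) := by
      refine sum_congr rfl fun j hj => ?_
      rw [hc]
      simp only [mem_range.1 hj, if_true]
      conv_lhs => rw [show conj (pt ρ w j) = (r : ℂ) * conj (w ^ j) by
        rw [pt, map_mul, Complex.conj_ofReal]]
      rw [mul_pow]
      ring
    rw [e1]
    refine sum_subset (range_subset_range.2 hJ) fun j _ hj => ?_
    rw [hc]
    simp only [mem_range, not_lt] at hj
    simp [not_lt.2 hj]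
  have hns : ∀ n, ‖(PV g N0 ρ w J : E) n‖ ^ 2 = h (n % N) * (r ^ 2) ^ n := by
    intro n
    rw [hcoef, norm_mul, mul_pow, norm_pow, Complex.norm_real, Real.norm_eq_abs, abs_of_pos hr0,
      ← pow_mul, ← pow_mul, mul_comm n 2, mul_comm, hh]
    simp only
    congr 3
    exact sum_congr rfl fun j _ => by rw [hwN]
  have hr2 : r ^ 2 < 1 := pow_lt_one₀ hr0.le hr1 two_ne_zero
  have hsum := (sum_res hN (by positivity : (0 : ℝ) ≤ r ^ 2) hr2 h (fun m => by positivity)).2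
  rw [nsq]
  simp_rw [hns]
  refine hsum.trans ?_
  rw [hh]
  simp only
  rw [parseval' hN hw]
  have hc2 : ∑ j ∈ range N, ‖c j‖ ^ 2 ≤ ρ ^ 2 * N * sq g N0 := by
    refine le_trans (sum_le_sum fun j _ => ?_) (sum_ev_le hN hw h0 h1 hN0 hg)
    rw [hc]
    simp only
    split_ifs
    · exact le_rfl
    · rw [norm_zero, zero_pow two_ne_zero]
      positivity
  have hN' : (0 : ℝ) < N := by exact_mod_cast hN
  have hp := pow_le h0 h1 (2 * N)
  rw [← hr, pow_mul] at hp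
  push_cast at hp
  have hδ0 : 0 < (N : ℝ) * ρ := by positivity
  have hx : 2 / 3 * ((N : ℝ) * ρ) ≤ 1 - (r ^ 2) ^ N := by
    set x := (r ^ 2) ^ N with hxdef
    have hx0 : 0 ≤ x := by positivity
    nlinarith
  have hxpos : 0 < 1 - (r ^ 2) ^ N := by
    have : 0 < 2 / 3 * ((N : ℝ) * ρ) := by positivity
    linarith
  rw [div_le_iff₀ hxpos]
  have hs := sq_nonneg' g N0
  calc (N : ℝ) * ∑ j ∈ range N, ‖c j‖ ^ 2 ≤ N * (ρ ^ 2 * N * sq g N0) :=
        mul_le_mul_of_nonneg_left hc2 hN'.le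
    _ = sq g N0 * ((N * ρ) * (N * ρ)) := by ring
    _ ≤ sq g N0 * ((N * ρ) * 1) := by gcongr
    _ = 3 / 2 * sq g N0 * (2 / 3 * ((N : ℝ) * ρ)) := by ring
    _ ≤ 3 / 2 * sq g N0 * (1 - (r ^ 2) ^ N) := mul_le_mul_of_nonneg_left hx (by positivity)

/-- The coefficients of the full level. -/
lemma full_apply (hN : 0 < N) (hw : IsPrimitiveRoot w N) (h0 : 0 < ρ) (h1 : ρ < 1)
    (hN0 : N0 ≤ N) (hg : ∀ a, N0 ≤ a → g a = 0) (n : ℕ) :
    (PV g N0 ρ w N : E) n = ((N * ρ * (1 - ρ) ^ (n + n % N) : ℝ) : ℂ) * g (n % N) := by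
  rw [PV, sum_kv_apply _ _ _ (fun j _ => by rw [norm_pt hN hw h1]; linarith)]
  have e1 : ∀ j, (ρ : ℂ) * ev g N0 (pt ρ w j) * conj (pt ρ w j) ^ n =
      ∑ a ∈ range N, (ρ * g a * ((1 - ρ : ℝ) : ℂ) ^ (a + n)) *
        (w ^ (j * a) * conj (w ^ (j * n))) := by
    intro j
    rw [ev_eq hN0 hg, mul_sum, sum_mul]
    refine sum_congr rfl fun a _ => ?_
    rw [pt, map_mul, Complex.conj_ofReal, mul_pow, mul_pow, ← pow_mul, ← map_pow, ← pow_mul, pow_add]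
    ring
  simp_rw [e1]
  rw [sum_comm]
  simp_rw [← mul_sum]
  have e2 : ∀ a ∈ range N, (ρ * g a * ((1 - ρ : ℝ) : ℂ) ^ (a + n)) *
      ∑ j ∈ range N, (w ^ (j * a) * conj (w ^ (j * n))) =
      if a = n % N then (ρ * g a * ((1 - ρ : ℝ) : ℂ) ^ (a + n)) * (N : ℂ) else 0 := by
    intro a ha
    rw [orth hN hw, Nat.mod_eq_of_lt (mem_range.1 ha)]
    split_ifs <;> simp
  rw [sum_congr rfl e2, sum_ite_eq', if_pos (mem_range.2 (Nat.mod_lt _ hN))]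
  push_cast
  ring

end level

end Pool.Agent.Y242.CK
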