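import Pool.Agent.Y242.CK.Avg
import Pool.Agent.Y242.CK.Lev

set_option autoImplicit false

/-!
# Moments of sums of Poisson kernels of dyadic levels
-/

namespace Pool.Agent.Y242.CK

open Finset Filter Topology MeasureTheory AddCircle ComplexConjugate

/-- The variable on the circle. -/
noncomputable def ez (t : Ci) : ℂ := fourier 1 t

lemma norm_ez (t : Ci) : ‖ez t‖ = 1 := by
  rw [ez, fourier_apply]
  exact Circle.norm_coe _

lemma cont_ez : Continuous ez := (fourier 1).continuous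

/-- The root of unity. -/
noncomputable def om (N : ℕ) : ℂ := Complex.exp (2 * Real.pi * Complex.I / (N : ℂ))

lemma om_prim {N : ℕ} (hN : 0 < N) : IsPrimitiveRoot (om N) N :=
  Complex.isPrimitiveRoot_exp N hN.ne'

lemma ez_add {N : ℕ} (hN : 0 < N) (t : Ci) (l : ℕ) : ez (t + fr N l) = ez t * om N ^ l := by
  rw [ez, fourier_add_arg, fourier_fr hN, om]
  simp [ez]

lemma norm_wz {w : ℂ} (hw : ‖w‖ < 1) {M : ℕ} (hM : 0 < M) (t : Ci) : ‖(w * ez t) ^ M‖ < 1 := by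
  rw [norm_pow, norm_mul, norm_ez, mul_one]
  exact pow_lt_one₀ (norm_nonneg _) hw hM.ne'

lemma one_sub_ne' {x : ℂ} (hx : ‖x‖ < 1) : 1 - x ≠ 0 := by
  intro h
  have : x = 1 := by linear_combination -h
  rw [this, norm_one] at hx
  exact lt_irrefl _ hx

/-- The function `1 / (1 - (w z)^M)`. -/
noncomputable def psi (M : ℕ) (w : ℂ) (t : Ci) : ℂ := 1 / (1 - (w * ez t) ^ M)

lemma cont_psi {w : ℂ} (hw : ‖w‖ < 1) {M : ℕ} (hM : 0 < M) : Continuous (psi M w) := by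
  unfold psi
  refine Continuous.div continuous_const ?_ fun t => one_sub_ne' (norm_wz hw hM t)
  have := cont_ez
  fun_prop

lemma avg_psi {w : ℂ} (hw : ‖w‖ < 1) {M s : ℕ} (hM : 0 < M) (hs : 0 < s) (t : Ci) :
    avg (M * s) (psi M w) t = psi (M * s) w t := by
  have hN : 0 < M * s := Nat.mul_pos hM hs
  obtain ⟨x, hx⟩ : ∃ x : ℂ, x = (w * ez t) ^ M := ⟨_, rfl⟩
  obtain ⟨η, hη⟩ : ∃ η : ℂ, η = om (M * s) ^ M := ⟨_, rfl⟩
  have hx1 : ‖x‖ < 1 := by
    rw [hx]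
    exact norm_wz hw hM t
  have hne2 : 1 - x ^ s ≠ 0 := one_sub_ne' (by
    rw [norm_pow]
    exact pow_lt_one₀ (norm_nonneg _) hx1 hs.ne')
  have hη1 : η ^ s = 1 := by
    rw [hη, ← pow_mul, (om_prim hN).pow_eq_one]
  have hηn : ‖η‖ = 1 := by
    rw [hη, norm_pow, (om_prim hN).norm'_eq_one hN.ne', one_pow]
  have h1 : ∀ l, psi M w (t + fr (M * s) l) =
      (1 / (1 - x ^ s)) * ∑ n ∈ range s, x ^ n * (om (M * s)) ^ (l * (M * n)) := by
    intro l
    have e1 : (w * ez (t + fr (M * s) l)) ^ M = x * η ^ l := by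
      rw [ez_add hN, hx, hη, ← mul_assoc, mul_pow, ← pow_mul, ← pow_mul, mul_comm l M]
    have hxl : ‖x * η ^ l‖ < 1 := by
      rw [norm_mul, norm_pow, hηn, one_pow, mul_one]
      exact hx1
    rw [psi, e1]
    have hne := one_sub_ne' hxl
    have hg := mul_neg_geom_sum (x * η ^ l) s
    have e2 : (x * η ^ l) ^ s = x ^ s := by
      rw [mul_pow, ← pow_mul, mul_comm l s, pow_mul, hη1, one_pow, mul_one]
    rw [e2] at hg
    have e3 : ∑ n ∈ range s, x ^ n * (om (M * s)) ^ (l * (M * n)) =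
        ∑ n ∈ range s, (x * η ^ l) ^ n := by
      refine sum_congr rfl fun n _ => ?_
      rw [mul_pow, ← pow_mul, hη, ← pow_mul]
      congr 2
      ring
    rw [e3, eq_comm, div_mul_eq_mul_div, one_mul, div_eq_div_iff hne2 hne]
    linear_combination hg
  rw [avg]
  simp_rw [h1]
  rw [← mul_sum, sum_comm]
  have h2 : ∀ n ∈ range s, ∑ l ∈ range (M * s), x ^ n * (om (M * s)) ^ (l * (M * n)) =
      if n = 0 then ((M * s : ℕ) : ℂ) else 0 := by
    intro n hn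
    rw [← mul_sum]
    have h3 := orth hN (om_prim hN) (M * n) 0
    simp only [mul_zero, pow_zero, map_one, mul_one] at h3
    rw [h3]
    have hn' := mem_range.1 hn
    have hlt : M * n < M * s := Nat.mul_lt_mul_of_pos_left hn' hM
    rw [Nat.mod_eq_of_lt hlt, Nat.zero_mod]
    by_cases h0 : n = 0
    · simp [h0]
    · rw [if_neg h0, if_neg, mul_zero]
      exact Nat.mul_ne_zero hM.ne' h0
  rw [sum_congr rfl h2, sum_ite_eq', if_pos (mem_range.2 hs), psi, Complex.real_smul, pow_mul, ← hx]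
  have hM' : (M : ℂ) ≠ 0 := by exact_mod_cast hM.ne'
  have hs' : (s : ℂ) ≠ 0 := by exact_mod_cast hs.ne'
  push_cast
  field_simp

/-- The Poisson kernel. -/
noncomputable def poi (M : ℕ) (w : ℂ) (t : Ci) : ℝ := 2 * (psi M w t).re - 1

lemma cont_poi {w : ℂ} (hw : ‖w‖ < 1) {M : ℕ} (hM : 0 < M) : Continuous (poi M w) := by
  unfold poi
  have := cont_psi hw hM
  fun_prop

lemma re_formula {x : ℂ} (hx : ‖x‖ < 1) : 2 * (1 / (1 - x)).re - 1 =
    (1 - ‖x‖ ^ 2) / ‖1 - x‖ ^ 2 := by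
  have hne := one_sub_ne' hx
  have h1 : 0 < ‖1 - x‖ ^ 2 := by
    have := norm_pos_iff.2 hne
    positivity
  rw [one_div, Complex.inv_re, ← Complex.sq_norm, eq_div_iff h1.ne', sub_mul, one_mul, mul_assoc,
    div_mul_cancel₀ _ h1.ne', Complex.sq_norm, Complex.sq_norm]
  simp only [Complex.normSq_apply, Complex.sub_re, Complex.sub_im, Complex.one_re, Complex.one_im]
  ring

lemma poi_nonneg {w : ℂ} (hw : ‖w‖ < 1) {M : ℕ} (hM : 0 < M) (t : Ci) : 0 ≤ poi M w t := by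
  have hx := norm_wz hw hM t
  rw [poi, psi, re_formula hx]
  have := norm_nonneg ((w * ez t) ^ M)
  apply div_nonneg _ (by positivity)
  nlinarith

lemma poi_le {ρ : ℝ} (h0 : 0 < ρ) (h1 : ρ < 1) {w : ℂ} (hw : ‖w‖ = 1 - ρ) {M : ℕ} (hM : 0 < M)
    (t : Ci) : poi M w t ≤ 1 + 2 / (M * ρ) := by
  have hw1 : ‖w‖ < 1 := by linarith
  have hx := norm_wz hw1 hM t
  set x := (w * ez t) ^ M with hxd
  have hxn : ‖x‖ = (1 - ρ) ^ M := by
    rw [hxd, norm_pow, norm_mul, norm_ez, mul_one, hw]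
  have hM' : (0 : ℝ) < M := by exact_mod_cast hM
  have hMρ : 0 < (M : ℝ) * ρ := by positivity
  have hp := pow_le h0 h1 M
  rw [← hxn] at hp
  have hx0 := norm_nonneg x
  have h2 : 1 - ‖x‖ ≤ ‖1 - x‖ := by
    have := norm_sub_norm_le (1 : ℂ) x
    rwa [norm_one] at this
  have h3 : 0 < 1 - ‖x‖ := by linarith
  rw [poi, psi, re_formula hx]
  have h4 : (1 - ‖x‖ ^ 2) / ‖1 - x‖ ^ 2 ≤ (1 - ‖x‖ ^ 2) / (1 - ‖x‖) ^ 2 := by
    apply div_le_div_of_nonneg_left _ (by positivity)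
    · exact pow_le_pow_left₀ h3.le h2 2
    · nlinarith
  refine h4.trans ?_
  have h5 : (1 - ‖x‖ ^ 2) / (1 - ‖x‖) ^ 2 = 1 + 2 * ‖x‖ / (1 - ‖x‖) := by
    field_simp
    ring
  rw [h5]
  have h6 : 2 * ‖x‖ / (1 - ‖x‖) ≤ 2 / (M * ρ) := by
    rw [div_le_div_iff₀ h3 hMρ]
    nlinarith
  linarith

lemma avg_poi {w : ℂ} (hw : ‖w‖ < 1) {M s : ℕ} (hM : 0 < M) (hs : 0 < s) (t : Ci) :
    avg (M * s) (poi M w) t = poi (M * s) w t := by
  have h := congrArg Complex.re (avg_psi hw hM hs t)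
  rw [poi, ← h]
  have hN : ((M * s : ℕ) : ℝ) ≠ 0 := by
    have := Nat.mul_pos hM hs
    positivity
  simp only [avg, poi, Complex.real_smul, Complex.re_ofReal_mul, Complex.re_sum, sum_sub_distrib,
    sum_const, card_range, nsmul_eq_mul, mul_one, ← mul_sum, smul_eq_mul]
  field_simp

end Pool.Agent.Y242.CK
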