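import Pool.Agent.Y242.CK.Blk

set_option autoImplicit false

/-!
# Blocks of levels reduce the norm by a fixed factor
-/

namespace Pool.Agent.Y242.CK

open Finset ComplexConjugate

/-- The primitive root of unity of order `2 ^ k`. -/
noncomputable def rt (k : ℕ) : ℂ := Complex.exp (2 * Real.pi * Complex.I / ((2 ^ k : ℕ) : ℂ))

lemma rt_prim (k : ℕ) : IsPrimitiveRoot (rt k) (2 ^ k) :=
  Complex.isPrimitiveRoot_exp (2 ^ k) (by positivity)

/-- The points, numbered from `1`: the points `2 ^ k, …, 2 ^ (k + 1) - 1` are the points of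
level `k`. -/
noncomputable def P (ρ : ℕ → ℝ) (m : ℕ) : ℂ :=
  pt (ρ (Nat.log 2 m)) (rt (Nat.log 2 m)) (m - 2 ^ Nat.log 2 m)

/-- Conditions on the distances to the circle. -/
structure Adm (ρ : ℕ → ℝ) : Prop where
  pos : ∀ k, 0 < ρ k
  le : ∀ k, (2 : ℝ) ^ k * ρ k ≤ 1 / 2
  div : ¬ Summable fun k => (2 : ℝ) ^ k * ρ k

section

variable {ρ : ℕ → ℝ} (h : Adm ρ)

include h

lemma Adm.lt_one (k : ℕ) : ρ k < 1 := by
  have h1 := h.le k
  have h2 : (1 : ℝ) ≤ 2 ^ k := one_le_pow₀ (by norm_num)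
  have h3 := h.pos k
  nlinarith

lemma Adm.exists_block (a : ℕ) : ∃ b, a < b ∧ 1 ≤ ∑ k ∈ Ico a b, (2 : ℝ) ^ k * ρ k ∧
    ∑ k ∈ Ico a b, (2 : ℝ) ^ k * ρ k ≤ 3 / 2 := by
  classical
  have hpos : ∀ k, 0 ≤ (2 : ℝ) ^ k * ρ k := fun k => by
    have := h.pos k
    positivity
  have hex : ∃ n, 1 ≤ ∑ k ∈ range n, (2 : ℝ) ^ (a + k) * ρ (a + k) := by
    by_contra hcon
    push Not at hcon
    apply h.div
    have h1 : Summable fun k => (2 : ℝ) ^ (a + k) * ρ (a + k) :=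
      summable_of_sum_range_le (fun k => hpos _) fun n => (hcon n).le
    have h2 : Summable fun k => (fun k => (2 : ℝ) ^ k * ρ k) (k + a) := by
      simpa [add_comm] using h1
    exact (summable_nat_add_iff a).1 h2
  set n := Nat.find hex with hn
  have hn1 := Nat.find_spec hex
  rw [← hn] at hn1
  have hn0 : n ≠ 0 := by
    intro h0
    rw [h0] at hn1
    simp at hn1
    linarith
  obtain ⟨m, hm⟩ := Nat.exists_eq_succ_of_ne_zero hn0
  have hm1 : ∑ k ∈ range m, (2 : ℝ) ^ (a + k) * ρ (a + k) < 1 := by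
    have := Nat.find_min hex (m := m) (by omega)
    exact not_le.1 this
  have hIco : ∀ n, ∑ k ∈ Ico a (a + n), (2 : ℝ) ^ k * ρ k =
      ∑ k ∈ range n, (2 : ℝ) ^ (a + k) * ρ (a + k) := by
    intro n
    rw [sum_Ico_eq_sum_range, Nat.add_sub_cancel_left]
  refine ⟨a + n, by omega, ?_, ?_⟩
  · rw [hIco]
    exact hn1
  · rw [hIco, hm, sum_range_succ]
    have := h.le (a + m)
    linarith

omit h in
lemma P_eq {k j : ℕ} (hj : j < 2 ^ k) : P ρ (2 ^ k + j) = pt (ρ k) (rt k) j := by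
  have h1 : Nat.log 2 (2 ^ k + j) = k :=
    Nat.log_eq_of_pow_le_of_lt_pow (Nat.le_add_right _ _) (by rw [pow_succ]; omega)
  rw [P, h1, Nat.add_sub_cancel_left]

/-- The combination of all kernels of the level `k`. -/
noncomputable def FL (g : ℕ → ℂ) (N0 : ℕ) (ρ : ℕ → ℝ) (k : ℕ) : E :=
  PV g N0 (ρ k) (rt k) (2 ^ k)

variable {g : ℕ → ℂ} {N0 a : ℕ}

lemma block_le (hN0 : N0 ≤ 2 ^ a) (hg : ∀ n, N0 ≤ n → g n = 0) (b : ℕ) (hab : a ≤ b) :
    ‖∑ k ∈ Ico a b, FL g N0 ρ k‖ ^ 2 ≤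
      ((∑ k ∈ Ico a b, (2 : ℝ) ^ k * ρ k) ^ 2 + 3 * ∑ k ∈ Ico a b, (2 : ℝ) ^ k * ρ k) *
        sq g N0 := by
  have hsq := sq_nonneg' g N0
  induction b, hab using Nat.le_induction with
  | base => simp
  | succ b hab ih =>
    rw [sum_Ico_succ_top hab, sum_Ico_succ_top hab]
    set Y := ∑ k ∈ Ico a b, FL g N0 ρ k with hY
    set L := ∑ k ∈ Ico a b, (2 : ℝ) ^ k * ρ k with hL
    set δ := (2 : ℝ) ^ b * ρ b with hδ
    have hN0b : ∀ k, a ≤ k → N0 ≤ 2 ^ k := fun k hk =>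
      hN0.trans (Nat.pow_le_pow_right (by norm_num) hk)
    have hin : ∀ k, a ≤ k → k ≤ b → ‖(inner ℂ (FL g N0 ρ k) (FL g N0 ρ b))‖ ≤
        (((2 : ℝ) ^ k * ρ k) * δ + 2 ^ k * ρ b) * sq g N0 := by
      intro k hk hkb
      have := inner_le (N := 2 ^ k) (N' := 2 ^ b) (by positivity) (rt_prim k) (h.pos k)
        (h.lt_one k) (by positivity) (rt_prim b) (h.pos b) (h.lt_one b) (hN0b k hk) hg
        (pow_dvd_pow 2 hkb)
      push_cast at this
      exact this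
    have hPP : ‖FL g N0 ρ b‖ ^ 2 ≤ (δ ^ 2 + δ) * sq g N0 := by
      have h1 := hin b hab le_rfl
      rw [inner_self_eq_norm_sq_to_K] at h1
      rw [norm_pow, RCLike.norm_ofReal, abs_norm] at h1
      calc ‖FL g N0 ρ b‖ ^ 2 ≤ _ := h1
        _ = _ := by rw [← hδ]; ring
    have hYP : ‖(inner ℂ (Y) (FL g N0 ρ b))‖ ≤ (L * δ + δ) * sq g N0 := by
      rw [hY, sum_inner]
      refine (norm_sum_le _ _).trans ?_
      refine (sum_le_sum fun k hk => hin k (mem_Ico.1 hk).1 (mem_Ico.1 hk).2.le).trans ?_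
      rw [← sum_mul, sum_add_distrib, ← sum_mul, ← sum_mul]
      refine mul_le_mul_of_nonneg_right (add_le_add le_rfl ?_) hsq
      rw [hδ]
      refine mul_le_mul_of_nonneg_right ?_ (h.pos b).le
      have h3 : ∑ k ∈ Ico a b, (2 : ℝ) ^ k ≤ ∑ k ∈ range b, (2 : ℝ) ^ k :=
        sum_le_sum_of_subset_of_nonneg (fun x hx => mem_range.2 (mem_Ico.1 hx).2)
          fun _ _ _ => by positivity
      have h4 : ∑ k ∈ range b, (2 : ℝ) ^ k = 2 ^ b - 1 := by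
        have := geom_sum_mul (2 : ℝ) b
        linarith
      linarith
    have hre : RCLike.re (inner ℂ (Y) (FL g N0 ρ b)) ≤ (L * δ + δ) * sq g N0 :=
      (RCLike.re_le_norm _).trans hYP
    rw [@norm_add_sq ℂ]
    nlinarith

/-- The residual of a block. -/
lemma resid_le (hN0 : 2 * N0 ≤ 2 ^ a) (hg : ∀ n, N0 ≤ n → g n = 0) (G : E)
    (hG : ∀ n, G n = g n) {b : ℕ} (hab : a ≤ b)
    (h1 : 1 ≤ ∑ k ∈ Ico a b, (2 : ℝ) ^ k * ρ k)
    (h2 : ∑ k ∈ Ico a b, (2 : ℝ) ^ k * ρ k ≤ 3 / 2) (hGn : ‖G‖ ^ 2 = sq g N0) :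
    ‖G - (1 / 14 : ℂ) • ∑ k ∈ Ico a b, FL g N0 ρ k‖ ≤ 99 / 100 * ‖G‖ := by
  have hsq := sq_nonneg' g N0
  set S := ∑ k ∈ Ico a b, FL g N0 ρ k with hS
  set L := ∑ k ∈ Ico a b, (2 : ℝ) ^ k * ρ k with hL
  have hSn : ‖S‖ ^ 2 ≤ 7 * sq g N0 := by
    refine (block_le h (by omega) hg b hab).trans ?_
    refine mul_le_mul_of_nonneg_right ?_ hsq
    rw [← hL]
    nlinarith
  have hGS : 1 / 2 * sq g N0 ≤ RCLike.re (inner ℂ (G) (S)) := by
    rw [hS, inner_sum, map_sum]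
    have h3 : ∀ k ∈ Ico a b, (2 : ℝ) ^ k * ρ k * (1 / 2 * sq g N0) ≤
        RCLike.re (inner ℂ (G) (FL g N0 ρ k)) := by
      intro k hk
      obtain ⟨hk1, hk2⟩ := mem_Ico.1 hk
      have hpow : (2 : ℕ) ^ a ≤ 2 ^ k := Nat.pow_le_pow_right (by norm_num) hk1
      have hN0k : N0 ≤ 2 ^ k := by omega
      have h4 : 4 * (N0 : ℝ) * ρ k ≤ 1 := by
        have h5 : 2 * (N0 : ℝ) ≤ 2 ^ k := by
          have : 2 * N0 ≤ 2 ^ k := by omega
          exact_mod_cast this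
        have h6 := h.le k
        have h7 := h.pos k
        nlinarith
      have := inner_ge (N := 2 ^ k) (by positivity) (rt_prim k) (h.pos k) (h.lt_one k) hN0k hg
        h4 G hG
      push_cast at this
      calc (2 : ℝ) ^ k * ρ k * (1 / 2 * sq g N0) = (2 : ℝ) ^ k * ρ k / 2 * sq g N0 := by ring
        _ ≤ _ := this
    have h5 := sum_le_sum h3
    rw [← sum_mul] at h5
    refine le_trans ?_ h5
    rw [← hL]
    nlinarith
  have hexp : ‖G - (1 / 14 : ℂ) • S‖ ^ 2 = ‖G‖ ^ 2 - 2 * (1 / 14 * RCLike.re (inner ℂ (G) (S))) +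
      (1 / 14) ^ 2 * ‖S‖ ^ 2 := by
    rw [@norm_sub_sq ℂ, inner_smul_right, norm_smul]
    have e1 : (1 / 14 : ℂ) = ((1 / 14 : ℝ) : ℂ) := by push_cast; ring
    rw [e1, Complex.norm_real]
    have e2 : RCLike.re (((1 / 14 : ℝ) : ℂ) * (inner ℂ (G) (S))) = 1 / 14 * RCLike.re (inner ℂ (G) (S)) :=
      Complex.re_ofReal_mul _ _
    rw [e2, Real.norm_eq_abs, abs_of_pos (by norm_num : (0 : ℝ) < 1 / 14)]
    ring
  have h6 : ‖G - (1 / 14 : ℂ) • S‖ ^ 2 ≤ (99 / 100 * ‖G‖) ^ 2 := by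
    rw [hexp, mul_pow, hGn]
    nlinarith
  exact (pow_le_pow_iff_left₀ (norm_nonneg _) (by positivity) two_ne_zero).1 h6

/-- The coefficients of a block. -/
noncomputable def cf (g : ℕ → ℂ) (N0 : ℕ) (ρ : ℕ → ℝ) (a b m : ℕ) : ℂ :=
  if 2 ^ a ≤ m ∧ m < 2 ^ b then
    (1 / 14 : ℂ) * ((ρ (Nat.log 2 m) : ℂ) * ev g N0 (P ρ m)) else 0

omit h in
lemma sum_level {b k J : ℕ} (hak : a ≤ k) (hkb : k < b) (hJ : J ≤ 2 ^ k) :
    ∑ m ∈ Ico (2 ^ k) (2 ^ k + J), cf g N0 ρ a b m • kv (P ρ m) =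
      (1 / 14 : ℂ) • PV g N0 (ρ k) (rt k) J := by
  rw [sum_Ico_eq_sum_range, Nat.add_sub_cancel_left, PV, smul_sum]
  refine sum_congr rfl fun j hj => ?_
  have hj' : j < 2 ^ k := lt_of_lt_of_le (mem_range.1 hj) hJ
  have h1 : Nat.log 2 (2 ^ k + j) = k :=
    Nat.log_eq_of_pow_le_of_lt_pow (Nat.le_add_right _ _) (by rw [pow_succ]; omega)
  have h2 : 2 ^ a ≤ 2 ^ k + j :=
    (Nat.pow_le_pow_right (by norm_num) hak).trans (Nat.le_add_right _ _)
  have h3 : 2 ^ k + j < 2 ^ b := by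
    have : 2 ^ (k + 1) ≤ 2 ^ b := Nat.pow_le_pow_right (by norm_num) hkb
    rw [pow_succ] at this
    omega
  rw [cf, if_pos ⟨h2, h3⟩, h1, P_eq hj', smul_smul]

omit h in
lemma sum_block {b k : ℕ} (hak : a ≤ k) (hkb : k ≤ b) :
    ∑ m ∈ Ico (2 ^ a) (2 ^ k), cf g N0 ρ a b m • kv (P ρ m) =
      (1 / 14 : ℂ) • ∑ i ∈ Ico a k, FL g N0 ρ i := by
  induction k, hak using Nat.le_induction with
  | base => simp
  | succ k hak ih =>
    have h1 : 2 ^ a ≤ 2 ^ k := Nat.pow_le_pow_right (by norm_num) hak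
    have h2 : 2 ^ k ≤ 2 ^ (k + 1) := Nat.pow_le_pow_right (by norm_num) (Nat.le_succ k)
    rw [← sum_Ico_consecutive _ h1 h2, ih (by omega), sum_Ico_succ_top hak, smul_add]
    congr 1
    have := sum_level (g := g) (N0 := N0) (ρ := ρ) (a := a) (b := b) hak (by omega) (le_refl (2 ^ k))
    rw [FL, ← this]
    congr 2
    rw [pow_succ]
    ring

/-- Partial sums of a block. -/
lemma partial_le (hN0 : N0 ≤ 2 ^ a) (hg : ∀ n, N0 ≤ n → g n = 0) {b : ℕ}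
    (h2 : ∑ k ∈ Ico a b, (2 : ℝ) ^ k * ρ k ≤ 3 / 2) {G : ℝ} (hG0 : 0 ≤ G)
    (hGn : G ^ 2 = sq g N0) {t : ℕ} (ht : t ≤ 2 ^ b) :
    ‖∑ m ∈ Ico (2 ^ a) t, cf g N0 ρ a b m • kv (P ρ m)‖ ≤ G := by
  have hsq := sq_nonneg' g N0
  rcases le_or_gt t (2 ^ a) with hta | hta
  · rw [Ico_eq_empty_of_le hta, sum_empty, norm_zero]
    exact hG0
  have ht0 : t ≠ 0 := by
    have : 0 < 2 ^ a := by positivity
    omega
  set k := Nat.log 2 t with hk
  have hk1 : 2 ^ k ≤ t := Nat.pow_log_le_self 2 ht0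
  have hk2 : t < 2 ^ (k + 1) := Nat.lt_pow_succ_log_self (by norm_num) t
  have hak : a ≤ k := by
    by_contra hcon
    have : 2 ^ (k + 1) ≤ 2 ^ a := Nat.pow_le_pow_right (by norm_num) (by omega)
    omega
  have hkb : k ≤ b := by
    by_contra hcon
    have : 2 ^ (b + 1) ≤ 2 ^ k := Nat.pow_le_pow_right (by norm_num) (by omega)
    rw [pow_succ] at this
    have : 0 < 2 ^ b := by positivity
    omega
  have hY : ‖∑ i ∈ Ico a k, FL g N0 ρ i‖ ≤ 3 * G := by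
    have h3 := block_le h hN0 hg k hak
    have h4 : ∑ i ∈ Ico a k, (2 : ℝ) ^ i * ρ i ≤ ∑ i ∈ Ico a b, (2 : ℝ) ^ i * ρ i :=
      sum_le_sum_of_subset_of_nonneg (Ico_subset_Ico_right hkb) fun i _ _ => by
        have := h.pos i
        positivity
    have h5 : 0 ≤ ∑ i ∈ Ico a k, (2 : ℝ) ^ i * ρ i := sum_nonneg fun i _ => by
      have := h.pos i
      positivity
    set L := ∑ i ∈ Ico a k, (2 : ℝ) ^ i * ρ i
    have hL : L ≤ 3 / 2 := h4.trans h2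
    have h6 : L ^ 2 + 3 * L ≤ 9 := by nlinarith
    have h7 : ‖∑ i ∈ Ico a k, FL g N0 ρ i‖ ^ 2 ≤ (3 * G) ^ 2 := by
      refine h3.trans ?_
      rw [mul_pow, hGn]
      nlinarith
    exact (pow_le_pow_iff_left₀ (norm_nonneg _) (by positivity) two_ne_zero).1 h7
  obtain ⟨J, hJ⟩ := Nat.exists_eq_add_of_le hk1
  have h1 : 2 ^ a ≤ 2 ^ k := Nat.pow_le_pow_right (by norm_num) hak
  have hn14 : ‖(1 / 14 : ℂ)‖ = 1 / 14 := by
    rw [norm_div, norm_one]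
    norm_num
  rw [← sum_Ico_consecutive _ h1 hk1, sum_block hak hkb]
  refine (norm_add_le _ _).trans ?_
  rw [norm_smul, hn14]
  have hlast : ‖∑ m ∈ Ico (2 ^ k) t, cf g N0 ρ a b m • kv (P ρ m)‖ ≤ 1 / 14 * (2 * G) := by
    rcases lt_or_eq_of_le hkb with hkb' | hkb'
    · rw [hJ, sum_level hak hkb' (by rw [pow_succ] at hk2; omega), norm_smul, hn14]
      refine mul_le_mul_of_nonneg_left ?_ (by norm_num)
      have h3 := part_le (N := 2 ^ k) (by positivity) (rt_prim k) (h.pos k) (h.lt_one k)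
        (hN0.trans h1) hg (by push_cast; linarith [h.le k])
        (show J ≤ 2 ^ k by rw [pow_succ] at hk2; omega)
      have h7 : ‖PV g N0 (ρ k) (rt k) J‖ ^ 2 ≤ (2 * G) ^ 2 := by
        refine h3.trans ?_
        rw [mul_pow, hGn]
        nlinarith
      exact (pow_le_pow_iff_left₀ (norm_nonneg _) (by positivity) two_ne_zero).1 h7
    · have : t = 2 ^ k := by
        rw [hkb'] at hk1 ⊢
        omega
      rw [this, Ico_self, sum_empty, norm_zero]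
      positivity
  linarith

/-- **One step.** -/
lemma one_step (f : E) (m₀ : ℕ) : ∃ m₁, m₀ < m₁ ∧ ∃ c : ℕ → ℂ,
    ‖f - ∑ m ∈ Ico m₀ m₁, c m • kv (P ρ m)‖ ≤ 995 / 1000 * ‖f‖ ∧
    ∀ t, m₀ ≤ t → t ≤ m₁ → ‖∑ m ∈ Ico m₀ t, c m • kv (P ρ m)‖ ≤ ‖f‖ := by
  classical
  rcases eq_or_ne f 0 with hf | hf
  · refine ⟨m₀ + 1, Nat.lt_succ_self _, fun _ => 0, ?_, ?_⟩ <;> simp [hf]
  have hf0 : 0 < ‖f‖ := norm_pos_iff.2 hf
  have htend := (lp.hasSum_single (p := 2) (by norm_num) f).tendsto_sum_nat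
  have hev := (Metric.tendsto_atTop.1 htend) (1 / 200 * ‖f‖) (by positivity)
  obtain ⟨N0, hN0⟩ := hev
  have hd := hN0 N0 le_rfl
  set G : E := ∑ i ∈ range N0, lp.single 2 i (f i) with hG
  set g : ℕ → ℂ := fun n => if n < N0 then f n else 0 with hg
  have hGg : ∀ n, G n = g n := by
    intro n
    rw [hG, lp.coeFn_sum, Finset.sum_apply]
    simp only [lp.single_apply, Pi.single_apply, hg]
    rw [sum_ite_eq]
    simp only [mem_range]
  have hgz : ∀ n, N0 ≤ n → g n = 0 := by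
    intro n hn
    rw [hg]
    simp [not_lt.2 hn]
  have hGn : ‖G‖ ^ 2 = sq g N0 := by
    rw [nsq, sq, tsum_eq_sum (s := range N0) (fun n hn => by
      rw [hGg, hgz n (by simpa using hn)]; simp)]
    exact sum_congr rfl fun n _ => by rw [hGg]
  have hGf : ‖G‖ ≤ ‖f‖ := by
    have h1 : ‖G‖ ^ 2 ≤ ‖f‖ ^ 2 := by
      rw [hGn, nsq f, sq]
      calc ∑ a ∈ range N0, ‖g a‖ ^ 2 = ∑ a ∈ range N0, ‖f a‖ ^ 2 := by
            refine sum_congr rfl fun a ha => ?_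
            rw [hg]
            simp only [mem_range.1 ha, if_true]
        _ ≤ _ := (summ f).sum_le_tsum _ fun _ _ => by positivity
    exact (pow_le_pow_iff_left₀ (norm_nonneg _) (norm_nonneg _) two_ne_zero).1 h1
  set a := 2 * N0 + m₀ + 1 with ha
  have hapow : a < 2 ^ a := Nat.lt_two_pow_self
  obtain ⟨b, hab, hb1, hb2⟩ := h.exists_block a
  have hm0 : m₀ ≤ 2 ^ a := by omega
  have hab' : 2 ^ a < 2 ^ b := Nat.pow_lt_pow_right (by norm_num) hab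
  refine ⟨2 ^ b, by omega, cf g N0 ρ a b, ?_, ?_⟩
  · have h1 : ∑ m ∈ Ico m₀ (2 ^ b), cf g N0 ρ a b m • kv (P ρ m) =
        (1 / 14 : ℂ) • ∑ i ∈ Ico a b, FL g N0 ρ i := by
      rw [← sum_block hab.le le_rfl, ← sum_Ico_consecutive _ hm0 hab'.le]
      rw [sum_eq_zero (s := Ico m₀ (2 ^ a)), zero_add]
      intro m hm
      rw [cf, if_neg (by rw [mem_Ico] at hm; omega), zero_smul]
    rw [h1]
    have h2 := resid_le h (by omega) hgz G hGg hab.le hb1 hb2 hGn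
    have h3 : f - (1 / 14 : ℂ) • ∑ i ∈ Ico a b, FL g N0 ρ i =
        (f - G) + (G - (1 / 14 : ℂ) • ∑ i ∈ Ico a b, FL g N0 ρ i) := by abel
    rw [h3]
    refine (norm_add_le _ _).trans ?_
    rw [dist_eq_norm, norm_sub_rev] at hd
    linarith
  · intro t ht1 ht2
    rcases le_or_gt t (2 ^ a) with hta | hta
    · rw [sum_eq_zero, norm_zero]
      · exact norm_nonneg _
      · intro m hm
        rw [cf, if_neg (by rw [mem_Ico] at hm; omega), zero_smul]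
    · rw [← sum_Ico_consecutive _ hm0 hta.le]
      rw [sum_eq_zero (s := Ico m₀ (2 ^ a)), zero_add]
      · exact (partial_le h (by omega) hgz hb2 (norm_nonneg G) hGn ht2).trans hGf
      · intro m hm
        rw [cf, if_neg (by rw [mem_Ico] at hm; omega), zero_smul]

end

end Pool.Agent.Y242.CK
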