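import Pool.Agent.Y242.CK.Mom
import Pool.Agent.Y242.CK.Step

set_option autoImplicit false

/-!
# Moments: ordered products
-/

namespace Pool.Agent.Y242.CK

open Finset Filter Topology MeasureTheory AddCircle ComplexConjugate

lemma integR (F : C(Ci, ℝ)) : Integrable F haarAddCircle :=
  F.continuous.integrable_of_hasCompactSupport (HasCompactSupport.of_compactSpace _)

section

variable {ρ : ℕ → ℝ} (h : Adm ρ)

/-- The real number `1 - ρ k` as a complex number. -/
noncomputable def wk (ρ : ℕ → ℝ) (k : ℕ) : ℂ := ((1 - ρ k : ℝ) : ℂ)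

include h in
lemma norm_wk (k : ℕ) : ‖wk ρ k‖ = 1 - ρ k := by
  rw [wk, Complex.norm_real, Real.norm_eq_abs, abs_of_pos (by linarith [h.lt_one k])]

include h in
lemma wk_lt (k : ℕ) : ‖wk ρ k‖ < 1 := by
  rw [norm_wk h]
  linarith [h.pos k]

/-- The normalised Poisson kernel of the level `k`. -/
noncomputable def xk (k : ℕ) : C(Ci, ℝ) :=
  ⟨fun t => 2 ^ k * ρ k * poi (2 ^ k) (wk ρ k) t,
    continuous_const.mul (cont_poi (wk_lt h k) (by positivity))⟩

lemma xk_apply (k : ℕ) (t : Ci) : xk h k t = 2 ^ k * ρ k * poi (2 ^ k) (wk ρ k) t := rfl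

lemma xk_nonneg (k : ℕ) (t : Ci) : 0 ≤ xk h k t := by
  rw [xk_apply]
  have := h.pos k
  have := poi_nonneg (wk_lt h k) (M := 2 ^ k) (by positivity) t
  positivity

lemma pow_fr {w : ℂ} {j k : ℕ} (hjk : j ≤ k) (t : Ci) (l : ℕ) :
    (w * ez (t + fr (2 ^ j) l)) ^ (2 ^ k) = (w * ez t) ^ (2 ^ k) := by
  rw [ez_add (by positivity), ← mul_assoc, mul_pow, ← pow_mul (om (2 ^ j))]
  obtain ⟨d, hd⟩ := pow_dvd_pow 2 hjk
  have h1 : om (2 ^ j) ^ (l * 2 ^ k) = 1 := by
    rw [hd, ← mul_assoc, mul_comm l, mul_assoc, pow_mul, (om_prim (by positivity)).pow_eq_one,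
      one_pow]
  rw [h1, mul_one]

lemma xk_per {j k : ℕ} (hjk : j ≤ k) (t : Ci) (l : ℕ) : xk h k (t + fr (2 ^ j) l) = xk h k t := by
  rw [xk_apply, xk_apply, poi, poi, psi, psi, pow_fr hjk]

lemma avg_xk_le {k k' : ℕ} (hk : k ≤ k') (t : Ci) :
    avg (2 ^ k') (xk h k) t ≤ 2 ^ k * ρ k + 2 * 2 ^ k / 2 ^ k' := by
  obtain ⟨d, hd⟩ := Nat.exists_eq_add_of_le hk
  have e1 : avg (2 ^ k') (xk h k) t = 2 ^ k * ρ k * avg (2 ^ k') (poi (2 ^ k) (wk ρ k)) t := by
    rw [avg, avg]
    simp only [xk_apply, smul_eq_mul, ← mul_sum]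
    ring
  have e2 : (2 : ℕ) ^ k' = 2 ^ k * 2 ^ d := by rw [hd, pow_add]
  rw [e1, e2, avg_poi (wk_lt h k) (by positivity) (by positivity), ← e2]
  have h1 := poi_le (h.pos k) (h.lt_one k) (norm_wk h k) (M := 2 ^ k') (by positivity) t
  have h2 := h.pos k
  push_cast at h1
  calc (2 : ℝ) ^ k * ρ k * poi (2 ^ k') (wk ρ k) t ≤ 2 ^ k * ρ k * (1 + 2 / (2 ^ k' * ρ k)) := by
        gcongr
    _ = _ := by
        field_simp

/-- Ordered products. -/
noncomputable def So (b : ℕ) : ℕ → ℕ → C(Ci, ℝ)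
  | 0, _ => 1
  | m + 1, j => ∑ i ∈ Ico j b, xk h i * So b m i

lemma So_zero (b j : ℕ) (t : Ci) : So h b 0 j t = 1 := rfl

lemma So_succ (b m j : ℕ) (t : Ci) :
    So h b (m + 1) j t = ∑ i ∈ Ico j b, xk h i t * So h b m i t := by
  rw [So]
  simp

lemma So_nonneg (b m j : ℕ) (t : Ci) : 0 ≤ So h b m j t := by
  induction m generalizing j with
  | zero => rw [So_zero]; norm_num
  | succ m ih =>
    rw [So_succ]
    exact sum_nonneg fun i _ => mul_nonneg (xk_nonneg h i t) (ih i)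

lemma So_per (b m : ℕ) {j j' : ℕ} (hj : j' ≤ j) (t : Ci) (l : ℕ) :
    So h b m j (t + fr (2 ^ j') l) = So h b m j t := by
  induction m generalizing j with
  | zero => rw [So_zero, So_zero]
  | succ m ih =>
    rw [So_succ, So_succ]
    refine sum_congr rfl fun i hi => ?_
    have := (mem_Ico.1 hi).1
    rw [xk_per h (by omega), ih (by omega)]

/-- The moments of ordered products. -/
noncomputable def em (b m i : ℕ) : ℝ := ∫ t, xk h i t * So h b m i t ∂haarAddCircle

lemma em_nonneg (b m i : ℕ) : 0 ≤ em h b m i :=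
  integral_nonneg fun t => mul_nonneg (xk_nonneg h i t) (So_nonneg h b m i t)

lemma pair_le (b m : ℕ) {i i' : ℕ} (hi : i ≤ i') :
    ∫ t, xk h i t * (xk h i' t * So h b m i' t) ∂haarAddCircle ≤
      (2 ^ i * ρ i + 2 * 2 ^ i / 2 ^ i') * em h b m i' := by
  have h1 := integral_mul_avg (N := 2 ^ i') (by positivity) (xk h i) (xk h i' * So h b m i')
    (fun t l => by
      rw [ContinuousMap.mul_apply, ContinuousMap.mul_apply, xk_per h le_rfl, So_per h b m le_rfl])
  simp only [ContinuousMap.mul_apply] at h1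
  rw [h1, em, ← integral_const_mul]
  refine integral_mono ?_ ((integR (xk h i' * So h b m i')).const_mul _) fun t => ?_
  · have hc : Continuous fun t => avg (2 ^ i') (xk h i) t * (xk h i' t * So h b m i' t) := by
      unfold avg
      fun_prop
    exact integR ⟨_, hc⟩
  · exact mul_le_mul_of_nonneg_right (avg_xk_le h hi t)
      (mul_nonneg (xk_nonneg h i' t) (So_nonneg h b m i' t))

lemma int_xk_le (i : ℕ) : ∫ t, xk h i t ∂haarAddCircle ≤ 2 ^ i * ρ i := by
  refine le_of_forall_pos_le_add fun ε hε => ?_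
  obtain ⟨n, hn⟩ := exists_nat_gt (2 * 2 ^ i / ε)
  have h0 : (0 : ℝ) < 2 * 2 ^ i / ε := by positivity
  have h1 : 2 * 2 ^ i / 2 ^ (i + n) ≤ ε := by
    have h2 : (n : ℝ) ≤ 2 ^ (i + n) := by
      have h3 : n < 2 ^ n := Nat.lt_two_pow_self
      have h4 : (2 : ℕ) ^ n ≤ 2 ^ (i + n) := Nat.pow_le_pow_right (by norm_num) (by omega)
      exact_mod_cast (h3.le.trans h4)
    rw [div_le_iff₀ (by positivity)]
    rw [div_lt_iff₀ hε] at hn
    nlinarith
  have h2 := integral_mul_avg (N := 2 ^ (i + n)) (by positivity) (xk h i) 1 (fun t l => rfl)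
  simp only [ContinuousMap.one_apply, mul_one] at h2
  rw [h2]
  have h3 : ∫ t, avg (2 ^ (i + n)) (xk h i) t ∂haarAddCircle ≤
      ∫ _t : Ci, (2 ^ i * ρ i + ε) ∂haarAddCircle := by
    refine integral_mono ?_ (integrable_const _) fun t => ?_
    · have hc : Continuous fun t => avg (2 ^ (i + n)) (xk h i) t := by
        unfold avg
        fun_prop
      exact integR ⟨_, hc⟩
    · exact (avg_xk_le h (Nat.le_add_right i n) t).trans (by linarith)
  simpa using h3

variable (a b : ℕ)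

/-- The sum of the moments. -/
noncomputable def Em (m : ℕ) : ℝ := ∑ i ∈ Ico a b, em h b m i

lemma Em_zero : Em h a b 0 ≤ ∑ k ∈ Ico a b, (2 : ℝ) ^ k * ρ k := by
  refine sum_le_sum fun i _ => ?_
  rw [em]
  simp only [So_zero, mul_one]
  exact int_xk_le h i

lemma Em_succ (m : ℕ) : Em h a b (m + 1) ≤
    (∑ k ∈ Ico a b, (2 : ℝ) ^ k * ρ k + 4) * Em h a b m := by
  have h1 : ∀ i, em h b (m + 1) i ≤
      ∑ i' ∈ Ico i b, (2 ^ i * ρ i + 2 * 2 ^ i / 2 ^ i') * em h b m i' := by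
    intro i
    have e1 : em h b (m + 1) i =
        ∑ i' ∈ Ico i b, ∫ t, xk h i t * (xk h i' t * So h b m i' t) ∂haarAddCircle := by
      rw [em, ← integral_finsetSum]
      · refine integral_congr_ae (Eventually.of_forall fun t => ?_)
        simp only
        rw [So_succ, mul_sum]
      · intro i' _
        exact integR (xk h i * (xk h i' * So h b m i'))
    rw [e1]
    exact sum_le_sum fun i' hi' => pair_le h b m (mem_Ico.1 hi').1
  rw [Em]
  refine (sum_le_sum fun i _ => h1 i).trans ?_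
  rw [sum_Ico_Ico_comm, Em, mul_sum]
  refine sum_le_sum fun j hj => ?_
  obtain ⟨hj1, hj2⟩ := mem_Ico.1 hj
  rw [← sum_mul]
  refine mul_le_mul_of_nonneg_right ?_ (em_nonneg h b m j)
  rw [sum_add_distrib]
  refine add_le_add ?_ ?_
  · exact sum_le_sum_of_subset_of_nonneg (Ico_subset_Ico_right (by omega)) fun k _ _ => by
      have := h.pos k
      positivity
  · rw [← sum_div, ← mul_sum, div_le_iff₀ (by positivity)]
    have h3 : ∑ k ∈ Ico a (j + 1), (2 : ℝ) ^ k ≤ ∑ k ∈ range (j + 1), (2 : ℝ) ^ k :=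
      sum_le_sum_of_subset_of_nonneg (fun x hx => mem_range.2 (mem_Ico.1 hx).2)
        fun _ _ _ => by positivity
    have h4 : ∑ k ∈ range (j + 1), (2 : ℝ) ^ k = 2 ^ (j + 1) - 1 := by
      have := geom_sum_mul (2 : ℝ) (j + 1)
      linarith
    rw [pow_succ] at h4
    linarith

lemma Em_le (m : ℕ) : Em h a b m ≤ (∑ k ∈ Ico a b, (2 : ℝ) ^ k * ρ k) *
    (∑ k ∈ Ico a b, (2 : ℝ) ^ k * ρ k + 4) ^ m := by
  have hL : 0 ≤ ∑ k ∈ Ico a b, (2 : ℝ) ^ k * ρ k := sum_nonneg fun k _ => by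
    have := h.pos k
    positivity
  induction m with
  | zero => simpa using Em_zero h a b
  | succ m ih =>
    calc Em h a b (m + 1) ≤ (∑ k ∈ Ico a b, (2 : ℝ) ^ k * ρ k + 4) * Em h a b m := Em_succ h a b m
      _ ≤ (∑ k ∈ Ico a b, (2 : ℝ) ^ k * ρ k + 4) * ((∑ k ∈ Ico a b, (2 : ℝ) ^ k * ρ k) *
          (∑ k ∈ Ico a b, (2 : ℝ) ^ k * ρ k + 4) ^ m) := by gcongr
      _ = _ := by ring

lemma pow_sub_le {X y : ℝ} (hy : 0 ≤ y) (hX : y ≤ X) (m : ℕ) :
    X ^ (m + 1) ≤ y ^ (m + 1) + (m + 1) * (X - y) * X ^ m := by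
  induction m with
  | zero => simp
  | succ m ih =>
    have h1 : y ^ (m + 1) ≤ X ^ (m + 1) := pow_le_pow_left₀ hy hX _
    have hX0 : 0 ≤ X := hy.trans hX
    have h2 := mul_le_mul_of_nonneg_left ih hX0
    push_cast
    calc X ^ (m + 1 + 1) = X * X ^ (m + 1) := by ring
      _ ≤ X * (y ^ (m + 1) + (m + 1) * (X - y) * X ^ m) := h2
      _ = y ^ (m + 1 + 1) + (X - y) * y ^ (m + 1) + (m + 1) * (X - y) * X ^ (m + 1) := by ring
      _ ≤ y ^ (m + 1 + 1) + (X - y) * X ^ (m + 1) + (m + 1) * (X - y) * X ^ (m + 1) := by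
          have : 0 ≤ X - y := by linarith
          gcongr
      _ = _ := by ring

lemma pow_le_So (m : ℕ) (t : Ci) : ∀ d j, j + d = b →
    (∑ i ∈ Ico j b, xk h i t) ^ m ≤ m.factorial * So h b m j t := by
  induction m with
  | zero =>
    intro d j _
    rw [So_zero]
    simp
  | succ m ih =>
    intro d
    induction d with
    | zero =>
      intro j hj
      have : Ico j b = ∅ := Ico_eq_empty_of_le (by omega)
      rw [So_succ, this]
      simp
    | succ d ihd =>
      intro j hj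
      have hjb : j < b := by omega
      have h1 := ihd (j + 1) (by omega)
      have h2 := ih (d + 1) j hj
      rw [So_succ] at h1
      rw [So_succ, sum_eq_sum_Ico_succ_bot hjb, sum_eq_sum_Ico_succ_bot hjb]
      rw [sum_eq_sum_Ico_succ_bot hjb] at h2
      set y := ∑ i ∈ Ico (j + 1) b, xk h i t with hy
      have hy0 : 0 ≤ y := sum_nonneg fun i _ => xk_nonneg h i t
      have hx0 := xk_nonneg h j t
      have h3 := pow_sub_le hy0 (by linarith : y ≤ xk h j t + y) m
      have e1 : xk h j t + y - y = xk h j t := by ring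
      rw [e1] at h3
      refine h3.trans ?_
      rw [Nat.factorial_succ]
      push_cast at h1 ⊢
      rw [Nat.factorial_succ] at h1
      push_cast at h1
      have h4 : ((m : ℝ) + 1) * xk h j t * (xk h j t + y) ^ m ≤
          ((m : ℝ) + 1) * xk h j t * (m.factorial * So h b m j t) := by gcongr
      linarith

/-- **The moment bound.** -/
lemma moment (hab : a ≤ b) (m : ℕ) :
    ∫ t, (∑ i ∈ Ico a b, xk h i t) ^ (m + 1) ∂haarAddCircle ≤
      (m + 1).factorial * ((∑ k ∈ Ico a b, (2 : ℝ) ^ k * ρ k) *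
        (∑ k ∈ Ico a b, (2 : ℝ) ^ k * ρ k + 4) ^ m) := by
  have h1 : ∫ t, (∑ i ∈ Ico a b, xk h i t) ^ (m + 1) ∂haarAddCircle ≤
      ∫ t, (m + 1).factorial * So h b (m + 1) a t ∂haarAddCircle := by
    refine integral_mono ?_ ((integR (So h b (m + 1) a)).const_mul _) fun t => ?_
    · exact integR ⟨fun t => (∑ i ∈ Ico a b, xk h i t) ^ (m + 1), by fun_prop⟩
    · exact pow_le_So h b (m + 1) t (b - a) a (by omega)
  refine h1.trans ?_
  rw [integral_const_mul]
  refine mul_le_mul_of_nonneg_left ?_ (by positivity)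
  have e1 : ∫ t, So h b (m + 1) a t ∂haarAddCircle = Em h a b m := by
    simp_rw [So_succ]
    rw [integral_finsetSum]
    · rfl
    · intro i _
      exact integR (xk h i * So h b m i)
  rw [e1]
  exact Em_le h a b m

end

end Pool.Agent.Y242.CK
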