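import Pool.Agent.Y242.CK.Sharp

set_option autoImplicit false

/-!
# Necessity of the failure of the Blaschke condition in all `H^p`
-/

namespace Pool.Agent.Y242.CK

open Finset MeasureTheory AddCircle ComplexConjugate Filter Topology
open Pool.Agent.H155R3 (DD cker cker_apply muT)
open Pool.Agent.Results.MP_459ac8_an.ZeroDensity (Circ cauchyKernel MemHardy IsRepresenting)
open scoped ENNReal

/-- Necessity, for general bounds. -/
theorem necessity2 (L : ℕ → ℂ) (hL : ∀ i, ‖L i‖ < 1)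
    (hrep : ∀ ν : ℂ, ‖ν‖ < 1 → ∃ d : ℕ → ℝ, Tendsto d atTop (𝓝 0) ∧
      ∀ N, ∏ l ∈ range N, ‖bl (L l) ν‖ ≤ d N) :
    ¬ Summable fun n => 1 - ‖L n‖ := by
  intro hsum
  -- a point that is none of the points
  obtain ⟨ν, hν, hνL⟩ : ∃ ν : ℂ, ‖ν‖ < 1 / 2 ∧ ∀ n, L n ≠ ν := by
    have hd := (Set.countable_range L).dense_compl ℝ
    obtain ⟨ν, h1, h2⟩ := hd.exists_mem_open Metric.isOpen_ball
      (⟨0, Metric.mem_ball_self (by norm_num)⟩ : (Metric.ball (0 : ℂ) (1 / 2)).Nonempty)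
    refine ⟨ν, by simpa using h2, fun n hn => h1 ⟨n, hn⟩⟩
  have hν1 : ‖ν‖ < 1 := by linarith
  set a : ℕ → ℝ := fun n => 1 - ‖bl (L n) ν‖ with ha
  have ha0 : ∀ n, 0 ≤ a n := fun n => by
    have := (bl_lower (hL n) hν.le).2
    rw [ha]
    simp only
    linarith
  have ha1 : ∀ n, a n ≤ 1 := fun n => by
    rw [ha]
    simp only
    linarith [norm_nonneg (bl (L n) ν)]
  have hasum : Summable a :=
    Summable.of_nonneg_of_le ha0 (fun n => (bl_lower (hL n) hν.le).1) (hsum.mul_left 8)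
  have hpos : ∀ n, 0 < 1 - a n := by
    intro n
    have h1 : bl (L n) ν ≠ 0 := by
      rw [bl]
      refine div_ne_zero ?_ (one_sub_ne (hL n) hν1)
      rw [← map_sub]
      intro h2
      have h3 : L n - ν = 0 := by
        have := congrArg conj h2
        simpa using this
      exact hνL n (sub_eq_zero.1 h3)
    have := norm_pos_iff.2 h1
    rw [ha]
    simp only
    linarith
  have htail := tendsto_sum_nat_add a
  obtain ⟨l₀, hl₀⟩ := ((tendsto_order.1 htail).2 (1 / 2) (by norm_num)).exists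
  have hlow : ∀ M : ℕ, (∏ n ∈ range l₀, (1 - a n)) * (1 / 2) ≤ ∏ n ∈ range (l₀ + M), (1 - a n) := by
    intro M
    rw [prod_range_add]
    refine mul_le_mul_of_nonneg_left ?_ (prod_nonneg fun n _ => (hpos n).le)
    have h1 := prod_ge (fun n => a (l₀ + n)) (fun n => ha0 _) (fun n => ha1 _) M
    have hs : Summable fun n => a (n + l₀) := (summable_nat_add_iff l₀).2 hasum
    have h2 : ∑ n ∈ range M, a (l₀ + n) ≤ ∑' n, a (n + l₀) := by
      have := hs.sum_le_tsum (range M) (fun n _ => ha0 _)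
      simpa [add_comm] using this
    linarith
  obtain ⟨d, hc, hdd⟩ := hrep ν hν1
  set κ := (∏ n ∈ range l₀, (1 - a n)) * (1 / 2) with hκ
  have hκ0 : 0 < κ := mul_pos (prod_pos fun n _ => hpos n) (by norm_num)
  obtain ⟨N₀, hN₀⟩ := ((tendsto_order.1 hc).2 κ hκ0).exists_forall_of_atTop
  have h5 := hN₀ (l₀ + N₀) (Nat.le_add_left _ _)
  have h6 := hdd (l₀ + N₀)
  have h7 := hlow N₀
  have h8 : ∏ n ∈ range (l₀ + N₀), (1 - a n) = ∏ l ∈ range (l₀ + N₀), ‖bl (L l) ν‖ := by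
    refine prod_congr rfl fun n _ => ?_
    rw [ha]
    simp
  rw [h8] at h7
  linarith


section

variable (L : ℕ → ℂ) (ν : ℂ) (c : ℕ → ℂ) (N : ℕ)

/-- The numerator. -/
noncomputable def nmr (z : ℂ) : ℂ := ∏ l ∈ range N, (z - L l) -
  ∑ n ∈ range N, conj (c n) * ((z - ν) * ∏ l ∈ (range N).erase n, (z - L l))

/-- The denominator. -/
noncomputable def dnm (z : ℂ) : ℂ := (1 - conj ν * z) * ∏ l ∈ range N, (1 - conj (L l) * z)

/-- The function `kr ν - ∑ c_n kr (L n)`. -/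
noncomputable def GG : C(Ci, ℂ) := kr ν - ∑ n ∈ range N, c n • kr (L n)

variable {L ν}

lemma conj_mul_ne {μ z : ℂ} (hμ : ‖μ‖ < 1) (hz : ‖z‖ ≤ 1) : 1 - conj μ * z ≠ 0 := by
  apply one_sub_ne'
  rw [norm_mul, RCLike.norm_conj]
  nlinarith [norm_nonneg μ, norm_nonneg z]

lemma dnm_ne (hL : ∀ i, ‖L i‖ < 1) (hν : ‖ν‖ < 1) {z : ℂ} (hz : ‖z‖ ≤ 1) : dnm L ν N z ≠ 0 :=
  mul_ne_zero (conj_mul_ne hν hz) (prod_ne_zero_iff.2 fun l _ => conj_mul_ne (hL l) hz)

lemma HH_diff (hL : ∀ i, ‖L i‖ < 1) (hν : ‖ν‖ < 1) :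
    DiffContOnCl ℂ (fun z => nmr L ν c N z / dnm L ν N z) (Metric.ball 0 1) := by
  apply DifferentiableOn.diffContOnCl
  rw [closure_ball _ one_ne_zero]
  intro z hz
  have hz1 : ‖z‖ ≤ 1 := by simpa using hz
  apply DifferentiableAt.differentiableWithinAt
  have h1 : DifferentiableAt ℂ (fun z => nmr L ν c N z) z := by
    unfold nmr
    fun_prop
  have h2 : DifferentiableAt ℂ (fun z => dnm L ν N z) z := by
    unfold dnm
    fun_prop
  exact h1.div h2 (dnm_ne N hL hν hz1)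

lemma unit_norm {μ z : ℂ} (hz : ‖z‖ = 1) : ‖1 - conj μ * z‖ = ‖z - μ‖ := by
  have h1 : z * conj z = 1 := by
    rw [Complex.mul_conj, Complex.normSq_eq_norm_sq, hz]
    norm_num
  have h2 : 1 - conj μ * z = z * conj (z - μ) := by
    rw [map_sub]
    linear_combination -h1
  rw [h2, norm_mul, hz, one_mul, RCLike.norm_conj]

lemma HH_norm (hL : ∀ i, ‖L i‖ < 1) (hν : ‖ν‖ < 1) (t : Ci) :
    ‖nmr L ν c N (ez t) / dnm L ν N (ez t)‖ = ‖GG L ν c N t‖ := by
  obtain ⟨z, hz⟩ : ∃ z : ℂ, z = ez t := ⟨_, rfl⟩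
  have hz1 : ‖z‖ = 1 := by rw [hz, norm_ez]
  have hzc : z * conj z = 1 := by
    rw [Complex.mul_conj, Complex.normSq_eq_norm_sq, hz1]
    norm_num
  have hz0 : z ≠ 0 := by
    intro h0
    rw [h0, norm_zero] at hz1
    exact zero_ne_one hz1
  have hsub : ∀ μ : ℂ, ‖μ‖ < 1 → z - μ ≠ 0 := by
    intro μ hμ h0
    rw [← sub_eq_zero.1 h0, hz1] at hμ
    exact lt_irrefl _ hμ
  have hkr : ∀ μ : ℂ, ‖μ‖ < 1 → conj (kr μ t) = z / (z - μ) := by
    intro μ hμ
    rw [kr_apply hμ, ← hz, map_inv₀, map_sub, map_one, map_mul, Complex.conj_conj]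
    have h1 : z * (1 - μ * conj z) = z - μ := by linear_combination (-μ) * hzc
    have h2 : 1 - μ * conj z ≠ 0 := by
      intro h0
      rw [h0, mul_zero] at h1
      exact hsub μ hμ h1.symm
    rw [← h1]
    field_simp
  have hmul : nmr L ν c N z * z = conj (GG L ν c N t) * ((z - ν) * ∏ l ∈ range N, (z - L l)) := by
    have e1 : conj (GG L ν c N t) = z / (z - ν) - ∑ n ∈ range N, conj (c n) * (z / (z - L n)) := by
      rw [GG, ContinuousMap.sub_apply, ContinuousMap.sum_apply, map_sub, hkr ν hν, map_sum]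
      congr 1
      refine sum_congr rfl fun n _ => ?_
      rw [ContinuousMap.smul_apply, smul_eq_mul, map_mul, hkr _ (hL n)]
    rw [e1, sub_mul, nmr, sub_mul, sum_mul, sum_mul]
    congr 1
    · have := hsub ν hν
      field_simp
    · refine sum_congr rfl fun n hn => ?_
      rw [← mul_prod_erase (range N) (fun l => z - L l) hn]
      have := hsub _ (hL n)
      field_simp
  have hden : ‖dnm L ν N z‖ = ‖(z - ν) * ∏ l ∈ range N, (z - L l)‖ := by
    rw [dnm, norm_mul, norm_mul, unit_norm hz1, norm_prod, norm_prod]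
    congr 1
    exact prod_congr rfl fun l _ => unit_norm hz1
  have h1 := congrArg norm hmul
  rw [norm_mul, norm_mul, hz1, mul_one, RCLike.norm_conj] at h1
  rw [← hz, norm_div, h1, hden, mul_div_assoc, div_self, mul_one]
  rw [norm_ne_zero_iff]
  exact mul_ne_zero (hsub ν hν) (prod_ne_zero_iff.2 fun l _ => hsub _ (hL l))

/-- The distance of a kernel from the span of finitely many other kernels, in `L¹`. -/
lemma dist_ge1 (hL : ∀ i, ‖L i‖ < 1) (hν : ‖ν‖ < 1) :
    ∏ l ∈ range N, ‖bl (L l) ν‖ ≤ (1 / (1 - ‖ν‖)) * ∫ t, ‖GG L ν c N t‖ ∂haarAddCircle := by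
  have h1 := cauchy_value (HH_diff c N hL hν) hν
  have hν0 : 0 < 1 - ‖ν‖ := by linarith
  have hval : ∏ l ∈ range N, ‖bl (L l) ν‖ ≤ ‖nmr L ν c N ν / dnm L ν N ν‖ := by
    have e1 : nmr L ν c N ν = ∏ l ∈ range N, (ν - L l) := by
      rw [nmr, sub_self]
      simp
    have e2 : ∀ l, ‖bl (L l) ν‖ = ‖ν - L l‖ / ‖1 - conj (L l) * ν‖ := by
      intro l
      rw [bl, norm_div, ← map_sub, RCLike.norm_conj, norm_sub_rev]
      congr 1
      rw [← RCLike.norm_conj, map_sub, map_one, map_mul, Complex.conj_conj]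
    have e3 : ‖1 - conj ν * ν‖ ≤ 1 := by
      rw [mul_comm, Complex.mul_conj, Complex.normSq_eq_norm_sq, ← Complex.ofReal_one,
        ← Complex.ofReal_sub, Complex.norm_real, Real.norm_eq_abs, abs_of_nonneg]
      · nlinarith [sq_nonneg ‖ν‖]
      · nlinarith [norm_nonneg ν]
    have e4 : 0 < ‖1 - conj ν * ν‖ := norm_pos_iff.2 (conj_mul_ne hν hν.le)
    rw [e1, dnm, norm_div, norm_mul, norm_prod, norm_prod]
    simp_rw [e2]
    rw [prod_div_distrib]
    have e5 : 0 < ∏ l ∈ range N, ‖1 - conj (L l) * ν‖ :=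
      prod_pos fun l _ => norm_pos_iff.2 (conj_mul_ne (hL l) hν.le)
    apply div_le_div_of_nonneg_left (prod_nonneg fun _ _ => norm_nonneg _) (by positivity)
    nlinarith
  refine hval.trans ?_
  rw [← h1, ← integral_const_mul]
  have hi : Integrable (fun t => (1 / (1 - ‖ν‖)) * ‖GG L ν c N t‖) haarAddCircle :=
    integR ⟨fun t => (1 / (1 - ‖ν‖)) * ‖GG L ν c N t‖, by fun_prop⟩
  refine norm_integral_le_of_norm_le hi (Eventually.of_forall fun t => ?_)
  rw [norm_mul, HH_norm c N hL hν t, norm_div, norm_ez]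
  refine mul_le_mul_of_nonneg_right ?_ (norm_nonneg _)
  apply one_div_le_one_div_of_le hν0
  have := norm_sub_norm_le (ez t) ν
  rwa [norm_ez] at this

end

lemma hardy_kernel (p : ℝ≥0∞) [hp : Fact (1 ≤ p)] {ν : ℂ} (hν : ‖ν‖ < 1) :
    MemHardy p (cauchyKernel ν) := by
  have hae : (J (kv ν) : Circ → ℂ) =ᵐ[haarAddCircle] cauchyKernel ν := by
    have h1 := J_kv ⟨ν, hν⟩
    simp only at h1
    rw [h1]
    filter_upwards [ContinuousMap.coeFn_toLp (p := 2) (𝕜 := ℂ) muT (cker ⟨ν, hν⟩)] with t ht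
    rw [ht, cker_apply, cauchyKernel, one_div]
  refine ⟨?_, fun n hn => ?_⟩
  · have h2 : cauchyKernel ν = (kr ν : Ci → ℂ) := by
      funext t
      rw [kr_apply hν, cauchyKernel, one_div]
      rfl
    rw [h2]
    exact memLp_c p (kr ν)
  · rw [← fourierCoeff_congr_ae hae]
    exact coef_J_neg _ hn

/-- **Necessity in `H^p`.** -/
theorem necessityP {p : ℝ≥0∞} (hp : 1 ≤ p) (L : ℕ → ℂ) (hL : ∀ i, ‖L i‖ < 1)
    (hr : IsRepresenting p L) : ¬ Summable fun n => 1 - ‖L n‖ := by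
  haveI : Fact (1 ≤ p) := ⟨hp⟩
  haveI : Fact ((1 : ℝ≥0∞) ≤ 1) := ⟨le_rfl⟩
  refine necessity2 L hL fun ν hν => ?_
  obtain ⟨c, hc⟩ := hr _ (hardy_kernel p hν)
  have hν0 : 0 < 1 - ‖ν‖ := by linarith
  have e1 : ∀ N, (fun t : Ci => cauchyKernel ν t - ∑ k ∈ range N, c k * cauchyKernel (L k) t) =
      (GG L ν c N : Ci → ℂ) := by
    intro N
    funext t
    rw [GG, ContinuousMap.sub_apply, ContinuousMap.sum_apply, kr_apply hν, cauchyKernel, one_div]
    congr 1
    refine sum_congr rfl fun k _ => ?_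
    rw [ContinuousMap.smul_apply, smul_eq_mul, kr_apply (hL k), cauchyKernel, one_div]
    rfl
  have h2 : Tendsto (fun N => nm p (GG L ν c N)) atTop (𝓝 0) := by
    have h3 : Tendsto (fun N => eLpNorm (GG L ν c N : Ci → ℂ) p haarAddCircle) atTop (𝓝 0) := by
      refine hc.congr fun N => ?_
      rw [← e1 N]
    have h4 := (ENNReal.tendsto_toReal ENNReal.zero_ne_top).comp h3
    simp only [ENNReal.toReal_zero] at h4
    refine h4.congr fun N => ?_
    rw [nm_eLp]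
    rfl
  refine ⟨fun N => (1 / (1 - ‖ν‖)) * nm p (GG L ν c N), ?_, fun N => ?_⟩
  · have := h2.const_mul (1 / (1 - ‖ν‖))
    simpa using this
  · refine (dist_ge1 c N hL hν).trans ?_
    refine mul_le_mul_of_nonneg_left ?_ (by positivity)
    have h5 := nm_rpow (p := 1) ENNReal.one_ne_top (GG L ν c N)
    simp only [ENNReal.toReal_one, Real.rpow_one] at h5
    rw [← h5, nm_eLp, nm_eLp]
    refine ENNReal.toReal_mono (memLp_c p _).2.ne ?_
    exact eLpNorm_le_eLpNorm_of_exponent_le hp (memLp_c p _).1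

end Pool.Agent.Y242.CK
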