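import Pool.Agent.Y242.CK.Ana

set_option autoImplicit false

/-!
# `L^p` norms on the circle
-/

namespace Pool.Agent.Y242.CK

open Finset Filter Topology MeasureTheory AddCircle ComplexConjugate
open scoped ENNReal

section nrm

variable (p : ℝ≥0∞) [hp : Fact (1 ≤ p)]

/-- The `L^p` norm of a continuous function. -/
noncomputable def nm (f : C(Ci, ℂ)) : ℝ :=
  ‖(ContinuousMap.toLp p haarAddCircle ℂ f : Lp ℂ p (haarAddCircle (T := (1 : ℝ))))‖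

lemma nm_nonneg (f : C(Ci, ℂ)) : 0 ≤ nm p f := norm_nonneg _

lemma nm_add (f g : C(Ci, ℂ)) : nm p (f + g) ≤ nm p f + nm p g := by
  rw [nm, map_add]
  exact norm_add_le _ _

lemma nm_smul (c : ℂ) (f : C(Ci, ℂ)) : nm p (c • f) = ‖c‖ * nm p f := by
  rw [nm, map_smul, norm_smul]
  rfl

lemma nm_sum {ι : Type*} (s : Finset ι) (f : ι → C(Ci, ℂ)) :
    nm p (∑ i ∈ s, f i) ≤ ∑ i ∈ s, nm p (f i) := by
  rw [nm, map_sum]
  exact norm_sum_le _ _

lemma nm_eLp (f : C(Ci, ℂ)) : nm p f = (eLpNorm f p haarAddCircle).toReal := by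
  rw [nm, Lp.norm_def]
  congr 1
  exact eLpNorm_congr_ae (ContinuousMap.coeFn_toLp (p := p) (𝕜 := ℂ) haarAddCircle f)

lemma memLp_c (f : C(Ci, ℂ)) : MemLp f p haarAddCircle :=
  (memLp_congr_ae (ContinuousMap.coeFn_toLp (p := p) (𝕜 := ℂ) haarAddCircle f)).1 (Lp.memLp _)

lemma nm_le_sup {f : C(Ci, ℂ)} {B : ℝ} (hf : ∀ t, ‖f t‖ ≤ B) : nm p f ≤ B := by
  have hB : 0 ≤ B := (norm_nonneg _).trans (hf 0)
  rw [nm_eLp]
  have h1 := eLpNorm_le_of_ae_bound (p := p) (μ := haarAddCircle) (f := f) (C := B)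
    (Eventually.of_forall hf)
  simp only [measure_univ, ENNReal.one_rpow, one_mul] at h1
  exact ENNReal.toReal_le_of_le_ofReal hB h1

variable {p} in
lemma one_le_toReal (hpt : p ≠ ∞) : 1 ≤ p.toReal := by
  have := ENNReal.toReal_mono hpt hp.out
  simpa using this

variable {p} in
lemma nm_rpow (hpt : p ≠ ∞) (f : C(Ci, ℂ)) :
    nm p f ^ p.toReal = ∫ t, ‖f t‖ ^ p.toReal ∂haarAddCircle := by
  have hs := one_le_toReal hpt
  have hp0 : p ≠ 0 := by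
    intro h0
    rw [h0] at hs
    simp at hs
    linarith
  have hI : 0 ≤ ∫ t, ‖f t‖ ^ p.toReal ∂haarAddCircle :=
    integral_nonneg fun t => Real.rpow_nonneg (norm_nonneg _) _
  rw [nm_eLp, MemLp.eLpNorm_eq_integral_rpow_norm hp0 hpt (memLp_c p f),
    ENNReal.toReal_ofReal (Real.rpow_nonneg hI _), ← Real.rpow_mul hI, inv_mul_cancel₀ (by linarith),
    Real.rpow_one]

lemma add_rpow_le' {a b s : ℝ} (ha : 0 ≤ a) (hb : 0 ≤ b) (hs : 1 ≤ s) :
    a ^ s + b ^ s ≤ (a + b) ^ s := by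
  have := NNReal.add_rpow_le_rpow_add ⟨a, ha⟩ ⟨b, hb⟩ hs
  exact_mod_cast this

variable {p} in
/-- Decorrelation for `L^p` norms. -/
lemma decorN (hpt : p ≠ ∞) (G : C(Ci, ℂ)) {η : ℝ} (hη : 0 < η) : ∃ N₁ : ℕ, 0 < N₁ ∧ ∀ N ≥ N₁,
    ∀ K : C(Ci, ℂ), (∀ t l, K (t + fr N l) = K t) → nm p (G * K) ≤ (nm p G + η) * nm p K := by
  have hs := one_le_toReal hpt
  have hs0 : 0 < p.toReal := by linarith
  have hc : ∀ F : C(Ci, ℂ), Continuous fun t => ‖F t‖ ^ p.toReal := fun F =>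
    Continuous.rpow_const (by fun_prop) fun t => Or.inr hs0.le
  obtain ⟨N₁, h1, h2⟩ := decor ⟨fun t => ‖G t‖ ^ p.toReal, hc G⟩ (Real.rpow_pos_of_pos hη p.toReal)
  refine ⟨N₁, h1, fun N hN K hK => ?_⟩
  have h3 := h2 N hN ⟨fun t => ‖K t‖ ^ p.toReal, hc K⟩
    (fun t => Real.rpow_nonneg (norm_nonneg _) _) (fun t l => by
      simp only [ContinuousMap.coe_mk]
      rw [hK])
  simp only [ContinuousMap.coe_mk] at h3
  rw [← nm_rpow hpt G, ← nm_rpow hpt K] at h3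
  have h4 : nm p (G * K) ^ p.toReal ≤ ((nm p G + η) * nm p K) ^ p.toReal := by
    rw [nm_rpow hpt, Real.mul_rpow (by linarith [nm_nonneg p G]) (nm_nonneg p K)]
    have e1 : ∀ t, ‖(G * K) t‖ ^ p.toReal = ‖G t‖ ^ p.toReal * ‖K t‖ ^ p.toReal := by
      intro t
      rw [ContinuousMap.mul_apply, norm_mul, Real.mul_rpow (norm_nonneg _) (norm_nonneg _)]
    simp_rw [e1]
    refine h3.trans ?_
    refine mul_le_mul_of_nonneg_right ?_ (Real.rpow_nonneg (nm_nonneg p K) _)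
    exact add_rpow_le' (nm_nonneg p G) hη.le hs
  exact (Real.rpow_le_rpow_iff (nm_nonneg p _)
    (mul_nonneg (by linarith [nm_nonneg p G]) (nm_nonneg p K)) hs0).1 h4

variable {p} in
lemma nm_le_of {n : ℕ} (hpn : p ≤ ((2 * (n + 1) : ℕ) : ℝ≥0∞)) (K : C(Ci, ℂ)) {A : ℝ} (hA : 0 ≤ A)
    (hK : ∫ t, ‖K t‖ ^ (2 * (n + 1)) ∂haarAddCircle ≤ A ^ (2 * (n + 1))) : nm p K ≤ A := by
  set P : ℝ≥0∞ := ((2 * (n + 1) : ℕ) : ℝ≥0∞) with hP
  have hP1 : 1 ≤ P := by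
    rw [hP]
    exact_mod_cast (by omega : 1 ≤ 2 * (n + 1))
  haveI : Fact (1 ≤ P) := ⟨hP1⟩
  have hPt : P ≠ ∞ := ENNReal.natCast_ne_top _
  have hPr : P.toReal = ((2 * (n + 1) : ℕ) : ℝ) := by rw [hP, ENNReal.toReal_natCast]
  have h1 : nm p K ≤ nm P K := by
    rw [nm_eLp, nm_eLp]
    refine ENNReal.toReal_mono (memLp_c P K).2.ne ?_
    exact eLpNorm_le_eLpNorm_of_exponent_le hpn (memLp_c P K).1
  refine h1.trans ?_
  have h2 := nm_rpow hPt K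
  rw [hPr] at h2
  simp only [Real.rpow_natCast] at h2
  rw [← h2] at hK
  exact (pow_le_pow_iff_left₀ (nm_nonneg P K) hA (by omega)).1 hK

end nrm

lemma int_poi_le {r ρ : ℝ} (h0 : 0 < ρ) (h1 : ρ < 1) {w : ℂ} (hw : ‖w‖ = 1 - ρ) {M : ℕ}
    (hM : 0 < M) : ∫ t, poi M w t ∂haarAddCircle ≤ 1 := by
  have hw1 : ‖w‖ < 1 := by linarith
  refine le_of_forall_pos_le_add fun ε hε => ?_
  obtain ⟨n, hn⟩ := exists_nat_gt (2 / (ρ * ε))
  have hn0 : 0 < n := by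
    have h2 : (0 : ℝ) < 2 / (ρ * ε) := by positivity
    have : (0 : ℝ) < n := h2.trans hn
    exact_mod_cast this
  have hMn : 0 < M * n := Nat.mul_pos hM hn0
  have h2 := integral_mul_avg (N := M * n) hMn ⟨poi M w, cont_poi hw1 hM⟩ 1 (fun t l => rfl)
  simp only [ContinuousMap.one_apply, mul_one, ContinuousMap.coe_mk] at h2
  rw [h2]
  have hb : ∀ t, avg (M * n) (poi M w) t ≤ 1 + ε := by
    intro t
    rw [avg_poi hw1 hM hn0]
    refine (poi_le h0 h1 hw hMn t).trans ?_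
    have h3 : 2 / (((M * n : ℕ) : ℝ) * ρ) ≤ ε := by
      have hM1 : (1 : ℝ) ≤ M := by exact_mod_cast hM
      have hn' : (0 : ℝ) < n := by exact_mod_cast hn0
      push_cast
      rw [div_lt_iff₀ (by positivity)] at hn
      rw [div_le_iff₀ (by positivity)]
      calc (2 : ℝ) ≤ n * (ρ * ε) := hn.le
        _ = 1 * (n * (ρ * ε)) := by ring
        _ ≤ M * (n * (ρ * ε)) := by gcongr
        _ = ε * (M * n * ρ) := by ring
    linarith
  have h3 : ∫ t, avg (M * n) (poi M w) t ∂haarAddCircle ≤ ∫ _t : Ci, (1 + ε) ∂haarAddCircle := by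
    refine integral_mono ?_ (integrable_const _) hb
    have hc : Continuous fun t => avg (M * n) (poi M w) t := by
      have := cont_poi hw1 hM
      unfold avg
      fun_prop
    exact integR ⟨_, hc⟩
  simpa using h3

/-- The continuous function `psi`. -/
noncomputable def psiC (M : ℕ) (w : ℂ) (hM : 0 < M) (hw : ‖w‖ < 1) : C(Ci, ℂ) :=
  ⟨psi M w, cont_psi hw hM⟩

lemma psi_sup {ρ : ℝ} (h0 : 0 < ρ) (h1 : ρ < 1) {w : ℂ} (hw : ‖w‖ = 1 - ρ) {M : ℕ} (hM : 0 < M)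
    (hδ : (M : ℝ) * ρ ≤ 1 / 2) (t : Ci) : (M : ℝ) * ρ * ‖psi M w t‖ ≤ 2 := by
  have hw1 : ‖w‖ < 1 := by linarith
  have hx := norm_wz hw1 hM t
  obtain ⟨x, hxd⟩ : ∃ x : ℂ, x = (w * ez t) ^ M := ⟨_, rfl⟩
  rw [psi, ← hxd]
  rw [← hxd] at hx
  have hxn : ‖x‖ = (1 - ρ) ^ M := by
    rw [hxd, norm_pow, norm_mul, norm_ez, mul_one, hw]
  have hM' : (0 : ℝ) < M := by exact_mod_cast hM
  have hMρ : 0 < (M : ℝ) * ρ := by positivity
  have hp := pow_le h0 h1 M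
  rw [← hxn] at hp
  have h2 : 1 - ‖x‖ ≤ ‖1 - x‖ := by
    have := norm_sub_norm_le (1 : ℂ) x
    rwa [norm_one] at this
  have h3 : 0 < 1 - ‖x‖ := by linarith
  have h4 : (M : ℝ) * ρ / 2 ≤ 1 - ‖x‖ := by
    have := norm_nonneg x
    nlinarith
  rw [norm_div, norm_one, mul_one_div, div_le_iff₀ (by linarith)]
  linarith

/-- The moments of one level. -/
lemma psi_moment {ρ : ℝ} (h0 : 0 < ρ) (h1 : ρ < 1) {w : ℂ} (hw : ‖w‖ = 1 - ρ) {M : ℕ}
    (hM : 0 < M) (hδ : (M : ℝ) * ρ ≤ 1 / 2) (n : ℕ) :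
    ∫ t, ‖(((M : ℝ) * ρ : ℝ) : ℂ) * psi M w t‖ ^ (2 * (n + 1)) ∂haarAddCircle ≤
      2 ^ (2 * (n + 1)) * ((M : ℝ) * ρ) := by
  have hw1 : ‖w‖ < 1 := by linarith
  have hM' : (0 : ℝ) < M := by exact_mod_cast hM
  set δ := (M : ℝ) * ρ with hδd
  have hδ0 : 0 < δ := by positivity
  have hpt : ∀ t, ‖((δ : ℝ) : ℂ) * psi M w t‖ ^ (2 * (n + 1)) ≤
      2 ^ (2 * n) * (δ * poi M w t) := by
    intro t
    have hx := norm_wz hw1 hM t
    have hsup := psi_sup h0 h1 hw hM hδ t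
    obtain ⟨x, hxd⟩ : ∃ x : ℂ, x = (w * ez t) ^ M := ⟨_, rfl⟩
    have hxn : ‖x‖ = (1 - ρ) ^ M := by
      rw [hxd, norm_pow, norm_mul, norm_ez, mul_one, hw]
    rw [← hxd] at hx
    have hp := pow_le h0 h1 M
    rw [← hxn, ← hδd] at hp
    have hx0 := norm_nonneg x
    have hne := one_sub_ne' hx
    have hpos : 0 < ‖1 - x‖ := norm_pos_iff.2 hne
    have e1 : ‖psi M w t‖ = 1 / ‖1 - x‖ := by
      rw [psi, ← hxd, norm_div, norm_one]
    have e2 : poi M w t = (1 - ‖x‖ ^ 2) / ‖1 - x‖ ^ 2 := by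
      rw [poi, psi, ← hxd, re_formula hx]
    have h5 : δ ≤ 1 - ‖x‖ ^ 2 := by
      have h6 : ‖x‖ ≤ 1 / (1 + δ) := by
        rw [le_div_iff₀ (by positivity)]
        exact hp
      have h7 : ‖x‖ ^ 2 ≤ (1 / (1 + δ)) ^ 2 := pow_le_pow_left₀ hx0 h6 2
      have h8 : (1 / (1 + δ)) ^ 2 ≤ 1 - δ := by
        rw [div_pow, one_pow, div_le_iff₀ (by positivity)]
        have h81 : 0 ≤ δ * (1 - δ - δ ^ 2) := by
          apply mul_nonneg hδ0.le
          nlinarith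
        nlinarith
      linarith
    have h9 : (δ * ‖psi M w t‖) ^ 2 ≤ δ * poi M w t := by
      rw [e1, e2, mul_pow, div_pow, one_pow, mul_one_div, mul_div_assoc']
      apply div_le_div_of_nonneg_right _ (by positivity)
      nlinarith
    rw [norm_mul, Complex.norm_real, Real.norm_eq_abs, abs_of_pos hδ0]
    have hnn : 0 ≤ δ * ‖psi M w t‖ := by positivity
    calc (δ * ‖psi M w t‖) ^ (2 * (n + 1)) = (δ * ‖psi M w t‖) ^ (2 * n) * (δ * ‖psi M w t‖) ^ 2 := by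
          rw [← pow_add]
          ring_nf
      _ ≤ 2 ^ (2 * n) * (δ * poi M w t) := by
          refine mul_le_mul (pow_le_pow_left₀ hnn hsup _) h9 (by positivity) (by positivity)
  have hi : Integrable (poi M w) haarAddCircle := integR ⟨poi M w, cont_poi hw1 hM⟩
  have h3 : ∫ t, ‖((δ : ℝ) : ℂ) * psi M w t‖ ^ (2 * (n + 1)) ∂haarAddCircle ≤
      ∫ t, 2 ^ (2 * n) * (δ * poi M w t) ∂haarAddCircle := by
    refine integral_mono ?_ ((hi.const_mul _).const_mul _) hpt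
    have hc := cont_psi hw1 hM
    exact integR ⟨fun t => ‖((δ : ℝ) : ℂ) * psi M w t‖ ^ (2 * (n + 1)), by fun_prop⟩
  refine h3.trans ?_
  rw [integral_const_mul, integral_const_mul]
  have h4 := int_poi_le (r := 0) h0 h1 hw hM
  calc (2 : ℝ) ^ (2 * n) * (δ * ∫ t, poi M w t ∂haarAddCircle) ≤ 2 ^ (2 * n) * (δ * 1) := by gcongr
    _ ≤ 2 ^ (2 * (n + 1)) * δ := by
        rw [mul_one]
        refine mul_le_mul_of_nonneg_right ?_ hδ0.le
        exact pow_le_pow_right₀ (by norm_num) (by omega)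

end Pool.Agent.Y242.CK
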