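import Pool.Agent.Y242.CK.Cos

set_option autoImplicit false

/-!
# Norms of the sums over dyadic blocks
-/

namespace Pool.Agent.Y242.CK

open Finset MeasureTheory AddCircle ComplexConjugate
open Pool.Agent.H155R3 (DD cker cker_apply muT polyT polyT_apply)
open scoped ENNReal

section

variable {p : ℝ≥0∞} [hp : Fact (1 ≤ p)]

lemma polyT_ez (g : Polynomial ℂ) (t : Ci) : polyT g t = g.eval (ez t) := rfl

/-- The difference between a coset sum and its main part. -/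
lemma coset_err {g : Polynomial ℂ} {D : ℝ} (hD0 : 0 ≤ D)
    (hD : ∀ (z : ℂ) (s : ℝ), ‖z‖ ≤ 1 → 0 ≤ s → s ≤ 1 →
      ‖g.eval ((s : ℂ) * z) - g.eval z‖ ≤ D * (1 - s))
    {r : ℝ} (h0 : 0 < r) (h1 : r < 1) {M : ℕ} (hM : 0 < M) (hMr : (M : ℝ) * r ≤ 1 / 2)
    (hg : g.natDegree < M) (x : ℝ) {w : ℂ} (hwd : w = ((1 - r : ℝ) : ℂ) * conj (e2 x))
    (hw1 : ‖w‖ < 1) (t : Ci) :
    ‖(∑ l ∈ range M, TT g r (x + (l : ℝ) / M) -
      polyT g * ((((M : ℝ) * r : ℝ) : ℂ) • psiC M w hM hw1)) t‖ ≤ 4 * D * r := by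
  have hw : ‖w‖ = 1 - r := by
    rw [hwd, norm_mul, RCLike.norm_conj, norm_e2, mul_one, Complex.norm_real, Real.norm_eq_abs,
      abs_of_pos (by linarith)]
  have e1 : (∑ l ∈ range M, TT g r (x + (l : ℝ) / M) -
      polyT g * ((((M : ℝ) * r : ℝ) : ℂ) • psiC M w hM hw1)) t =
      ((((M : ℝ) * r : ℝ) : ℂ) * psi M w t) *
        (g.eval ((((1 - r) ^ 2 : ℝ) : ℂ) * ez t) - g.eval (ez t)) := by
    rw [ContinuousMap.sub_apply, coset_sum g h0 h1 hM hg, ← hwd, ContinuousMap.mul_apply,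
      ContinuousMap.smul_apply, polyT_ez, smul_eq_mul]
    change _ - g.eval (ez t) * (_ * psi M w t) = _
    ring
  rw [e1, norm_mul, norm_mul, Complex.norm_real, Real.norm_eq_abs, abs_of_nonneg (by positivity)]
  have h2 := psi_sup h0 h1 hw hM hMr t
  have h3 := hD (ez t) ((1 - r) ^ 2) (norm_ez t).le (sq_nonneg _) (by nlinarith)
  have h4 : 1 - (1 - r) ^ 2 ≤ 2 * r := by nlinarith
  calc (M : ℝ) * r * ‖psi M w t‖ * ‖g.eval ((((1 - r) ^ 2 : ℝ) : ℂ) * ez t) - g.eval (ez t)‖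
      ≤ 2 * (D * (1 - (1 - r) ^ 2)) := mul_le_mul h2 h3 (norm_nonneg _) (by norm_num)
    _ ≤ 2 * (D * (2 * r)) := by gcongr
    _ = 4 * D * r := by ring

/-- The decorrelation property of `g` for the scale `N₁`. -/
def Dec (p : ℝ≥0∞) [Fact (1 ≤ p)] (g : Polynomial ℂ) (η : ℝ) (N₁ : ℕ) : Prop :=
  ∀ N ≥ N₁, ∀ K : C(Ci, ℂ), (∀ t l, K (t + fr N l) = K t) →
    nm p (polyT g * K) ≤ (nm p (polyT g) + η) * nm p K

lemma block_big {n : ℕ} (hpn : p ≤ ((2 * (n + 1) : ℕ) : ℝ≥0∞)) {g : Polynomial ℂ} {D η : ℝ}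
    {N₁ : ℕ} (hη : 0 ≤ η) (hD0 : 0 ≤ D)
    (hD : ∀ (z : ℂ) (s : ℝ), ‖z‖ ≤ 1 → 0 ≤ s → s ≤ 1 →
      ‖g.eval ((s : ℂ) * z) - g.eval z‖ ≤ D * (1 - s))
    (hdec : Dec p g η N₁) {r : ℝ} (h0 : 0 < r) (h1 : r < 1) {i k : ℕ} (hik : i ≤ k)
    (hr : (2 : ℝ) ^ k * r ≤ 1 / 2) (hg : g.natDegree < 2 ^ i) (hN : N₁ ≤ 2 ^ i) (x : ℝ) :
    nm p (∑ l ∈ range (2 ^ i), TT g r (x + (l : ℝ) / (2 ^ i : ℕ))) ≤
      (nm p (polyT g) + η) * (2 * q0 n ^ (k - i)) + 4 * D * r := by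
  obtain ⟨M, hM⟩ : ∃ M : ℕ, M = 2 ^ i := ⟨_, rfl⟩
  have hM0 : 0 < M := by rw [hM]; positivity
  have hMc : (M : ℝ) = 2 ^ i := by rw [hM]; push_cast; rfl
  obtain ⟨ha, hb⟩ := half_pow h0 hik hr
  obtain ⟨w, hwd⟩ : ∃ w : ℂ, w = ((1 - r : ℝ) : ℂ) * conj (e2 x) := ⟨_, rfl⟩
  have hw : ‖w‖ = 1 - r := by
    rw [hwd, norm_mul, RCLike.norm_conj, norm_e2, mul_one, Complex.norm_real, Real.norm_eq_abs,
      abs_of_pos (by linarith)]
  have hw1 : ‖w‖ < 1 := by linarith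
  rw [← hM]
  have herr := nm_le_sup p (coset_err hD0 hD h0 h1 hM0 (by rw [hMc]; exact hb) (by rw [hM]; exact hg)
    x hwd hw1)
  have hpsi := psi_nm hpn h0 h1 hik hr hw hM hM0 hw1
  have hd := hdec M (by rw [hM]; exact hN) ((((M : ℝ) * r : ℝ) : ℂ) • psiC M w hM0 hw1) (by
    intro t l
    change _ * psi M w (t + fr M l) = _ * psi M w t
    rw [psi, psi, hM, pow_fr le_rfl])
  have e1 : ∑ l ∈ range M, TT g r (x + (l : ℝ) / M) =
      polyT g * ((((M : ℝ) * r : ℝ) : ℂ) • psiC M w hM0 hw1) +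
      (∑ l ∈ range M, TT g r (x + (l : ℝ) / M) -
        polyT g * ((((M : ℝ) * r : ℝ) : ℂ) • psiC M w hM0 hw1)) := by abel
  rw [e1]
  refine (nm_add p _ _).trans (add_le_add (hd.trans ?_) herr)
  exact mul_le_mul_of_nonneg_left hpsi (by linarith [nm_nonneg p (polyT g)])

lemma one_small {n : ℕ} (hpn : p ≤ ((2 * (n + 1) : ℕ) : ℝ≥0∞)) {g : Polynomial ℂ} {D : ℝ}
    (hD0 : 0 ≤ D) (hD : ∀ z : ℂ, ‖z‖ ≤ 1 → ‖g.eval z‖ ≤ D) {r : ℝ} (h0 : 0 < r) (h1 : r < 1)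
    {k : ℕ} (hr : (2 : ℝ) ^ k * r ≤ 1 / 2) (x : ℝ) : nm p (TT g r x) ≤ 2 * D * q0 n ^ k := by
  have hq := norm_qt h1 x
  have hw : ‖conj (qt r x)‖ = 1 - r := by rw [RCLike.norm_conj, hq]
  have hw1 : ‖conj (qt r x)‖ < 1 := by linarith
  have h2 := psi_nm hpn h0 h1 (Nat.zero_le k) hr hw (M := 1) (by norm_num) one_pos hw1
  have e1 : TT g r x = g.eval (qt r x) • ((((1 : ℕ) : ℝ) * r : ℝ) : ℂ) •
      psiC 1 (conj (qt r x)) one_pos hw1 := by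
    ext t
    rw [TT, ContinuousMap.smul_apply, ContinuousMap.smul_apply, ContinuousMap.smul_apply,
      kr_apply (by linarith)]
    change _ = _ • _ • psi 1 _ t
    rw [psi, pow_one, smul_eq_mul, smul_eq_mul, smul_eq_mul, one_div]
    push_cast
    ring
  rw [Nat.sub_zero] at h2
  rw [e1, nm_smul]
  calc ‖g.eval (qt r x)‖ * nm p (((((1 : ℕ) : ℝ) * r : ℝ) : ℂ) •
        psiC 1 (conj (qt r x)) one_pos hw1) ≤ D * (2 * q0 n ^ k) :=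
        mul_le_mul (hD _ (by linarith)) h2 (nm_nonneg p _) hD0
    _ = _ := by ring

/-- The bound of a block. -/
noncomputable def bet (n : ℕ) (A E : ℝ) (k i : ℕ) : ℝ := A * (2 * q0 n ^ (k - i)) + E * q0 n ^ k

lemma bet_nonneg (n : ℕ) {A E : ℝ} (hA : 0 ≤ A) (hE : 0 ≤ E) (k i : ℕ) : 0 ≤ bet n A E k i := by
  have := q0_ge n
  have : 0 < q0 n := by linarith
  unfold bet
  positivity

lemma r_le {r : ℝ} (h0 : 0 < r) {k : ℕ} (hr : (2 : ℝ) ^ k * r ≤ 1 / 2) (n : ℕ) :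
    r ≤ q0 n ^ k := by
  obtain ⟨ha, _⟩ := half_pow h0 (Nat.zero_le k) hr
  rw [pow_zero, one_mul, Nat.sub_zero] at ha
  refine ha.trans (pow_le_pow_left₀ (by norm_num) ?_ _)
  linarith [q0_ge n]

lemma block {n : ℕ} (hpn : p ≤ ((2 * (n + 1) : ℕ) : ℝ≥0∞)) {g : Polynomial ℂ} {D η : ℝ}
    {N₁ : ℕ} (hη : 0 ≤ η) (hD0 : 0 ≤ D) (hDb : ∀ z : ℂ, ‖z‖ ≤ 1 → ‖g.eval z‖ ≤ D)
    (hD : ∀ (z : ℂ) (s : ℝ), ‖z‖ ≤ 1 → 0 ≤ s → s ≤ 1 →
      ‖g.eval ((s : ℂ) * z) - g.eval z‖ ≤ D * (1 - s))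
    (hdec : Dec p g η N₁) (hgN : g.natDegree < N₁) {r : ℝ} (h0 : 0 < r) (h1 : r < 1) {i k : ℕ}
    (hik : i ≤ k) (hr : (2 : ℝ) ^ k * r ≤ 1 / 2) (c : ℕ) :
    nm p (∑ j ∈ range (2 ^ i), TT g r (vdc (c * 2 ^ i + j))) ≤
      bet n (nm p (polyT g) + η) (4 * D + N₁ * (2 * D)) k i := by
  have hq := q0_ge n
  have hq' : 0 < q0 n := by linarith
  have hG := nm_nonneg p (polyT g)
  have hrq := r_le h0 hr n
  rcases le_or_gt N₁ (2 ^ i) with hN | hN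
  · rw [sum_vdc i c (TT g r)]
    refine (block_big hpn hη hD0 hD hdec h0 h1 hik hr (by omega) hN _).trans ?_
    rw [bet]
    have h3 : 4 * D * r ≤ 4 * D * q0 n ^ k := by gcongr
    have h4 : 0 ≤ N₁ * (2 * D) * q0 n ^ k := by positivity
    linarith
  · refine (nm_sum p _ _).trans ((sum_le_sum fun j _ => one_small hpn hD0 hDb h0 h1 hr _).trans ?_)
    rw [sum_const, card_range, nsmul_eq_mul, bet]
    have h3 : (((2 ^ i : ℕ) : ℝ)) ≤ N₁ := by exact_mod_cast hN.le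
    have h4 : ((2 ^ i : ℕ) : ℝ) * (2 * D * q0 n ^ k) ≤ N₁ * (2 * D * q0 n ^ k) :=
      mul_le_mul_of_nonneg_right h3 (by positivity)
    have h5 : 0 ≤ (nm p (polyT g) + η) * (2 * q0 n ^ (k - i)) := by positivity
    have h6 : 0 ≤ 4 * D * q0 n ^ k := by positivity
    linarith

/-- Initial parts of blocks. -/
lemma initial {V : ℕ → ℝ} (hV : ∀ i, 0 ≤ V i) {h : ℕ → C(Ci, ℂ)} {k : ℕ}
    (hb : ∀ i ≤ k, ∀ c, nm p (∑ j ∈ range (2 ^ i), h (c * 2 ^ i + j)) ≤ V i) :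
    ∀ i ≤ k, ∀ c J : ℕ, J < 2 ^ i →
      nm p (∑ j ∈ range J, h (c * 2 ^ i + j)) ≤ ∑ i' ∈ range i, V i' := by
  intro i
  induction i with
  | zero =>
    intro _ c J hJ
    have : J = 0 := by
      rw [pow_zero] at hJ
      omega
    rw [this]
    simp [nm]
  | succ i ih =>
    intro hik c J hJ
    rw [sum_range_succ]
    rcases lt_or_ge J (2 ^ i) with hJ' | hJ'
    · have h1 := ih (by omega) (2 * c) J hJ'
      have e1 : c * 2 ^ (i + 1) = 2 * c * 2 ^ i := by rw [pow_succ]; ring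
      rw [e1]
      linarith [hV i]
    · obtain ⟨J', rfl⟩ := Nat.exists_eq_add_of_le hJ'
      have h1 := ih (by omega) (2 * c + 1) J' (by rw [pow_succ] at hJ; omega)
      have h2 := hb i (by omega) (2 * c)
      rw [sum_range_add]
      have e1 : ∀ j, c * 2 ^ (i + 1) + j = 2 * c * 2 ^ i + j := by
        intro j
        rw [pow_succ]
        ring
      have e2' : ∀ j, c * 2 ^ (i + 1) + (2 ^ i + j) = (2 * c + 1) * 2 ^ i + j := by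
        intro j
        rw [pow_succ]
        ring
      simp_rw [e2', e1]
      refine (nm_add p _ _).trans ?_
      linarith

lemma bet_sum (n : ℕ) {A E : ℝ} (hA : 0 ≤ A) (k : ℕ) :
    ∑ i ∈ range k, bet n A E k i ≤ A * (8 * ((n : ℝ) + 1)) + E * (k * q0 n ^ k) := by
  unfold bet
  rw [sum_add_distrib, sum_const, card_range, nsmul_eq_mul, ← mul_sum, ← mul_sum]
  have := q0_sum n k
  have h2 : A * (2 * ∑ i ∈ range k, q0 n ^ (k - i)) ≤ A * (8 * ((n : ℝ) + 1)) := by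
    apply mul_le_mul_of_nonneg_left _ hA
    linarith
  linarith

/-- **The partial sums of one level.** -/
lemma level_partial {n : ℕ} (hpn : p ≤ ((2 * (n + 1) : ℕ) : ℝ≥0∞)) {g : Polynomial ℂ} {D η : ℝ}
    {N₁ : ℕ} (hη : 0 ≤ η) (hD0 : 0 ≤ D) (hDb : ∀ z : ℂ, ‖z‖ ≤ 1 → ‖g.eval z‖ ≤ D)
    (hD : ∀ (z : ℂ) (s : ℝ), ‖z‖ ≤ 1 → 0 ≤ s → s ≤ 1 →
      ‖g.eval ((s : ℂ) * z) - g.eval z‖ ≤ D * (1 - s))
    (hdec : Dec p g η N₁) (hgN : g.natDegree < N₁) {r : ℝ} (h0 : 0 < r) (h1 : r < 1) {k : ℕ}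
    (hr : (2 : ℝ) ^ k * r ≤ 1 / 2) {J : ℕ} (hJ : J < 2 ^ k) :
    nm p (∑ j ∈ range J, TT g r (vdc j)) ≤
      (nm p (polyT g) + η) * (8 * ((n : ℝ) + 1)) +
        (4 * D + N₁ * (2 * D)) * (k * q0 n ^ k) := by
  have hA : 0 ≤ nm p (polyT g) + η := by linarith [nm_nonneg p (polyT g)]
  have h2 := initial (V := bet n (nm p (polyT g) + η) (4 * D + N₁ * (2 * D)) k)
    (h := fun m => TT g r (vdc m)) (fun i => bet_nonneg n hA (by positivity) k i)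
    (fun i hi c => block hpn hη hD0 hDb hD hdec hgN h0 h1 hi hr c) k le_rfl 0 J hJ
  simp only [zero_mul, zero_add] at h2
  exact h2.trans (bet_sum n hA k)

end

end Pool.Agent.Y242.CK
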