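import Pool.Agent.Y242.CK.FinalHp

set_option autoImplicit false

/-!
# Sharp sparsity of representing systems of Cauchy kernels in all `H^p`: conclusion
-/

namespace Pool.Agent.Y242.CK

open Finset MeasureTheory AddCircle ComplexConjugate Filter Topology
open Pool.Agent.H155R3 (DD cker cker_apply muT polyT polyT_apply Van Van_approx Phi Phi_apply
  cker_mem mem_Van)
open Pool.Agent.Results.MP_459ac8_an.ZeroDensity (cauchyKernel MemHardy IsRepresenting)
open scoped ENNReal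

lemma isRepP {p : ℝ≥0∞} [hp : Fact (1 ≤ p)] (hpt : p ≠ ∞) (L : ℕ → ℂ) (hL : ∀ n, ‖L n‖ < 1)
    (hx : ∀ f ∈ Van p, ∃ c : ℕ → ℂ,
      Tendsto (fun N => ∑ m ∈ range N, c m • lk p (L m)) atTop (𝓝 f)) : IsRepresenting p L := by
  intro f hf
  obtain ⟨hf1, hf2⟩ := hf
  have hmem : hf1.toLp f ∈ Van p := by
    apply mem_Van hpt
    intro n hn
    rw [fourierCoeff_congr_ae hf1.coeFn_toLp]
    exact hf2 n hn
  obtain ⟨c, hc⟩ := hx _ hmem
  refine ⟨c, ?_⟩
  have h1 := (tendsto_const_nhds (x := hf1.toLp f)).sub hc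
  rw [sub_self] at h1
  have h2 := h1.norm
  rw [norm_zero] at h2
  have h3 := (ENNReal.tendsto_ofReal h2)
  rw [ENNReal.ofReal_zero] at h3
  refine h3.congr fun N => ?_
  rw [Lp.norm_def, ENNReal.ofReal_toReal (Lp.eLpNorm_ne_top _)]
  apply eLpNorm_congr_ae
  rw [sum_lk]
  have e1 := Lp.coeFn_sub (hf1.toLp f)
    (ContinuousMap.toLp p muT ℂ (∑ k ∈ range N, c k • kr (L k)) : Lp ℂ p muT)
  have e3 := ContinuousMap.coeFn_toLp (p := p) (𝕜 := ℂ) muT (∑ k ∈ range N, c k • kr (L k))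
  filter_upwards [e1, e3, hf1.coeFn_toLp] with t h4 h5 h6
  rw [h4, Pi.sub_apply, h5, h6, ContinuousMap.sum_apply]
  congr 1
  apply Finset.sum_congr rfl
  intro k _
  rw [ContinuousMap.smul_apply, kr_apply (hL k), cauchyKernel, one_div, smul_eq_mul]
  rfl

/-- The points `(1 - ρ_k) exp (2πi v_j)`, `0 ≤ j < 2^k`, `k = 0, 1, …`, where `v` is the van der
Corput sequence, in this order. -/
noncomputable def netv (ρ : ℕ → ℝ) (n : ℕ) : ℂ := Q ρ (n + 1)

section

variable {ρ : ℕ → ℝ}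

lemma norm_netv (h : ∀ k, ρ k < 1) (n : ℕ) : ‖netv ρ n‖ = 1 - ρ (Nat.log 2 (n + 1)) := by
  rw [netv, Q, norm_qt (h _)]

lemma netv_lt (h0 : ∀ k, 0 < ρ k) (h : ∀ k, ρ k < 1) (n : ℕ) : ‖netv ρ n‖ < 1 := by
  rw [norm_netv h]
  linarith [h0 (Nat.log 2 (n + 1))]

lemma netv_inj (h : ∀ k, ρ k < 1) (ha : StrictAnti ρ) : Function.Injective (netv ρ) := by
  intro n n' hn
  have h1 := congrArg norm hn
  rw [norm_netv h, norm_netv h] at h1
  have h2 : Nat.log 2 (n + 1) = Nat.log 2 (n' + 1) := ha.injective (by linarith)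
  rw [netv, netv, Q, Q, ← h2, qt, qt] at hn
  set k := Nat.log 2 (n + 1) with hk
  have h3 : ((1 - ρ k : ℝ) : ℂ) ≠ 0 := by
    rw [Ne, Complex.ofReal_eq_zero]
    linarith [h k]
  have h4 := mul_left_cancel₀ h3 hn
  have h5 := vdc_inj _ _ (e2_inj (vdc_range _) (vdc_range _) h4)
  have hk1 : 2 ^ k ≤ n + 1 := Nat.pow_log_le_self 2 (by omega)
  have hk1' : 2 ^ k ≤ n' + 1 := by
    rw [h2]
    exact Nat.pow_log_le_self 2 (by omega)
  omega

lemma netv_mono (h : ∀ k, ρ k < 1) (ha : StrictAnti ρ) : Monotone fun n => ‖netv ρ n‖ := by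
  intro n n' hn
  simp only
  rw [norm_netv h, norm_netv h]
  have : ρ (Nat.log 2 (n' + 1)) ≤ ρ (Nat.log 2 (n + 1)) :=
    ha.antitone (Nat.log_mono_right (by omega))
  linarith

lemma summable_netv (h0 : ∀ k, 0 < ρ k) (h : ∀ k, ρ k < 1) :
    Summable (fun n => 1 - ‖netv ρ n‖) ↔ Summable fun k => (2 : ℝ) ^ k * ρ k := by
  rw [← summable_net h0 h]
  simp_rw [norm_netv h, norm_net h]

/-- Sufficiency. -/
lemma netv_rep (h0 : ∀ k, 0 < ρ k) (h1 : ∀ k, (2 : ℝ) ^ k * ρ k ≤ 1 / 2)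
    (hd : ¬ Summable fun k => (2 : ℝ) ^ k * ρ k) {p : ℝ≥0∞} (hp : 1 ≤ p) (hpt : p ≠ ∞) :
    IsRepresenting p (netv ρ) := by
  haveI : Fact (1 ≤ p) := ⟨hp⟩
  have hadm : Adm ρ := ⟨h0, h1, hd⟩
  refine isRepP hpt _ (netv_lt h0 hadm.lt_one) fun f hf => ?_
  exact expandP hadm hpt f hf

end

/-- The value of an analytic function by Cauchy's formula. -/
lemma cauchy_value {f : ℂ → ℂ} (hf : DiffContOnCl ℂ f (Metric.ball 0 1)) {w : ℂ} (hw : ‖w‖ < 1) :
    ∫ t : Ci, (ez t / (ez t - w)) * f (ez t) ∂haarAddCircle = f w := by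
  have h1 := circ_int fun z => (z / (z - w)) * f z
  rw [h1, Real.circleAverage_eq_circleIntegral one_ne_zero]
  have h2 : (∮ z in C(0, 1), (z - 0)⁻¹ • ((z / (z - w)) * f z)) =
      ∮ z in C(0, 1), (z - w)⁻¹ • f z := by
    refine circleIntegral.integral_congr zero_le_one fun z hz => ?_
    have hz1 : ‖z‖ = 1 := by simpa using hz
    have hz0 : z ≠ 0 := by
      intro h0
      rw [h0, norm_zero] at hz1
      exact zero_ne_one hz1
    have hzw : z - w ≠ 0 := by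
      intro h0
      rw [sub_eq_zero.1 h0] at hz1
      linarith
    simp only [sub_zero, smul_eq_mul]
    field_simp
  rw [h2, hf.circleIntegral_sub_inv_smul (by simpa using hw), smul_smul, inv_mul_cancel₀, one_smul]
  simp [Real.pi_ne_zero]

end Pool.Agent.Y242.CK
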