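import Pool.Agent.Y242.CK.Nrm
import Pool.Agent.H155R3.D5

set_option autoImplicit false

/-!
# Van der Corput order of the roots of unity and sums over cosets
-/

namespace Pool.Agent.Y242.CK

open Finset ComplexConjugate

/-- The van der Corput sequence. -/
noncomputable def vdc : ℕ → ℝ
  | 0 => 0
  | n + 1 => (((n + 1) % 2 : ℕ) : ℝ) / 2 + vdc ((n + 1) / 2) / 2
decreasing_by exact Nat.div_lt_self (Nat.succ_pos n) (by norm_num)

lemma vdc_zero : vdc 0 = 0 := by rw [vdc]

lemma vdc_eq (n : ℕ) : vdc n = ((n % 2 : ℕ) : ℝ) / 2 + vdc (n / 2) / 2 := by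
  cases n with
  | zero => simp [vdc_zero]
  | succ n => rw [vdc]

lemma vdc_even (m : ℕ) : vdc (2 * m) = vdc m / 2 := by
  rw [vdc_eq, Nat.mul_mod_right, Nat.mul_div_cancel_left _ (by norm_num)]
  simp

lemma vdc_odd (m : ℕ) : vdc (2 * m + 1) = 1 / 2 + vdc m / 2 := by
  rw [vdc_eq, show (2 * m + 1) % 2 = 1 by omega, show (2 * m + 1) / 2 = m by omega]
  simp

lemma vdc_range (n : ℕ) : 0 ≤ vdc n ∧ vdc n < 1 := by
  induction n using Nat.strong_induction_on with
  | _ n ih =>
    rcases Nat.eq_zero_or_pos n with h0 | h0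
    · rw [h0, vdc_zero]
      norm_num
    · obtain ⟨h1, h2⟩ := ih (n / 2) (Nat.div_lt_self h0 (by norm_num))
      rw [vdc_eq]
      have h3 : ((n % 2 : ℕ) : ℝ) ≤ 1 := by
        have : n % 2 ≤ 1 := by omega
        exact_mod_cast this
      have h4 : (0 : ℝ) ≤ ((n % 2 : ℕ) : ℝ) := Nat.cast_nonneg _
      constructor <;> linarith

lemma vdc_inj : ∀ m n : ℕ, vdc m = vdc n → m = n := by
  intro m
  induction m using Nat.strong_induction_on with
  | _ m ih =>
    intro n h
    have hm := vdc_eq m
    have hn := vdc_eq n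
    have r1 := vdc_range (m / 2)
    have r2 := vdc_range (n / 2)
    have c1 : m % 2 = 0 ∨ m % 2 = 1 := by omega
    have c2 : n % 2 = 0 ∨ n % 2 = 1 := by omega
    rcases c1 with c1 | c1 <;> rcases c2 with c2 | c2 <;> rw [c1] at hm <;> rw [c2] at hn <;>
      push_cast at hm hn
    · have h5 : vdc (m / 2) = vdc (n / 2) := by linarith
      rcases Nat.eq_zero_or_pos m with h0 | h0
      · rcases Nat.eq_zero_or_pos n with h1 | h1
        · rw [h0, h1]
        · have h6 : m / 2 = 0 := by rw [h0]
          by_contra hne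
          -- use the symmetric statement on smaller numbers
          exfalso
          have h7 : ∀ q : ℕ, 0 < q → 0 < vdc q := by
            intro q
            induction q using Nat.strong_induction_on with
            | _ q ihq =>
              intro hq
              have hq' := vdc_eq q
              have r3 := vdc_range (q / 2)
              have c3 : q % 2 = 0 ∨ q % 2 = 1 := by omega
              rcases c3 with c3 | c3
              · have := ihq (q / 2) (Nat.div_lt_self hq (by norm_num)) (by omega)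
                rw [c3] at hq'
                push_cast at hq'
                linarith
              · rw [c3] at hq'
                push_cast at hq'
                linarith
          have h8 := h7 n h1
          rw [← h, h0, vdc_zero] at h8
          exact lt_irrefl _ h8
      · have := ih (m / 2) (Nat.div_lt_self h0 (by norm_num)) (n / 2) h5
        omega
    · exfalso
      linarith
    · exfalso
      linarith
    · have h5 : vdc (m / 2) = vdc (n / 2) := by linarith
      have := ih (m / 2) (Nat.div_lt_self (by omega) (by norm_num)) (n / 2) h5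
      omega

lemma sum_two {V : Type*} [AddCommMonoid V] (f : ℕ → V) (n : ℕ) :
    ∑ j ∈ range (2 * n), f j = ∑ j ∈ range n, (f (2 * j) + f (2 * j + 1)) := by
  induction n with
  | zero => simp
  | succ n ih =>
    rw [show 2 * (n + 1) = 2 * n + 1 + 1 by ring, sum_range_succ, sum_range_succ, ih,
      sum_range_succ, add_assoc]

lemma sum_vdc {V : Type*} [AddCommMonoid V] (i : ℕ) : ∀ (c : ℕ) (f : ℝ → V),
    ∑ j ∈ range (2 ^ i), f (vdc (c * 2 ^ i + j)) =
      ∑ l ∈ range (2 ^ i), f (vdc c / 2 ^ i + (l : ℝ) / (2 ^ i : ℕ)) := by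
  induction i with
  | zero =>
    intro c f
    simp
  | succ i ih =>
    intro c f
    have e1 : 2 ^ (i + 1) = 2 * 2 ^ i := by rw [pow_succ, mul_comm]
    have hp : (0 : ℝ) < 2 ^ i := by positivity
    calc ∑ j ∈ range (2 ^ (i + 1)), f (vdc (c * 2 ^ (i + 1) + j))
        = ∑ j ∈ range (2 ^ i), (f (vdc (c * 2 ^ i + j) / 2) + f (1 / 2 + vdc (c * 2 ^ i + j) / 2)) := by
          rw [e1, sum_two]
          refine sum_congr rfl fun j _ => ?_
          rw [show c * (2 * 2 ^ i) + 2 * j = 2 * (c * 2 ^ i + j) by ring,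
            show c * (2 * 2 ^ i) + (2 * j + 1) = 2 * (c * 2 ^ i + j) + 1 by ring, vdc_even, vdc_odd]
      _ = ∑ l ∈ range (2 ^ i), (f ((vdc c / 2 ^ i + (l : ℝ) / (2 ^ i : ℕ)) / 2) +
            f (1 / 2 + (vdc c / 2 ^ i + (l : ℝ) / (2 ^ i : ℕ)) / 2)) :=
          ih c fun x => f (x / 2) + f (1 / 2 + x / 2)
      _ = ∑ l ∈ range (2 ^ i), f (vdc c / 2 ^ (i + 1) + (l : ℝ) / (2 ^ (i + 1) : ℕ)) +
          ∑ l ∈ range (2 ^ i), f (vdc c / 2 ^ (i + 1) + ((2 ^ i + l : ℕ) : ℝ) / (2 ^ (i + 1) : ℕ)) := by
          rw [sum_add_distrib]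
          congr 1
          · refine sum_congr rfl fun l _ => ?_
            congr 1
            push_cast
            rw [pow_succ]
            field_simp
          · refine sum_congr rfl fun l _ => ?_
            congr 1
            push_cast
            rw [pow_succ]
            field_simp
            ring
      _ = _ := by
          rw [e1, two_mul, sum_range_add]

/-- `exp (2πix)`. -/
noncomputable def e2 (x : ℝ) : ℂ := Complex.exp (2 * Real.pi * Complex.I * x)

lemma norm_e2 (x : ℝ) : ‖e2 x‖ = 1 := by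
  rw [e2, show (2 * Real.pi * Complex.I * x : ℂ) = ((2 * Real.pi * x : ℝ) : ℂ) * Complex.I by
    push_cast
    ring, Complex.norm_exp_ofReal_mul_I]

lemma e2_zero : e2 0 = 1 := by simp [e2]

lemma e2_add (x : ℝ) {M : ℕ} (hM : 0 < M) (l : ℕ) : e2 (x + (l : ℝ) / M) = e2 x * om M ^ l := by
  have hM' : (M : ℂ) ≠ 0 := by exact_mod_cast hM.ne'
  rw [e2, e2, om, ← Complex.exp_nat_mul, ← Complex.exp_add]
  congr 1
  push_cast
  field_simp

lemma e2_inj {x y : ℝ} (hx : 0 ≤ x ∧ x < 1) (hy : 0 ≤ y ∧ y < 1) (h : e2 x = e2 y) : x = y := by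
  rw [e2, e2, Complex.exp_eq_exp_iff_exists_int] at h
  obtain ⟨n, hn⟩ := h
  have hpi : (2 * Real.pi * Complex.I : ℂ) ≠ 0 := by
    simp [Real.pi_ne_zero]
  have h1 : (x : ℂ) = y + n := by
    have h2 : (2 * Real.pi * Complex.I : ℂ) * x = (2 * Real.pi * Complex.I) * (y + n) := by
      rw [hn]
      ring
    exact mul_left_cancel₀ hpi h2
  have h3 : x = y + n := by exact_mod_cast h1
  have h4 : (n : ℝ) < 1 := by linarith
  have h5 : (-1 : ℝ) < n := by linarith
  have h6 : n < 1 := by exact_mod_cast h4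
  have h7 : -1 < n := by exact_mod_cast h5
  have h8 : n = 0 := by omega
  rw [h3, h8]
  simp

end Pool.Agent.Y242.CK
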